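import Pool.Agent.Q18.HC.Fib

/-!
# The HNN extension of `F × Q` with stable letter centralising the graph of `F → Q`
-/

set_option autoImplicit false

namespace Pool.Agent.Q18.HC

open Pool.Agent.W326.DU Pool.Agent.Y66.HC Pool.Agent.W571.DU

section
variable {F Q : Type} [Group F] [Group Q] (π₂ : F →* Q)

/-- the graph of `π₂` -/
def Gam : Subgroup (F × Q) := ((MonoidHom.id F).prod π₂).range

theorem mem_Gam (f : F) (q : Q) : (f, q) ∈ Gam π₂ ↔ π₂ f = q := by
  constructor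
  · rintro ⟨g, hg⟩
    have h1 : g = f := congrArg Prod.fst hg
    have h2 : π₂ g = q := congrArg Prod.snd hg
    rw [← h1]
    exact h2
  · rintro rfl
    exact ⟨f, rfl⟩

/-- the HNN extension -/
abbrev GG : Type := HNNExtension (F × Q) (Gam π₂) (Gam π₂) (MulEquiv.refl _)

/-- the base group -/
def bs : F × Q →* GG π₂ := HNNExtension.of

/-- the stable letter -/
def st : GG π₂ := HNNExtension.t

theorem bs_inj : Function.Injective (bs π₂) := HNNExtension.of_injective _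

theorem st_comm (f : F) : st π₂ * bs π₂ (f, π₂ f) = bs π₂ (f, π₂ f) * st π₂ := by
  have h1 := HNNExtension.t_mul_of (φ := MulEquiv.refl (Gam π₂))
    (⟨(f, π₂ f), (mem_Gam π₂ _ _).2 rfl⟩ : Gam π₂)
  exact h1

/-- the map to `Q` -/
def p1 : GG π₂ →* Q := HNNExtension.lift (MonoidHom.snd F Q) 1 (by
  intro a
  show 1 * (a : F × Q).2 = (a : F × Q).2 * 1
  rw [one_mul, mul_one])

theorem p1_bs (f : F) (q : Q) : p1 π₂ (bs π₂ (f, q)) = q := HNNExtension.lift_of _ _ _ _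

theorem p1_st : p1 π₂ (st π₂) = 1 := HNNExtension.lift_t _ _ _

theorem p1_surj : Function.Surjective (p1 π₂) := fun q => ⟨bs π₂ (1, q), p1_bs π₂ 1 q⟩

theorem gg_ind (M : Subgroup (GG π₂)) (h1 : ∀ x, bs π₂ x ∈ M) (h2 : st π₂ ∈ M) (g : GG π₂) :
    g ∈ M :=
  HNNExtension.induction_on (motive := fun g => g ∈ M) g h1 h2 (fun _ _ hx hy => mul_mem hx hy)
    (fun _ hx => inv_mem hx)

theorem bs_split (f : F) (q : Q) : bs π₂ (f, q) = bs π₂ (f, 1) * bs π₂ (1, q) := by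
  rw [← map_mul, Prod.mk_mul_mk, mul_one, one_mul]

variable {I J : Type} [Fintype I] [Fintype J] (a : I → F) (b : J → Q)

/-- the generating family of the base group -/
def fam : I ⊕ J → F × Q := Sum.elim (fun i => MonoidHom.inl F Q (a i)) (fun j => MonoidHom.inr F Q (b j))

theorem fam_gen (ha : Subgroup.closure (Set.range a) = ⊤) (hb : Subgroup.closure (Set.range b) = ⊤) :
    Subgroup.closure (Set.range (fam a b)) = ⊤ := by
  rw [eq_top_iff]
  rintro ⟨f, q⟩ -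
  have h1 : ((f, 1) : F × Q) ∈ Subgroup.closure (Set.range (fam a b)) := by
    have h1 : MonoidHom.inl F Q f ∈ (Subgroup.closure (Set.range a)).map (MonoidHom.inl F Q) :=
      ⟨f, by rw [ha]; trivial, rfl⟩
    rw [MonoidHom.map_closure, ← Set.range_comp] at h1
    refine Subgroup.closure_mono ?_ h1
    rintro _ ⟨i, rfl⟩
    exact ⟨Sum.inl i, rfl⟩
  have h2 : ((1, q) : F × Q) ∈ Subgroup.closure (Set.range (fam a b)) := by
    have h1 : MonoidHom.inr F Q q ∈ (Subgroup.closure (Set.range b)).map (MonoidHom.inr F Q) :=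
      ⟨q, by rw [hb]; trivial, rfl⟩
    rw [MonoidHom.map_closure, ← Set.range_comp] at h1
    refine Subgroup.closure_mono ?_ h1
    rintro _ ⟨i, rfl⟩
    exact ⟨Sum.inr i, rfl⟩
  have h3 := mul_mem h1 h2
  rw [Prod.mk_mul_mk, mul_one, one_mul] at h3
  exact h3

theorem gg_gen (ha : Subgroup.closure (Set.range a) = ⊤) (hb : Subgroup.closure (Set.range b) = ⊤) :
    Subgroup.closure (Set.range (addt (st π₂) (fun s => bs π₂ (fam a b s)))) = ⊤ := by
  rw [eq_top_iff]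
  rintro g -
  apply gg_ind
  · intro x
    have h1 : bs π₂ x ∈ (Subgroup.closure (Set.range (fam a b))).map (bs π₂) :=
      ⟨x, by rw [fam_gen a b ha hb]; trivial, rfl⟩
    rw [MonoidHom.map_closure, ← Set.range_comp] at h1
    refine Subgroup.closure_mono ?_ h1
    rintro _ ⟨i, rfl⟩
    exact ⟨some i, rfl⟩
  · exact Subgroup.subset_closure ⟨none, rfl⟩

theorem Gam_fg (ha : Subgroup.closure (Set.range a) = ⊤) : (Gam π₂).FG := by
  classical
  refine (Subgroup.fg_iff _).2 ⟨Set.range (fun i => ((MonoidHom.id F).prod π₂) (a i)), ?_,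
    Set.finite_range _⟩
  have h1 : Set.range (fun i => ((MonoidHom.id F).prod π₂) (a i)) =
      ((MonoidHom.id F).prod π₂) '' (Set.range a) := by
    rw [← Set.range_comp]
    rfl
  rw [h1, ← MonoidHom.map_closure, ha]
  exact (MonoidHom.range_eq_map _).symm

theorem gg_star : StarP ℤ (Set.range (bs π₂)) (st π₂) (bs π₂ '' (Gam π₂ : Set (F × Q))) :=
  Pool.Agent.W335.DU.HN.th ℤ (F × Q) (Gam π₂) (Gam π₂) (MulEquiv.refl _)

/-- the relation module of the HNN extension is finitely generated -/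
theorem gg_fg (ha : Subgroup.closure (Set.range a) = ⊤) (hb : Subgroup.closure (Set.range b) = ⊤)
    (hRa : RM a = ⊥) (hRb : (RM b).FG) :
    (RM (addt (st π₂) (fun s => bs π₂ (fam a b s)))).FG := by
  apply RM_hnn (bs π₂) (bs_inj π₂) (st π₂) (Gam π₂) (Gam_fg π₂ a ha)
  · rintro ⟨f, q⟩ hf
    obtain rfl := (mem_Gam π₂ f q).1 hf
    exact st_comm π₂ f
  · exact gg_star π₂
  · exact fam_gen a b ha hb
  · apply RM_prod (MonoidHom.inl F Q) (MonoidHom.inr F Q) (MonoidHom.fst F Q)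
    · intro x y hxy
      exact congrArg Prod.snd hxy
    · intro f
      rfl
    · intro q
      rfl
    · rintro ⟨f, q⟩ hf
      have hf' : f = 1 := hf
      exact ⟨q, by rw [hf']; rfl⟩
    · intro f q
      show ((f, 1) : F × Q) * (1, q) = (1, q) * (f, 1)
      rw [Prod.mk_mul_mk, Prod.mk_mul_mk, mul_one, one_mul, mul_one, one_mul]
    · exact hRa
    · exact hb
    · exact hRb

/-- the kernel of the map to `Q` is finitely generated -/
theorem ker_fg (hπ : Function.Surjective π₂) (ha : Subgroup.closure (Set.range a) = ⊤) :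
    Group.FG (p1 π₂).ker := by
  classical
  rw [Group.fg_iff_subgroup_fg, Subgroup.fg_iff]
  obtain ⟨M, hM⟩ : ∃ M, M = Subgroup.closure (insert (st π₂) (Set.range fun i => bs π₂ (a i, 1))) :=
    ⟨_, rfl⟩
  refine ⟨insert (st π₂) (Set.range fun i => bs π₂ (a i, 1)), ?_,
    (Set.finite_range _).insert _⟩
  rw [← hM]
  have hst : st π₂ ∈ M := by
    rw [hM]
    exact Subgroup.subset_closure (Set.mem_insert _ _)
  have hF : ∀ f, bs π₂ (f, 1) ∈ M := by
    intro f
    have h1 : bs π₂ (f, 1) ∈ (Subgroup.closure (Set.range a)).map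
        ((bs π₂).comp (MonoidHom.inl F Q)) := ⟨f, by rw [ha]; trivial, rfl⟩
    rw [MonoidHom.map_closure, ← Set.range_comp] at h1
    rw [hM]
    refine Subgroup.closure_mono ?_ h1
    rintro _ ⟨i, rfl⟩
    exact Set.mem_insert_of_mem _ ⟨i, rfl⟩
  have hconj : ∀ q, ∀ m ∈ M, bs π₂ (1, q) * m * (bs π₂ (1, q))⁻¹ ∈ M := by
    intro q m hm
    rw [hM] at hm
    induction hm using Subgroup.closure_induction with
    | mem m hm =>
      rcases hm with rfl | ⟨i, rfl⟩
      · obtain ⟨f, rfl⟩ := hπ q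
        have h1 : bs π₂ (1, π₂ f) = (bs π₂ (f, 1))⁻¹ * bs π₂ (f, π₂ f) := by
          rw [← map_inv, ← map_mul]
          congr 1
          show ((1, π₂ f) : F × Q) = (f⁻¹, 1⁻¹) * (f, π₂ f)
          rw [Prod.mk_mul_mk, inv_mul_cancel, inv_one, one_mul]
        have h2 : bs π₂ (1, π₂ f) * st π₂ * (bs π₂ (1, π₂ f))⁻¹ =
            (bs π₂ (f, 1))⁻¹ * st π₂ * bs π₂ (f, 1) := by
          rw [h1, mul_inv_rev, inv_inv]
          have h3 := st_comm π₂ f
          calc (bs π₂ (f, 1))⁻¹ * bs π₂ (f, π₂ f) * st π₂ *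
              ((bs π₂ (f, π₂ f))⁻¹ * bs π₂ (f, 1)) =
              (bs π₂ (f, 1))⁻¹ * (bs π₂ (f, π₂ f) * st π₂) *
              ((bs π₂ (f, π₂ f))⁻¹ * bs π₂ (f, 1)) := by group
            _ = _ := by rw [← h3]; group
        rw [h2]
        exact mul_mem (mul_mem (inv_mem (hF f)) hst) (hF f)
      · have h1 : bs π₂ (1, q) * bs π₂ (a i, 1) * (bs π₂ (1, q))⁻¹ = bs π₂ (a i, 1) := by
          rw [← map_inv, ← map_mul, ← map_mul]
          congr 1
          show ((1, q) : F × Q) * (a i, 1) * (1⁻¹, q⁻¹) = (a i, 1)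
          rw [Prod.mk_mul_mk, Prod.mk_mul_mk, one_mul, mul_one, inv_one, mul_one, mul_inv_cancel]
        show bs π₂ (1, q) * bs π₂ (a i, 1) * (bs π₂ (1, q))⁻¹ ∈ M
        rw [h1]
        exact hF _
    | one =>
      rw [mul_one, mul_inv_cancel]
      exact one_mem _
    | mul x y _ _ hx hy =>
      have : bs π₂ (1, q) * (x * y) * (bs π₂ (1, q))⁻¹ =
          (bs π₂ (1, q) * x * (bs π₂ (1, q))⁻¹) * (bs π₂ (1, q) * y * (bs π₂ (1, q))⁻¹) := by
        group
      rw [this]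
      exact mul_mem hx hy
    | inv x _ hx =>
      have : bs π₂ (1, q) * x⁻¹ * (bs π₂ (1, q))⁻¹ = (bs π₂ (1, q) * x * (bs π₂ (1, q))⁻¹)⁻¹ := by
        group
      rw [this]
      exact inv_mem hx
  have hinv : ∀ q, (bs π₂ (1, q))⁻¹ = bs π₂ (1, q⁻¹) := by
    intro q
    rw [← map_inv]
    congr 1
    show ((1⁻¹, q⁻¹) : F × Q) = (1, q⁻¹)
    rw [inv_one]
  have hmul : ∀ q r, bs π₂ (1, q) * bs π₂ (1, r) = bs π₂ (1, q * r) := by
    intro q r
    rw [← map_mul, Prod.mk_mul_mk, one_mul]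
  apply le_antisymm
  · rw [hM, Subgroup.closure_le]
    rintro _ (rfl | ⟨i, rfl⟩)
    · exact p1_st π₂
    · exact p1_bs π₂ _ _
  · have hall : ∀ g : GG π₂, g * (bs π₂ (1, p1 π₂ g))⁻¹ ∈ M := by
      intro g
      let Z : Subgroup (GG π₂) :=
        { carrier := {g | g * (bs π₂ (1, p1 π₂ g))⁻¹ ∈ M}
          one_mem' := by
            show (1 : GG π₂) * (bs π₂ (1, p1 π₂ 1))⁻¹ ∈ M
            have h1 : (1 : GG π₂) * (bs π₂ (1, p1 π₂ 1))⁻¹ = 1 := by
              rw [map_one, one_mul]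
              have : ((1, 1) : F × Q) = 1 := rfl
              rw [this, map_one, inv_one]
            rw [h1]
            exact one_mem _
          mul_mem' := by
            intro x y hx hy
            show x * y * (bs π₂ (1, p1 π₂ (x * y)))⁻¹ ∈ M
            have h1 : x * y * (bs π₂ (1, p1 π₂ (x * y)))⁻¹ =
                (x * (bs π₂ (1, p1 π₂ x))⁻¹) * (bs π₂ (1, p1 π₂ x) *
                  (y * (bs π₂ (1, p1 π₂ y))⁻¹) * (bs π₂ (1, p1 π₂ x))⁻¹) := by
              rw [map_mul, ← hmul, mul_inv_rev]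
              group
            rw [h1]
            exact mul_mem hx (hconj _ _ hy)
          inv_mem' := by
            intro x hx
            show x⁻¹ * (bs π₂ (1, p1 π₂ x⁻¹))⁻¹ ∈ M
            have h1 : x⁻¹ * (bs π₂ (1, p1 π₂ x⁻¹))⁻¹ =
                bs π₂ (1, (p1 π₂ x)⁻¹) * (x * (bs π₂ (1, p1 π₂ x))⁻¹)⁻¹ *
                  (bs π₂ (1, (p1 π₂ x)⁻¹))⁻¹ := by
              rw [map_inv, ← hinv]
              group
            rw [h1]
            exact hconj _ _ (inv_mem hx) }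
      refine gg_ind π₂ Z ?_ ?_ g
      · rintro ⟨f, q⟩
        show bs π₂ (f, q) * (bs π₂ (1, p1 π₂ (bs π₂ (f, q))))⁻¹ ∈ M
        rw [p1_bs, bs_split, mul_assoc, mul_inv_cancel, mul_one]
        exact hF f
      · show st π₂ * (bs π₂ (1, p1 π₂ (st π₂)))⁻¹ ∈ M
        have h1 : ((1, 1) : F × Q) = 1 := rfl
        rw [p1_st, h1, map_one, inv_one, mul_one]
        exact hst
    intro g hg
    have hg' : p1 π₂ g = 1 := hg
    have h1 := hall g
    have h2 : ((1, 1) : F × Q) = 1 := rfl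
    rw [hg', h2, map_one, inv_one, mul_one] at h1
    exact h1

end

section fibre
variable {F Q : Type} [Group F] [Group Q] (π₂ : F →* Q)

/-- the fibre product -/
abbrev PP : Type := ↥(((p1 π₂).comp (MonoidHom.fst (GG π₂) F)).eqLocus
  (π₂.comp (MonoidHom.snd (GG π₂) F)))

/-- the first embedding of `F` -/
def al : F →* PP π₂ where
  toFun f := ⟨(bs π₂ (f, 1), 1), by
    show p1 π₂ (bs π₂ (f, 1)) = π₂ 1
    rw [p1_bs, map_one]⟩
  map_one' := by
    apply Subtype.ext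
    show ((bs π₂ (1, 1), 1) : GG π₂ × F) = 1
    have h1 : ((1, 1) : F × Q) = 1 := rfl
    rw [h1, map_one]
    rfl
  map_mul' f g := by
    apply Subtype.ext
    show ((bs π₂ (f * g, 1), 1) : GG π₂ × F) = (bs π₂ (f, 1), 1) * (bs π₂ (g, 1), 1)
    rw [Prod.mk_mul_mk, ← map_mul, Prod.mk_mul_mk, mul_one, mul_one]

/-- the second embedding of `F` -/
def be : F →* PP π₂ where
  toFun f := ⟨(bs π₂ (1, π₂ f), f), by
    show p1 π₂ (bs π₂ (1, π₂ f)) = π₂ f
    rw [p1_bs]⟩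
  map_one' := by
    apply Subtype.ext
    show ((bs π₂ (1, π₂ 1), 1) : GG π₂ × F) = 1
    have h1 : ((1, 1) : F × Q) = 1 := rfl
    rw [map_one, h1, map_one]
    rfl
  map_mul' f g := by
    apply Subtype.ext
    show ((bs π₂ (1, π₂ (f * g)), f * g) : GG π₂ × F) = (bs π₂ (1, π₂ f), f) * (bs π₂ (1, π₂ g), g)
    rw [Prod.mk_mul_mk, ← map_mul, Prod.mk_mul_mk, mul_one, map_mul]

/-- the stable letter -/
def tt : PP π₂ := ⟨(st π₂, 1), by
  show p1 π₂ (st π₂) = π₂ 1
  rw [p1_st, map_one]⟩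

/-- the first projection -/
def q1 : PP π₂ →* GG π₂ := (MonoidHom.fst (GG π₂) F).comp (Subgroup.subtype _)

/-- the second projection -/
def q2 : PP π₂ →* F := (MonoidHom.snd (GG π₂) F).comp (Subgroup.subtype _)

variable {I : Type} [Fintype I] (a : I → F)

/-- the generating family of the fibre product -/
def pfam : Option (I ⊕ I) → PP π₂ := addt (tt π₂) (Sum.elim (fun i => al π₂ (a i)) (fun i => be π₂ (a i)))

theorem q1_surj (hπ : Function.Surjective π₂) : Function.Surjective (q1 π₂) := by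
  intro g
  obtain ⟨f, hf⟩ := hπ (p1 π₂ g)
  exact ⟨⟨(g, f), hf.symm⟩, rfl⟩

theorem q1_ker (x : PP π₂) (hx : q1 π₂ x = 1) : ∃ n, π₂ n = 1 ∧ x = be π₂ n := by
  obtain ⟨⟨g, f⟩, hgf⟩ := x
  have h1 : g = 1 := hx
  have h2 : p1 π₂ g = π₂ f := hgf
  have h3 : π₂ f = 1 := by rw [← h2, h1, map_one]
  refine ⟨f, h3, ?_⟩
  apply Subtype.ext
  show ((g, f) : GG π₂ × F) = (bs π₂ (1, π₂ f), f)
  have h4 : ((1, 1) : F × Q) = 1 := rfl
  rw [h3, h4, map_one, h1]

theorem pfam_gen (hπ : Function.Surjective π₂) (ha : Subgroup.closure (Set.range a) = ⊤) :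
    Subgroup.closure (Set.range (pfam π₂ a)) = ⊤ := by
  obtain ⟨M, hM⟩ : ∃ M, M = Subgroup.closure (Set.range (pfam π₂ a)) := ⟨_, rfl⟩
  rw [← hM, eq_top_iff]
  have hal : ∀ f, al π₂ f ∈ M := by
    intro f
    have h1 : al π₂ f ∈ (Subgroup.closure (Set.range a)).map (al π₂) := ⟨f, by rw [ha]; trivial, rfl⟩
    rw [MonoidHom.map_closure, ← Set.range_comp] at h1
    rw [hM]
    refine Subgroup.closure_mono ?_ h1
    rintro _ ⟨i, rfl⟩
    exact ⟨some (Sum.inl i), rfl⟩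
  have hbe : ∀ f, be π₂ f ∈ M := by
    intro f
    have h1 : be π₂ f ∈ (Subgroup.closure (Set.range a)).map (be π₂) := ⟨f, by rw [ha]; trivial, rfl⟩
    rw [MonoidHom.map_closure, ← Set.range_comp] at h1
    rw [hM]
    refine Subgroup.closure_mono ?_ h1
    rintro _ ⟨i, rfl⟩
    exact ⟨some (Sum.inr i), rfl⟩
  have htt : tt π₂ ∈ M := by
    rw [hM]
    exact Subgroup.subset_closure ⟨none, rfl⟩
  have hmap : ∀ g, g ∈ M.map (q1 π₂) := by
    apply gg_ind
    · rintro ⟨f, q⟩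
      obtain ⟨f', rfl⟩ := hπ q
      refine ⟨al π₂ f * be π₂ f', mul_mem (hal _) (hbe _), ?_⟩
      show bs π₂ (f, 1) * bs π₂ (1, π₂ f') = bs π₂ (f, π₂ f')
      rw [← bs_split]
    · exact ⟨tt π₂, htt, rfl⟩
  rintro x -
  obtain ⟨m, hm, hmx⟩ := hmap (q1 π₂ x)
  obtain ⟨n, _, hn⟩ := q1_ker π₂ (m⁻¹ * x) (by rw [map_mul, map_inv, hmx, inv_mul_cancel])
  have h1 : x = m * (m⁻¹ * x) := by group
  rw [h1, hn]
  exact mul_mem hm (hbe n)

/-- **the fibre product**: if its relation module is finitely generated, then the kernel of `π₂` is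
the normal closure of a finite set -/
theorem fib (hπ : Function.Surjective π₂) (ha : Subgroup.closure (Set.range a) = ⊤)
    (hfg : (RM (pfam π₂ a)).FG) :
    ∃ S : Set F, S.Finite ∧ (∀ r ∈ S, π₂ r = 1) ∧ π₂.ker ≤ Subgroup.normalClosure S := by
  refine fib_abs π₂ a ha (Set.range (bs π₂)) (bs π₂ '' (Gam π₂ : Set (F × Q))) (st π₂) (gg_star π₂)
    (q1 π₂) (q1_surj π₂ hπ) (q2 π₂) (al π₂) (be π₂) (tt π₂) ?_ ?_ ?_ rfl ?_ (q1_ker π₂) ?_ ?_ ?_ ?_
    hfg
  · intro f g hfg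
    have h1 : bs π₂ (f, 1) = bs π₂ (g, 1) := congrArg (q1 π₂) hfg
    exact congrArg Prod.fst (bs_inj π₂ h1)
  · intro f
    exact ⟨(f, 1), rfl⟩
  · intro f
    exact ⟨(1, π₂ f), rfl⟩
  · rintro _ ⟨⟨f, q⟩, hf, rfl⟩
    obtain rfl := (mem_Gam π₂ f q).1 hf
    refine ⟨al π₂ f * be π₂ f, ⟨f, f, rfl, rfl⟩, ?_⟩
    show bs π₂ (f, 1) * bs π₂ (1, π₂ f) = bs π₂ (f, π₂ f)
    rw [← bs_split]
  · intro f f'
    apply Subtype.ext
    show ((bs π₂ (f, 1), 1) : GG π₂ × F) * (bs π₂ (1, π₂ f'), f') =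
      (bs π₂ (1, π₂ f'), f') * (bs π₂ (f, 1), 1)
    rw [Prod.mk_mul_mk, Prod.mk_mul_mk, ← map_mul, ← map_mul, Prod.mk_mul_mk, Prod.mk_mul_mk,
      mul_one, one_mul, mul_one, one_mul, mul_one, one_mul]
  · intro f f' hff
    apply Subtype.ext
    show ((st π₂, 1) : GG π₂ × F) * ((bs π₂ (f, 1), 1) * (bs π₂ (1, π₂ f'), f')) =
      ((bs π₂ (f, 1), 1) * (bs π₂ (1, π₂ f'), f')) * (st π₂, 1)
    rw [Prod.mk_mul_mk, Prod.mk_mul_mk, Prod.mk_mul_mk, ← bs_split, ← hff, st_comm, one_mul, one_mul,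
      mul_one]
  · intro f
    rfl
  · intro f
    rfl

end fibre

end Pool.Agent.Q18.HC
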