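import Pool.Agent.Y448.HC.Aug

/-!
# M1: relation modules of groups of type `FP_2` are finitely generated
-/

set_option autoImplicit false

open CategoryTheory CategoryTheory.Limits

namespace Pool.Agent.Q18.HC

open Pool.Agent.W326.DU Pool.Agent.Y66.HC Pool.Agent.Helper158

/-- elementwise exactness in `Rep` -/
theorem exact_elt {k G : Type} [CommRing k] [Group G] (S : ShortComplex (Rep.{0} k G))
    (h : S.Exact) (x : S.X₂) (hx : S.g.hom x = 0) : ∃ y : S.X₁, S.f.hom y = x := by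
  have h1 : (S.map (forget₂ (Rep.{0} k G) (ModuleCat.{0} k))).Exact := h.map _
  rw [ShortComplex.moduleCat_exact_iff] at h1
  exact h1 x hx

/-- comparison of a partial resolution with a resolution -/
theorem compare {k G : Type} [CommRing k] [Group G]
    (R : ProjectiveResolution (Rep.trivial.{0} k G k)) (A0 A1 : Rep.{0} k G) [Projective A0]
    [Projective A1] (F : A1 ⟶ A0) (au : A0 ⟶ Rep.trivial.{0} k G k) [Epi au] (w : F ≫ au = 0)
    (ex : (ShortComplex.mk F au w).Exact) :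
    ∃ (g : R.complex.X 2 ⟶ A1) (K : A1 ⟶ A1), g ≫ F = 0 ∧ K ≫ F = 0 ∧
      ∀ z : A1, F.hom z = 0 → ∃ y : R.complex.X 2, z = g.hom y + K.hom z := by
  let ε : R.complex.X 0 ⟶ Rep.trivial.{0} k G k := R.π.f 0
  have : Epi ε := inferInstanceAs (Epi (R.π.f 0))
  have hε : R.complex.d 1 0 ≫ ε = 0 := R.complex_d_comp_π_f_zero
  let f0 : A0 ⟶ R.complex.X 0 := Projective.factorThru au ε
  have hf0 : f0 ≫ ε = au := Projective.factorThru_comp _ _
  let g0 : R.complex.X 0 ⟶ A0 := Projective.factorThru ε au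
  have hg0 : g0 ≫ au = ε := Projective.factorThru_comp _ _
  have hw1 : (F ≫ f0) ≫ ε = 0 := by rw [Category.assoc, hf0, w]
  let f1 : A1 ⟶ R.complex.X 1 := R.exact₀.liftFromProjective (F ≫ f0) hw1
  have hf1 : f1 ≫ R.complex.d 1 0 = F ≫ f0 := R.exact₀.liftFromProjective_comp _ _
  have hw2 : (R.complex.d 1 0 ≫ g0) ≫ au = 0 := by rw [Category.assoc, hg0, hε]
  let g1 : R.complex.X 1 ⟶ A1 := ex.liftFromProjective (R.complex.d 1 0 ≫ g0) hw2
  have hg1 : g1 ≫ F = R.complex.d 1 0 ≫ g0 := ex.liftFromProjective_comp _ _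
  have hw3 : (𝟙 A0 - f0 ≫ g0) ≫ au = 0 := by
    rw [Preadditive.sub_comp, Category.assoc, hg0, hf0, Category.id_comp, sub_self]
  let h : A0 ⟶ A1 := ex.liftFromProjective (𝟙 A0 - f0 ≫ g0) hw3
  have hh : h ≫ F = 𝟙 A0 - f0 ≫ g0 := ex.liftFromProjective_comp _ _
  let K : A1 ⟶ A1 := 𝟙 A1 - f1 ≫ g1 - F ≫ h
  have hK : K ≫ F = 0 := by
    simp only [K, Preadditive.sub_comp, Category.assoc, Category.id_comp, hg1, hh,
      Preadditive.comp_sub, Category.comp_id]
    rw [← Category.assoc f1, hf1, Category.assoc]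
    abel
  refine ⟨R.complex.d 2 1 ≫ g1, K, ?_, hK, ?_⟩
  · rw [Category.assoc, hg1, ← Category.assoc, HomologicalComplex.d_comp_d, zero_comp]
  · intro z hz
    have h1 : (R.complex.d 1 0).hom (f1.hom z) = 0 := by
      have : (f1 ≫ R.complex.d 1 0).hom z = (F ≫ f0).hom z := by rw [hf1]
      change (R.complex.d 1 0).hom (f1.hom z) = f0.hom (F.hom z) at this
      rw [this, hz, map_zero]
    obtain ⟨y, hy⟩ := exact_elt _ (R.exact_succ 0) (f1.hom z) h1
    refine ⟨y, ?_⟩
    change z = g1.hom ((R.complex.d 2 1).hom y) + (z - g1.hom (f1.hom z) - h.hom (F.hom z))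
    have hy' : (R.complex.d 2 1).hom y = f1.hom z := hy
    rw [hy', hz, map_zero]
    abel

section

variable {G ι : Type} [Group G] [Fintype ι]

/-- the augmentation as a morphism -/
noncomputable def au (G : Type) [Group G] : FMk ℤ (G := G) (ZG G) ⟶ Rep.trivial ℤ G ℤ :=
  mkHom (k := ℤ) (G := G) (augm G).toIntLinearMap (by
    intro g x
    change augm G (MonoidAlgebra.of ℤ G g * x) = augm G x
    rw [Pool.Agent.Y448.HC.augm_mul, Pool.Agent.Y448.HC.augm_of, one_mul])

theorem au_epi : Epi (au G) := by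
  rw [Rep.epi_iff_surjective]
  intro n
  obtain ⟨y, hy⟩ := Pool.Agent.Y448.HC.augm_surj (G := G) n
  exact ⟨y, hy⟩

theorem fox_au (x : ι → G) : lhom (fox x) ≫ au G = 0 := by
  ext c
  exact Pool.Agent.Y448.HC.augm_fox x c

theorem fox_ex (x : ι → G) (hx : Subgroup.closure (Set.range x) = ⊤) :
    (ShortComplex.mk (lhom (fox x)) (au G) (fox_au x)).Exact := by
  apply rep_exact
  intro y hy
  have hy' : augm G y = 0 := hy
  obtain ⟨c, hc⟩ := (Pool.Agent.Y448.HC.fox_exact x hx y).1 hy'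
  exact ⟨c, hc⟩

end

theorem m1 : PropM1 := by
  intro G ι _ _ x hx hFP
  classical
  obtain ⟨R, hR⟩ := hFP
  obtain ⟨s, hs⟩ := hR 2 le_rfl
  have := au_epi (G := G)
  obtain ⟨g, K, hg, hK, hz⟩ := compare R (FMk ℤ (G := G) (ZG G)) (FMk ℤ (G := G) (ι → ZG G))
    (lhom (fox x)) (au G) (fox_au x) (fox_ex x hx)
  let g' : (R.complex.X 2).V → (ι → ZG G) := fun y => g.hom y
  let K' : (ι → ZG G) → (ι → ZG G) := fun y => K.hom y
  have hgadd : ∀ a b, g' (a + b) = g' a + g' b := fun a b => map_add g.hom a b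
  have hgeq : ∀ (h : G) a, g' ((R.complex.X 2).ρ h a) = MonoidAlgebra.of ℤ G h • g' a :=
    fun h a => Rep.hom_comm_apply g h a
  let KL : (ι → ZG G) →ₗ[MonoidAlgebra ℤ G] (ι → ZG G) :=
    mkLin (k := ℤ) (K.hom.toLinearMap : (ι → ZG G) →ₗ[ℤ] (ι → ZG G)) (by
      intro h a
      exact Rep.hom_comm_apply K h a)
  have hKL : ∀ a, KL a = K' a := fun a => rfl
  have hgmem : ∀ y, g' y ∈ RM x := by
    intro y
    have : (g ≫ lhom (fox x)).hom y = 0 := by rw [hg]; rfl
    exact this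
  have hKmem : ∀ y, K' y ∈ RM x := by
    intro y
    have : (K ≫ lhom (fox x)).hom y = 0 := by rw [hK]; rfl
    exact this
  let T : Set (ι → ZG G) := (g' '' (s : Set (R.complex.X 2).V)) ∪
    Set.range (fun i : ι => K' (Pi.single i 1))
  have hT : T.Finite := (s.finite_toSet.image _).union (Set.finite_range _)
  refine ⟨hT.toFinset, ?_⟩
  rw [Set.Finite.coe_toFinset]
  apply le_antisymm
  · rw [Submodule.span_le]
    rintro _ (⟨y, _, rfl⟩ | ⟨i, rfl⟩)
    · exact hgmem y
    · exact hKmem _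
  · intro z hzm
    obtain ⟨y, hy⟩ := hz z hzm
    have hy' : z = g' y + KL z := hy
    rw [hy']
    refine Submodule.add_mem _ ?_ ?_
    · have h1 := hs y
      refine Submodule.span_induction (p := fun y _ => g' y ∈ Submodule.span (ZG G) T) ?_ ?_ ?_ ?_ h1
      · rintro _ ⟨⟨h, ⟨t, ht⟩⟩, rfl⟩
        change g' ((R.complex.X 2).ρ h t) ∈ _
        rw [hgeq]
        exact Submodule.smul_mem _ _ (Submodule.subset_span (Or.inl ⟨t, ht, rfl⟩))
      · have : g' 0 = 0 := map_zero g.hom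
        rw [this]
        exact Submodule.zero_mem _
      · intro a b _ _ ha hb
        rw [hgadd]
        exact Submodule.add_mem _ ha hb
      · intro n a _ ha
        have : g' (n • a) = n • g' a := map_zsmul (AddMonoidHom.mk' g' hgadd) n a
        rw [this]
        exact Submodule.smul_of_tower_mem _ n ha
    · have h2 : z = ∑ i, z i • (Pi.single i (1 : ZG G) : ι → ZG G) := by
        funext j
        simp [Finset.sum_apply, Pi.single_apply]
      rw [h2, map_sum]
      refine Submodule.sum_mem _ fun i _ => ?_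
      rw [map_smul]
      exact Submodule.smul_mem _ _ (Submodule.subset_span (Or.inr ⟨i, rfl⟩))

end Pool.Agent.Q18.HC
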