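import Pool.Agent.Q18.HC.BB3
import Pool.Agent.Q18.HC.Grp
import Pool.Agent.Q18.HC.M1

/-!
# Generators of the Bestvina-Brady group, and the conclusion
-/

set_option autoImplicit false

namespace Pool.Agent.Q18.HC.BB

open Pool.Agent.W326.DU Pool.Agent.Y66.HC Pool.Agent.W571.DU

section
variable {V : Type} {ad : V → V → Prop}

/-- the generators of the Bestvina-Brady group -/
def bb (ad : V → V → Prop) : EE ad → HH ad
  | Sum.inl e => ⟨gen ad e.1.1 * (gen ad e.1.2)⁻¹, by
      rw [mem_ker_iff, dg_mul, dg_inv, dg_gen, dg_gen]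
      rfl⟩
  | Sum.inr _ => 1

theorem bb_gen (hsym : ∀ a b, ad a b → ad b a) (hconn : ∀ a b, Relation.ReflTransGen ad a b)
    (v0 : V) : Subgroup.closure (Set.range (bb ad)) = ⊤ := by
  obtain ⟨M, hM⟩ : ∃ M, M = (Subgroup.closure (Set.range (bb ad))).map (hgt ad).ker.subtype :=
    ⟨_, rfl⟩
  have m1 : ∀ u v, ad u v → gen ad u * (gen ad v)⁻¹ ∈ M := by
    intro u v h
    rw [hM]
    exact ⟨_, Subgroup.subset_closure ⟨Sum.inl ⟨(u, v), h⟩, rfl⟩, rfl⟩
  have m2 : ∀ u v, ad u v → (gen ad v)⁻¹ * gen ad u ∈ M := by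
    intro u v h
    have h1 : (gen ad v)⁻¹ * gen ad u = gen ad u * (gen ad v)⁻¹ := by
      have h2 := Pool.Agent.W304.DU.RG.gen_comm ad u v h
      rw [inv_mul_eq_iff_eq_mul, ← mul_assoc, ← h2, mul_inv_cancel_right]
    rw [h1]
    exact m1 u v h
  have m3 : ∀ u v, gen ad u * (gen ad v)⁻¹ ∈ M := by
    intro u v
    induction hconn u v with
    | refl =>
      rw [mul_inv_cancel]
      exact one_mem _
    | tail _ h ih =>
      rename_i b c _
      have h1 : gen ad u * (gen ad c)⁻¹ = (gen ad u * (gen ad b)⁻¹) * (gen ad b * (gen ad c)⁻¹) := by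
        group
      rw [h1]
      exact mul_mem ih (m1 b c h)
  have m3' : ∀ u v, (gen ad u)⁻¹ * gen ad v ∈ M := by
    intro u v
    induction hconn u v with
    | refl =>
      rw [inv_mul_cancel]
      exact one_mem _
    | tail _ h ih =>
      rename_i b c _
      have h1 : (gen ad u)⁻¹ * gen ad c = ((gen ad u)⁻¹ * gen ad b) * ((gen ad b)⁻¹ * gen ad c) := by
        group
      rw [h1]
      exact mul_mem ih (m2 c b (hsym _ _ h))
  have mind : ∀ (φ : RAAG ad →* RAAG ad), (∀ u v, ad u v → φ (gen ad u * (gen ad v)⁻¹) ∈ M) →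
      ∀ m ∈ M, φ m ∈ M := by
    intro φ hφ m hm
    have h1 : M ≤ M.comap φ := by
      conv_lhs => rw [hM]
      rw [MonoidHom.map_closure, Subgroup.closure_le]
      rintro _ ⟨_, ⟨e, rfl⟩, rfl⟩
      rcases e with ⟨⟨u, v⟩, h⟩ | e
      · exact hφ u v h
      · show φ 1 ∈ M
        rw [map_one]
        exact one_mem _
    exact h1 hm
  have m4 : ∀ w, ∀ m ∈ M, gen ad w * m * (gen ad w)⁻¹ ∈ M := by
    intro w m hm
    have h1 := mind (MulAut.conj (gen ad w)).toMonoidHom (by
      intro u v h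
      show gen ad w * (gen ad u * (gen ad v)⁻¹) * (gen ad w)⁻¹ ∈ M
      have h2 := Pool.Agent.W304.DU.RG.gen_comm ad u v h
      have h3 : gen ad w * (gen ad u * (gen ad v)⁻¹) * (gen ad w)⁻¹ =
          (gen ad w * (gen ad u)⁻¹) * (gen ad u * (gen ad v)⁻¹) * (gen ad u * (gen ad w)⁻¹) := by
        have h4 : (gen ad v)⁻¹ * gen ad u = gen ad u * (gen ad v)⁻¹ := by
          rw [inv_mul_eq_iff_eq_mul, ← mul_assoc, ← h2, mul_inv_cancel_right]
        calc gen ad w * (gen ad u * (gen ad v)⁻¹) * (gen ad w)⁻¹ =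
            gen ad w * ((gen ad v)⁻¹ * gen ad u) * (gen ad w)⁻¹ := by rw [h4]
          _ = _ := by group
      rw [h3]
      exact mul_mem (mul_mem (m3 _ _) (m3 _ _)) (m3 _ _)) m hm
    exact h1
  have m4' : ∀ w, ∀ m ∈ M, (gen ad w)⁻¹ * m * gen ad w ∈ M := by
    intro w m hm
    have h1 := mind (MulAut.conj (gen ad w)⁻¹).toMonoidHom (by
      intro u v h
      show (gen ad w)⁻¹ * (gen ad u * (gen ad v)⁻¹) * (gen ad w)⁻¹⁻¹ ∈ M
      have h2 := Pool.Agent.W304.DU.RG.gen_comm ad u v h
      have h3 : (gen ad w)⁻¹ * (gen ad u * (gen ad v)⁻¹) * (gen ad w)⁻¹⁻¹ =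
          ((gen ad w)⁻¹ * gen ad u) * ((gen ad v)⁻¹ * gen ad u) * ((gen ad u)⁻¹ * gen ad w) := by
        group
      rw [h3]
      exact mul_mem (mul_mem (m3' _ _) (m3' _ _)) (m3' _ _)) m hm
    have h2 : (gen ad w)⁻¹ * m * (gen ad w)⁻¹⁻¹ ∈ M := h1
    rwa [inv_inv] at h2
  have hnorm : M.Normal := by
    constructor
    intro m hm g
    have hg : g ∈ Subgroup.closure (Set.range (gen ad)) := by
      rw [show Subgroup.closure (Set.range (gen ad)) = ⊤ from PresentedGroup.closure_range_of _]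
      trivial
    induction hg using Subgroup.closure_induction generalizing m with
    | mem g hg =>
      obtain ⟨w, rfl⟩ := hg
      exact m4 w m hm
    | one =>
      rw [one_mul, inv_one, mul_one]
      exact hm
    | mul x y _ _ hx hy =>
      have h1 : x * y * m * (x * y)⁻¹ = x * (y * m * y⁻¹) * x⁻¹ := by group
      rw [h1]
      exact hx _ (hy _ hm)
    | inv x hx' ihx =>
      -- the conjugation by `x` maps `M` onto `M`
      clear ihx
      have h5 : ∀ y ∈ Subgroup.closure (Set.range (gen ad)), ∀ m ∈ M, y⁻¹ * m * y ∈ M := by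
        intro y hy
        induction hy using Subgroup.closure_induction with
        | mem y hy =>
          obtain ⟨w, rfl⟩ := hy
          exact m4' w
        | one =>
          intro m hm
          rw [inv_one, one_mul, mul_one]
          exact hm
        | mul a b _ _ ha hb =>
          intro m hm
          have h1 : (a * b)⁻¹ * m * (a * b) = b⁻¹ * (a⁻¹ * m * a) * b := by group
          rw [h1]
          exact hb _ (ha _ hm)
        | inv a ha iha =>
          intro m hm
          rw [inv_inv]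
          have h6 : ∀ y ∈ Subgroup.closure (Set.range (gen ad)), (∀ m ∈ M, y * m * y⁻¹ ∈ M) ∧
              (∀ m ∈ M, y⁻¹ * m * y ∈ M) := by
            intro y hy
            induction hy using Subgroup.closure_induction with
            | mem y hy =>
              obtain ⟨w, rfl⟩ := hy
              exact ⟨m4 w, m4' w⟩
            | one =>
              refine ⟨fun m hm => ?_, fun m hm => ?_⟩
              · rw [one_mul, inv_one, mul_one]
                exact hm
              · rw [inv_one, one_mul, mul_one]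
                exact hm
            | mul a b _ _ ha hb =>
              refine ⟨fun m hm => ?_, fun m hm => ?_⟩
              · have h1 : a * b * m * (a * b)⁻¹ = a * (b * m * b⁻¹) * a⁻¹ := by group
                rw [h1]
                exact ha.1 _ (hb.1 _ hm)
              · have h1 : (a * b)⁻¹ * m * (a * b) = b⁻¹ * (a⁻¹ * m * a) * b := by group
                rw [h1]
                exact hb.2 _ (ha.2 _ hm)
            | inv a _ ha =>
              refine ⟨fun m hm => ?_, fun m hm => ?_⟩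
              · rw [inv_inv]
                exact ha.2 m hm
              · rw [inv_inv]
                exact ha.1 m hm
          exact (h6 a ha).1 m hm
      rw [inv_inv]
      exact h5 x hx' m hm
  -- the quotient
  have h1 : QuotientGroup.mk' M = (zpowersHom (RAAG ad ⧸ M) (QuotientGroup.mk' M (gen ad v0))).comp
      (hgt ad) := by
    apply MonoidHom.eq_of_eqOn_dense (show Subgroup.closure (Set.range (gen ad)) = ⊤ from
      PresentedGroup.closure_range_of _)
    rintro _ ⟨v, rfl⟩
    show QuotientGroup.mk' M (gen ad v) = zpowersHom (RAAG ad ⧸ M) (QuotientGroup.mk' M (gen ad v0))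
      (hgt ad (gen ad v))
    rw [hgt_gen, zpowersHom_apply]
    show QuotientGroup.mk' M (gen ad v) = QuotientGroup.mk' M (gen ad v0) ^ (1 : ℤ)
    rw [zpow_one, QuotientGroup.mk'_apply, QuotientGroup.mk'_apply, QuotientGroup.eq]
    exact m3' v v0
  rw [eq_top_iff]
  rintro x -
  have h2 := DFunLike.congr_fun h1 (x : RAAG ad)
  have h3 : hgt ad (x : RAAG ad) = 1 := x.2
  rw [MonoidHom.comp_apply, h3, map_one, QuotientGroup.mk'_apply, QuotientGroup.eq_one_iff, hM] at h2
  obtain ⟨y, hy, hyx⟩ := h2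
  have h4 : y = x := Subtype.ext hyx
  rw [← h4]
  exact hy

end

section final

/-- **the counterexample**, from the truncated complex and the group theory -/
theorem main (htr : PropTR) (hnf : PropNF) (hM1 : PropM1) (hM2 : PropM2) (hM8 : PropM8) :
    ∃ (G₁ G₂ Q : Type) (_ : Group G₁) (_ : Group G₂) (_ : Group Q) (π₁ : G₁ →* Q) (π₂ : G₂ →* Q),
      Function.Surjective π₁ ∧ Function.Surjective π₂ ∧ Group.FG π₁.ker ∧ FPc 2 G₁ ∧ FPc 2 G₂ ∧
      FPc 3 Q ∧ ¬ FPc 2 ↥((π₁.comp (MonoidHom.fst G₁ G₂)).eqLocus (π₂.comp (MonoidHom.snd G₁ G₂))) := by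
  classical
  obtain ⟨V, _, _, ad, γ, l, p, hg⟩ := hM8
  letI : LinearOrder V := linearOrderOfSTO (r := WellOrderingRel)
  let v0 : V := p 0
  have : Fintype (EE ad) := Fintype.ofFinite _
  let F : Type := Fr (EE ad)
  let Q : Type := HH ad
  let a : EE ad → F := gen (fun _ _ : EE ad => False)
  have ha : Subgroup.closure (Set.range a) = ⊤ := PresentedGroup.closure_range_of _
  have hRa : RM a = ⊥ := RM_free (EE ad)
  have hb : Subgroup.closure (Set.range (bb ad)) = ⊤ := bb_gen hg.symm hg.conn v0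
  have hQ : ∀ m, FPc m Q := fpB ad htr hg.symm hg.irr hg.k4 hg.acyc v0
  have hRb : (RM (bb ad)).FG := hM1 _ _ (bb ad) hb (hQ 2)
  let π₂ : F →* Q := PresentedGroup.toGroup (f := bb ad) (by
    rintro _ ⟨_, _, h, _⟩
    exact h.elim)
  have hπ2 : ∀ e, π₂ (a e) = bb ad e := fun e => PresentedGroup.toGroup.of _
  have hsurj : Function.Surjective π₂ := by
    rw [← MonoidHom.range_eq_top, eq_top_iff, ← hb, Subgroup.closure_le]
    rintro _ ⟨e, rfl⟩
    exact ⟨a e, hπ2 e⟩
  refine ⟨GG π₂, F, Q, inferInstance, inferInstance, inferInstance, p1 π₂, π₂, p1_surj π₂, hsurj,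
    ker_fg π₂ a hsurj ha, ?_, ?_, hQ 3, ?_⟩
  · exact hM2 _ _ _ (gg_gen π₂ a (bb ad) ha hb) (gg_fg π₂ a (bb ad) ha hb hRa hRb)
  · refine hM2 _ _ a ha ?_
    rw [hRa]
    exact Submodule.fg_bot
  · intro hP
    have h1 : (RM (pfam π₂ a)).FG := hM1 (PP π₂) _ (pfam π₂ a) (pfam_gen π₂ a hsurj ha) hP
    obtain ⟨S, hS1, hS2, hS3⟩ := fib π₂ a hsurj ha h1
    refine hnf V ad γ l p hg ((hgt ad).ker.subtype.comp π₂) ?_ ?_ S hS1 ?_ ?_
    · intro e
      show ((π₂ (a (Sum.inl e)) : Q) : RAAG ad) = _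
      rw [hπ2]
      rfl
    · intro e
      show ((π₂ (a (Sum.inr e)) : Q) : RAAG ad) = _
      rw [hπ2]
      rfl
    · intro r hr
      show ((π₂ r : Q) : RAAG ad) = 1
      rw [hS2 r hr]
      rfl
    · intro x hx
      apply hS3
      have hx' : ((π₂ x : Q) : RAAG ad) = 1 := hx
      exact Subtype.ext hx'

end final

end Pool.Agent.Q18.HC.BB
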