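import Pool.Agent.Y66.HC.Defs

/-!
# M8: the finite graph (barycentric subdivision of the spine of the Poincaré sphere)

The 21 cells of the 2-complex with five vertices, ten edges and six pentagons.  Acyclicity with
arbitrary coefficients is checked by an explicit integer contraction of the chain complex.
-/

set_option autoImplicit false
set_option maxRecDepth 100000

namespace Pool.Agent.Q18.HC

open Pool.Agent.W326.DU Pool.Agent.Y66.HC

/-! ### Integer rows -/

def rAdd : List ℤ → List ℤ → List ℤ
  | [], s => s
  | a :: r, [] => a :: r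
  | a :: r, b :: s => (a + b) :: rAdd r s

def rSm (k : ℤ) : List ℤ → List ℤ
  | [] => []
  | a :: r => (k * a) :: rSm k r

def allZ : List ℤ → Bool
  | [] => true
  | a :: r => (a == 0) && allZ r

def ev {M : Type} [AddCommGroup M] : List ℤ → List M → M
  | [], _ => 0
  | _ :: _, [] => 0
  | a :: r, m :: L => a • m + ev r L

def unit : ℕ → ℕ → ℤ → List ℤ
  | 0, _, _ => []
  | n + 1, 0, s => s :: unit n n 0
  | n + 1, i + 1, s => 0 :: unit n i s

def lc : List ℤ → List (List ℤ) → List ℤ
  | [], _ => []
  | _ :: _, [] => []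
  | k :: ks, r :: rs => rAdd (bif k == 0 then [] else rSm k r) (lc ks rs)

def rsum (f : ℕ → List ℤ) : ℕ → List ℤ
  | 0 => []
  | n + 1 => rAdd (f n) (rsum f n)

section
variable {M : Type} [AddCommGroup M]

theorem ev_add (r s : List ℤ) (L : List M) : ev (rAdd r s) L = ev r L + ev s L := by
  induction r generalizing s L with
  | nil => simp [rAdd, ev]
  | cons a r ih =>
    cases s with
    | nil => simp [rAdd, ev]
    | cons b s =>
      cases L with
      | nil => simp [rAdd, ev]
      | cons m L => simp only [rAdd, ev, ih, add_smul]; abel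

theorem ev_sm (k : ℤ) (r : List ℤ) (L : List M) : ev (rSm k r) L = k • ev r L := by
  induction r generalizing L with
  | nil => simp [rSm, ev]
  | cons a r ih =>
    cases L with
    | nil => simp [rSm, ev]
    | cons m L => simp only [rSm, ev, ih, smul_add, mul_smul]

theorem ev_allZ (r : List ℤ) (L : List M) (h : allZ r = true) : ev r L = 0 := by
  induction r generalizing L with
  | nil => simp [ev]
  | cons a r ih =>
    simp only [allZ, Bool.and_eq_true, beq_iff_eq] at h
    cases L with
    | nil => simp [ev]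
    | cons m L => simp [ev, ih L h.2, h.1]

theorem ev_zero (r : List ℤ) (L : List M) (h : ∀ m ∈ L, m = 0) : ev r L = 0 := by
  induction r generalizing L with
  | nil => simp [ev]
  | cons a r ih =>
    cases L with
    | nil => simp [ev]
    | cons m L =>
      simp only [ev]
      rw [h m (by simp), ih L (fun x hx => h x (by simp [hx])), smul_zero, add_zero]

theorem ev_unit0 (n i : ℕ) (L : List M) : ev (unit n i 0) L = 0 := by
  apply ev_allZ
  induction n generalizing i with
  | zero => rfl
  | succ n ih =>
    cases i with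
    | zero => simp [unit, allZ, ih]
    | succ i => simp [unit, allZ, ih]

theorem ev_unit (n i : ℕ) (s : ℤ) (L : List M) (h : i < n) :
    ev (unit n i s) L = s • L.getD i 0 := by
  induction n generalizing i L with
  | zero => omega
  | succ n ih =>
    cases i with
    | zero =>
      cases L with
      | nil => simp [unit, ev]
      | cons m L => simp [unit, ev, ev_unit0]
    | succ i =>
      cases L with
      | nil => simp [unit, ev]
      | cons m L =>
        simp only [unit, ev, zero_smul, zero_add, List.getD_cons_succ]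
        exact ih i L (by omega)

theorem ev_lc (ks : List ℤ) (rs : List (List ℤ)) (L : List M) :
    ev (lc ks rs) L = ev ks (rs.map fun r => ev r L) := by
  induction ks generalizing rs with
  | nil => simp [lc, ev]
  | cons k ks ih =>
    cases rs with
    | nil => simp [lc, ev]
    | cons r rs =>
      simp only [lc, ev_add, List.map_cons, ev, ih]
      by_cases hk : k = 0
      · simp [hk, ev]
      · have : (k == 0) = false := by simpa using hk
        rw [this]
        simp [ev_sm]

theorem ev_rsum (f : ℕ → List ℤ) (n : ℕ) (L : List M) :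
    ev (rsum f n) L = ∑ a : Fin n, ev (f a) L := by
  induction n with
  | zero => simp [rsum, ev]
  | succ n ih =>
    rw [Fin.sum_univ_castSucc, rsum, ev_add, ih, add_comm]
    rfl

end

/-! ### The graph -/

def msk : List ℕ := [2064864, 2068000, 2077248, 2086016, 2091264, 229379, 851973, 1441801, 1605649, 1343494, 1638410, 917522, 688140, 1245204, 360472, 21311, 25727, 14527, 19167, 7519, 10143]

def adb (a b : ℕ) : Bool := Nat.testBit (msk.getD a 0) b

def ad (a b : Fin 21) : Prop := adb a b = true

instance : DecidableRel ad := fun a b => by unfold ad; infer_instance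

def EL : List (ℕ × ℕ) := [(0, 5), (0, 6), (0, 7), (0, 8), (0, 15), (0, 16), (0, 17), (0, 18), (0, 19), (0, 20), (1, 5), (1, 9), (1, 10), (1, 11), (1, 15), (1, 16), (1, 17), (1, 18), (1, 19), (1, 20), (2, 6), (2, 9), (2, 12), (2, 13), (2, 15), (2, 16), (2, 17), (2, 18), (2, 19), (2, 20), (3, 7), (3, 10), (3, 12), (3, 14), (3, 15), (3, 16), (3, 17), (3, 18), (3, 19), (3, 20), (4, 8), (4, 11), (4, 13), (4, 14), (4, 15), (4, 16), (4, 17), (4, 18), (4, 19), (4, 20), (5, 15), (5, 16), (5, 17), (6, 16), (6, 18), (6, 19), (7, 17), (7, 18), (7, 20), (8, 15), (8, 19), (8, 20), (9, 15), (9, 18), (9, 20), (10, 16), (10, 19), (10, 20), (11, 17), (11, 18), (11, 19), (12, 15), (12, 17), (12, 19), (13, 16), (13, 17), (13, 20), (14, 15), (14, 16), (14, 18)]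

def TL : List (ℕ × ℕ × ℕ) := [(0, 5, 15), (0, 5, 16), (0, 5, 17), (0, 6, 16), (0, 6, 18), (0, 6, 19), (0, 7, 17), (0, 7, 18), (0, 7, 20), (0, 8, 15), (0, 8, 19), (0, 8, 20), (1, 5, 15), (1, 5, 16), (1, 5, 17), (1, 9, 15), (1, 9, 18), (1, 9, 20), (1, 10, 16), (1, 10, 19), (1, 10, 20), (1, 11, 17), (1, 11, 18), (1, 11, 19), (2, 6, 16), (2, 6, 18), (2, 6, 19), (2, 9, 15), (2, 9, 18), (2, 9, 20), (2, 12, 15), (2, 12, 17), (2, 12, 19), (2, 13, 16), (2, 13, 17), (2, 13, 20), (3, 7, 17), (3, 7, 18), (3, 7, 20), (3, 10, 16), (3, 10, 19), (3, 10, 20), (3, 12, 15), (3, 12, 17), (3, 12, 19), (3, 14, 15), (3, 14, 16), (3, 14, 18), (4, 8, 15), (4, 8, 19), (4, 8, 20), (4, 11, 17), (4, 11, 18), (4, 11, 19), (4, 13, 16), (4, 13, 17), (4, 13, 20), (4, 14, 15), (4, 14, 16), (4, 14, 18)]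

def HT : List ℕ := [35414739083230800963178944580266196620,
    99803498558514056353566962995953664809,
    69437534853080295085226175557171865324,
    69370010316205891562857906425427354710,
    34674672631255511659146540413326385289,
    98586139754581475019717612922458163443,
    133955534754190947013837777961391605490,
    69347674204505548420310793652757104719,
    1287584510307628018881292583452535565,
    103450603010785015749793132191198405669,
    49363189176888944342899395605736657615,
    2574976852074749681210397452514663255,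
    21357109332089909634069466208962043040,
    49905504012513441194342302375611281574,
    133393159150212468899720320466907692529,
    35414739083230083065191252727672643402,
    20079733168490166654337209490510190031,
    1287491796134351419745406832424283555,
    99803498558511902659603887438173005155,
    49360685978992713059638799646558854715,
    750183229128603013898405001890526261,
    69437534853073834003336948883829886362,
    34674671486636088491305997841959673543,
    98721371957985426119053382878228629768,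
    133258017366974669625537441458061236544,
    20079735457612713516012214513604552859,
    49293069877203512906492666471223627363,
    21357115054896276788256940617779898537,
    34674672631197361922143492728038510133,
    750176361760962428873435683867824765,
    35414740227791356496028747320732272998,
    70649896502658885119496346636482312564,
    98586139754407025808708469866594537975,
    69370010316186508317190225558241948544,
    134000591552757477729484000542764811801,
    1287488362450531127233059435329924040,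
    70627368103113945945384695759201538165,
    133213056711031759466690318515675080294,
    750368648054898817677686831779299969,
    49905473109359058561728705108147149455,
    98721310151676660853828659036170181732,
    1287584505597499317582492595511955609,
    21334586655351337613846952862472785557,
    133955534753667599380660322788881094848,
    49360655075838330429728141161263035364,
    35302098230066660624006606953754387004,
    99803344042739989496491428616468172415,
    69347674202935505520778428135225572793,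
    51725301498327321396304932031893374355,
    98726378268995572135142167767220528188,
    4937089088731155980609624626102272048,
    133392324765044137746240555855148142352,
    20078064398153504493269665775594519139,
    49363189134497706301240115218932361053,
    132649750579261311697579777319554080279,
    69433362927232169701256973567512933292,
    2574976724901035556232556292101773569,
    103450602996654628673283495502822361721,
    66328676377619716707860109818658405330,
    34673837101467810588400943899637553834]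

def KL : List (ℕ × ℕ) := [(26, 6), (5, 246), (48, 18), (6, 738), (70, 54), (7, 2214), (92, 162), (8, 6642), (204, 39366), (15, 19683000), (226, 118098), (16, 44700093), (248, 354294), (17, 129317310), (267, 1062882), (289, 3188646), (309, 9565938), (18, 387420489), (19, 1162261467), (20, 3486784401)]

def dg (x : ℕ) : ℤ := match x with
  | 0 => 0
  | 1 => 1
  | _ => -1

/-- the row of length `n` coded by the base three digits of `x` -/
def dec (x : ℕ) : ℕ → ℕ → List ℤ
  | 0, _ => []
  | n + 1, i => dg (x / 3 ^ i % 3) :: dec x n (i + 1)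

def pos (P : ℕ → ℕ → Bool) : List (ℕ × ℕ) → ℕ → ℕ
  | [], i => i
  | (a, b) :: l, i => bif P a b then i else pos P l (i + 1)

/-- the position of an edge -/
def eix (a b : ℕ) : ℕ := pos (fun p q => p == a && q == b) EL 0

def pos3 (a b c : ℕ) : List (ℕ × ℕ × ℕ) → ℕ → ℕ
  | [], i => i
  | (p, q, r) :: l, i => bif (p == a && q == b && r == c) then i else pos3 a b c l (i + 1)

def tix (a b c : ℕ) : ℕ := pos3 a b c TL 0

/-- the row of `y a b` -/
def E (a b : ℕ) : List ℤ :=
  bif adb a b then (bif Nat.blt a b then unit 80 (eix a b) 1 else unit 80 (eix b a) (-1)) else []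

def kfind (k : ℕ) : List (ℕ × ℕ) → List ℤ
  | [] => []
  | (a, c) :: l => bif a == k then dec c 21 0 else kfind k l

/-- the contraction in degree `0` -/
def K (a b : ℕ) : List ℤ :=
  bif Nat.blt a b then kfind (a * 21 + b) KL else rSm (-1) (kfind (b * 21 + a) KL)

/-- sorting with signs -/
def srt {α : Type} (f : ℤ → ℕ → ℕ → ℕ → α) (a b c : ℕ) : α :=
  bif Nat.blt a b then
    (bif Nat.blt b c then f 1 a b c else bif Nat.blt a c then f (-1) a c b else f 1 c a b)
  else
    (bif Nat.blt a c then f (-1) b a c else bif Nat.blt b c then f 1 b c a else f (-1) c b a)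

def tri (a b c : ℕ) : Bool := adb a b && adb b c && adb a c

/-- the row of `z a b c` -/
def T (a b c : ℕ) : List ℤ :=
  bif tri a b c then srt (fun s p q r => unit 60 (tix p q r) s) a b c else []

/-- the contraction in degree `1` -/
def Z (a b c : ℕ) : List ℤ :=
  bif tri a b c then srt (fun s p q r => rSm s (dec (HT.getD (tix p q r) 0) 80 0)) a b c else []

def rng : ℕ → (ℕ → Bool) → Bool
  | 0, _ => true
  | n + 1, f => f n && rng n f

theorem rng_spec {n : ℕ} {f : ℕ → Bool} (h : rng n f = true) : ∀ i < n, f i = true := by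
  induction n with
  | zero => intro i hi; omega
  | succ n ih =>
    intro i hi
    simp only [rng, Bool.and_eq_true] at h
    rcases Nat.lt_succ_iff_lt_or_eq.1 hi with h1 | h1
    · exact ih h.2 i h1
    · exact h1 ▸ h.1

/-! ### Kernel checks -/

def eqv (r s : List ℤ) : Bool := allZ (rAdd r (rSm (-1) s))

theorem eqv_spec {M : Type} [AddCommGroup M] {r s : List ℤ} (h : eqv r s = true) (L : List M) :
    ev r L = ev s L := by
  have := ev_allZ _ L h
  rw [ev_add, ev_sm, neg_one_smul, ← sub_eq_add_neg] at this
  exact sub_eq_zero.1 this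

def ones : ℕ → List ℤ
  | 0 => []
  | n + 1 => 1 :: ones n

theorem chkK : rng 21 (fun b => eqv (rsum (fun a => K a b) 21)
    (bif b == 0 then rAdd (unit 21 0 1) (rSm (-1) (ones 21)) else unit 21 b 1)) = true := by
  decide +kernel

theorem chkK2 : rng 21 (fun a => rng 21 fun b => allZ (rAdd (K a b) (K b a)) &&
    (adb a b || allZ (K a b))) = true := by
  decide +kernel

theorem chkE : rng 21 (fun a => rng 21 fun b =>
    (!adb a b && (E a b == [])) ||
    ((EL.getD (eix a b) (0, 0) == (a, b)) && (E a b == unit 80 (eix a b) 1) && Nat.blt (eix a b) 80)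
    || ((EL.getD (eix b a) (0, 0) == (b, a)) && (E a b == unit 80 (eix b a) (-1)) &&
      Nat.blt (eix b a) 80)) = true := by
  decide +kernel

def CC (v : ℕ) : List ℤ := rsum (fun a => E a v) 21

def lst : ℕ → (ℕ → List ℤ) → List (List ℤ)
  | 0, _ => []
  | n + 1, f => f 0 :: lst n (fun i => f (i + 1))

theorem chkZ : rng 21 (fun b => rng 21 fun c =>
    (!adb b c) || eqv (rsum (fun a => Z a b c) 21)
      (rAdd (E b c) (rSm (-1) (lc (K b c) (lst 21 CC))))) = true := by
  decide +kernel

theorem chkZ2 : rng 21 (fun a => rng 21 fun b => rng 21 fun c =>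
    (tri a b c || allZ (Z a b c)) &&
    (!tri a b c || (allZ (rAdd (Z a b c) (Z b a c)) && allZ (rAdd (Z a b c) (Z a c b)))))
    = true := by
  decide +kernel

def okT (i : ℕ) (s : ℤ) (t : ℕ × ℕ × ℕ) (r : List ℤ) : Bool :=
  (TL.getD i (0, 0, 0) == t) && (r == unit 60 i s) && Nat.blt i 60

theorem chkT : rng 21 (fun a => rng 21 fun b => rng 21 fun c =>
    (!tri a b c && (T a b c == [])) || (tri a b c &&
     (okT (tix a b c) 1 (a, b, c) (T a b c) || okT (tix a c b) (-1) (a, c, b) (T a b c)
      || okT (tix b a c) (-1) (b, a, c) (T a b c) || okT (tix b c a) 1 (b, c, a) (T a b c)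
      || okT (tix c a b) 1 (c, a, b) (T a b c) || okT (tix c b a) (-1) (c, b, a) (T a b c))))
    = true := by
  decide +kernel

def DD (p : ℕ × ℕ) : List ℤ := rsum (fun a => T a p.1 p.2) 21

theorem chkH : rng 60 (fun j => eqv (lc (dec (HT.getD j 0) 80 0) (EL.map DD)) (unit 60 j 1))
    = true := by
  decide +kernel

/-! ### The cocycle -/

def GC : List ℕ := [2930, 2930, 2930, 2930, 2930, 2930, 2930, 2930, 2930, 2930, 2930, 2930, 2930, 2930, 2930, 2930, 2930, 586, 894, 2102, 2930, 2154, 2930, 2930, 2154, 2930, 1138, 2930, 2930, 1346, 2930, 1766, 1922, 2930, 238, 1766, 2930, 2930, 1922, 2930, 2930, 222, 978, 1294, 2930, 978, 222, 1294, 2930, 2930, 2930, 2930, 2930, 2930, 2930, 2930, 2930, 2930, 2930, 2930, 2930, 2930, 2930, 586, 2102, 2930, 894, 2102, 2930, 586, 894, 2154, 1138, 2930, 2930, 1138, 1346, 238, 1766, 2930]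

def gf (c i : ℕ) : ℕ := c / 5 ^ i % 5

def ic (c : ℕ) : ℕ :=
  1 * 5 ^ gf c 1 + 2 * 5 ^ gf c 2 + 3 * 5 ^ gf c 3 + 4 * 5 ^ gf c 4

/-- the code of the permutation at the ordered pair `(u, v)` -/
def code (u v : ℕ) : ℕ :=
  bif adb u v then (bif Nat.blt u v then GC.getD (eix u v) 2930 else ic (GC.getD (eix v u) 2930))
  else 2930

def pf (c : ℕ) (i : Fin 5) : Fin 5 := ⟨gf c i, Nat.mod_lt _ (by norm_num)⟩

theorem chkB : rng 21 (fun u => rng 21 fun v => rng 5 fun j =>
    (gf (code u v) 0 == j) || (gf (code u v) 1 == j) || (gf (code u v) 2 == j) ||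
    (gf (code u v) 3 == j) || (gf (code u v) 4 == j)) = true := by
  decide +kernel

theorem chkC : rng 21 (fun u => rng 21 fun v => (!(u == v || adb u v)) || rng 21 fun w =>
    (!((v == w || adb v w) && (u == w || adb u w))) ||
      rng 5 fun i => gf (code u v) (gf (code v w) i) == gf (code u w) i) = true := by
  decide +kernel

theorem pf_bij (u v : Fin 21) : Function.Bijective (pf (code u v)) := by
  rw [← Finite.surjective_iff_bijective]
  intro j
  have h := rng_spec (rng_spec (rng_spec chkB u u.2) v v.2) j j.2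
  simp only [Bool.or_eq_true, beq_iff_eq] at h
  rcases h with (((h | h) | h) | h) | h
  · exact ⟨0, Fin.ext h⟩
  · exact ⟨1, Fin.ext h⟩
  · exact ⟨2, Fin.ext h⟩
  · exact ⟨3, Fin.ext h⟩
  · exact ⟨4, Fin.ext h⟩

noncomputable def gam (u v : Fin 21) : Equiv.Perm (Fin 5) := Equiv.ofBijective _ (pf_bij u v)

theorem gam_apply (u v : Fin 21) (i : Fin 5) : gam u v i = pf (code u v) i := rfl

theorem gam_coc (u v w : Fin 21) (h1 : u = v ∨ ad u v) (h2 : v = w ∨ ad v w)
    (h3 : u = w ∨ ad u w) : gam u v * gam v w = gam u w := by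
  have h := rng_spec (rng_spec chkC u u.2) v v.2
  have e1 : (u.1 == v.1 || adb u v) = true := by
    rcases h1 with h | h
    · simp [h]
    · simp [show adb u v = true from h]
  rw [e1] at h
  simp only [Bool.not_true, Bool.false_or] at h
  have h := rng_spec h w w.2
  have e2 : (v.1 == w.1 || adb v w) = true := by
    rcases h2 with h | h
    · simp [h]
    · simp [show adb v w = true from h]
  have e3 : (u.1 == w.1 || adb u w) = true := by
    rcases h3 with h | h
    · simp [h]
    · simp [show adb u w = true from h]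
  rw [e2, e3] at h
  simp only [Bool.and_true, Bool.not_true, Bool.false_or] at h
  ext i
  have := rng_spec h i i.2
  simp only [beq_iff_eq] at this
  rw [Equiv.Perm.mul_apply, gam_apply, gam_apply, gam_apply]
  exact this

def pth (i : ℕ) : Fin 21 := ([0, 5, 1, 9, 2, 6, 0] : List (Fin 21)).getD i 0

theorem hol : ((List.range 6).map (fun i => gam (pth i) (pth (i + 1)))).prod ≠ 1 := by
  intro h
  have h0 := congrArg (fun e : Equiv.Perm (Fin 5) => e 0) h
  have e6 : List.range 6 = [0, 1, 2, 3, 4, 5] := by decide
  rw [e6] at h0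
  simp only [List.map_cons, List.map_nil, List.prod_cons, List.prod_nil, Equiv.Perm.mul_apply,
    gam_apply, Equiv.Perm.one_apply] at h0
  revert h0
  decide +kernel

/-! ### The graph properties -/

theorem chkS : rng 21 (fun a => !adb a a && rng 21 fun b => !adb a b || (adb b a &&
    rng 21 fun c => !(adb a c && adb b c) || rng 21 fun d => !(adb a d && adb b d && adb c d)))
    = true := by
  decide +kernel

theorem ad_irr (a : Fin 21) : ¬ ad a a := by
  have h := rng_spec chkS a a.2
  simp only [Bool.and_eq_true, Bool.not_eq_true'] at h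
  intro h2
  rw [show adb a a = true from h2] at h
  exact absurd h.1 (by simp)

theorem ad_symm (a b : Fin 21) (hab : ad a b) : ad b a := by
  have h := rng_spec chkS a a.2
  simp only [Bool.and_eq_true] at h
  have h := rng_spec h.2 b b.2
  rw [show adb a b = true from hab] at h
  simp only [Bool.not_true, Bool.false_or, Bool.and_eq_true] at h
  exact h.1

theorem ad_k4 (a b c d : Fin 21) (hab : ad a b) (hac : ad a c) (had : ad a d) (hbc : ad b c)
    (hbd : ad b d) : ¬ ad c d := by
  intro hcd
  have h := rng_spec chkS a a.2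
  simp only [Bool.and_eq_true] at h
  have h := rng_spec h.2 b b.2
  rw [show adb a b = true from hab] at h
  simp only [Bool.not_true, Bool.false_or, Bool.and_eq_true] at h
  have h := rng_spec h.2 c c.2
  rw [show adb a c = true from hac, show adb b c = true from hbc] at h
  simp only [Bool.and_true, Bool.not_true, Bool.false_or] at h
  have h := rng_spec h d d.2
  rw [show adb a d = true from had, show adb b d = true from hbd,
    show adb c d = true from hcd] at h
  simp at h

theorem conn0 : ∀ a : Fin 21, a = 0 ∨ ad 0 a ∨ ∃ m, ad 0 m ∧ ad m a := by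
  decide +kernel

theorem conn1 (a : Fin 21) : Relation.ReflTransGen ad 0 a := by
  rcases conn0 a with h | h | ⟨m, h1, h2⟩
  · rw [h]
  · exact Relation.ReflTransGen.single h
  · exact (Relation.ReflTransGen.single h1).tail h2

theorem conn2 (a : Fin 21) : Relation.ReflTransGen ad a 0 := by
  rcases conn0 a with h | h | ⟨m, h1, h2⟩
  · rw [h]
  · exact Relation.ReflTransGen.single (ad_symm _ _ h)
  · exact (Relation.ReflTransGen.single (ad_symm _ _ h2)).tail (ad_symm _ _ h1)

theorem conn (a b : Fin 21) : Relation.ReflTransGen ad a b := (conn2 a).trans (conn1 b)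

/-! ### Acyclicity -/

section
variable {M : Type} [AddCommGroup M]

theorem ev_ones (n : ℕ) (x : Fin n → M) : ev (ones n) (List.ofFn x) = ∑ i, x i := by
  induction n with
  | zero => simp [ones, ev]
  | succ n ih => rw [List.ofFn_succ, ones, ev, ih, Fin.sum_univ_succ, one_smul]

theorem ac1 (x : Fin 21 → M) (hx : ∑ v, x v = 0) :
    ∃ y : Fin 21 → Fin 21 → M, IsAlt2 ad Set.univ y ∧ ∀ b, x b = ∑ a, y a b := by
  refine ⟨fun a b => ev (K a b) (List.ofFn x), ⟨fun a b => ?_, fun a b h => ?_⟩, fun b => ?_⟩
  · have h := rng_spec (rng_spec chkK2 a a.2) b b.2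
    simp only [Bool.and_eq_true] at h
    have := ev_allZ _ (List.ofFn x) h.1
    rw [ev_add] at this
    exact eq_neg_of_add_eq_zero_left this
  · have h1 := rng_spec (rng_spec chkK2 a a.2) b b.2
    have h2 : adb a b = false := by
      by_contra h3
      exact h ⟨trivial, trivial, by simpa [ad] using h3⟩
    rw [h2] at h1
    simp only [Bool.and_eq_true, Bool.false_or] at h1
    exact ev_allZ _ _ h1.2
  · rw [← ev_rsum (fun a => K a b)]
    have h := eqv_spec (rng_spec chkK b b.2) (List.ofFn x)
    rw [h]
    by_cases hb : b.1 = 0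
    · have : (b.1 == 0) = true := by simpa using hb
      rw [this]
      simp only [cond_true]
      rw [ev_add, ev_sm, ev_ones, hx, ev_unit 21 0 1 _ (by norm_num), smul_zero, add_zero,
        one_smul]
      have : b = 0 := Fin.ext hb
      rw [this]
      simp
    · have : (b.1 == 0) = false := by simpa using hb
      rw [this]
      simp only [cond_false]
      rw [ev_unit 21 b 1 _ b.2, one_smul, List.getD_eq_getElem _ _ (by simp), List.getElem_ofFn]

def fn (i : ℕ) : Fin 21 := Fin.ofNat 21 i

theorem fn_val (a : Fin 21) : fn a.1 = a := by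
  apply Fin.ext
  simp [fn, Fin.ofNat, Nat.mod_eq_of_lt a.2]

def Ly (y : Fin 21 → Fin 21 → M) : List M := EL.map fun p => y (fn p.1) (fn p.2)

theorem Ly_getD {y : Fin 21 → Fin 21 → M} (hy : IsAlt2 ad Set.univ y) {i : ℕ} {a b : Fin 21}
    (h : (EL.getD i (0, 0) == (a.1, b.1)) = true) : (Ly y).getD i 0 = y a b := by
  have h0 : (fun p : ℕ × ℕ => y (fn p.1) (fn p.2)) (0, 0) = 0 :=
    hy.2 _ _ (fun h => ad_irr _ h.2.2)
  rw [Ly, ← h0, List.getD_map]
  simp only [beq_iff_eq] at h
  rw [h]
  simp only [fn_val]

theorem ev_E {y : Fin 21 → Fin 21 → M} (hy : IsAlt2 ad Set.univ y) (a b : Fin 21) :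
    ev (E a b) (Ly y) = y a b := by
  have h := rng_spec (rng_spec chkE a a.2) b b.2
  simp only [Bool.or_eq_true, Bool.and_eq_true] at h
  rcases h with (⟨h1, h2⟩ | ⟨⟨h1, h2⟩, h3⟩) | ⟨⟨h1, h2⟩, h3⟩
  · rw [eq_of_beq h2, hy.2 a b (fun h => by
      rw [show adb a b = true from h.2.2] at h1
      simp at h1)]
    rfl
  · rw [eq_of_beq h2, ev_unit _ _ _ _ (by simpa [Nat.blt_eq] using h3), Ly_getD hy h1, one_smul]
  · rw [eq_of_beq h2, ev_unit _ _ _ _ (by simpa [Nat.blt_eq] using h3), Ly_getD hy h1,
      neg_one_smul, ← hy.1 a b]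

theorem mem_lst {n : ℕ} {f : ℕ → List ℤ} {r : List ℤ} (h : r ∈ lst n f) : ∃ i < n, r = f i := by
  induction n generalizing f with
  | zero => simp [lst] at h
  | succ n ih =>
    rw [lst, List.mem_cons] at h
    rcases h with h | h
    · exact ⟨0, by omega, h⟩
    · obtain ⟨i, hi, h2⟩ := ih h
      exact ⟨i + 1, by omega, h2⟩

theorem tri_iff (a b c : Fin 21) : tri a b c = true ↔ (ad a b ∧ ad b c ∧ ad a c) := by
  simp [tri, ad, and_assoc]

theorem ac2 (y : Fin 21 → Fin 21 → M) (hy : IsAlt2 ad Set.univ y)
    (hz : ∀ b, ∑ a, y a b = 0) :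
    ∃ z : Fin 21 → Fin 21 → Fin 21 → M, IsAlt3 ad Set.univ z ∧ ∀ b c, y b c = ∑ a, z a b c := by
  have hn : ∀ a b c : Fin 21, ¬ tri a b c = true → ev (Z a b c) (Ly y) = 0 := by
    intro a b c h
    have h1 := rng_spec (rng_spec (rng_spec chkZ2 a a.2) b b.2) c c.2
    rw [Bool.not_eq_true] at h
    simp only [Bool.and_eq_true, Bool.or_eq_true, h, Bool.false_eq_true, false_or] at h1
    exact ev_allZ _ _ h1.1
  have hs : ∀ a b c : Fin 21, tri a b c = true →
      ev (Z a b c) (Ly y) = - ev (Z b a c) (Ly y) ∧ ev (Z a b c) (Ly y) = - ev (Z a c b) (Ly y) := by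
    intro a b c h
    have h1 := rng_spec (rng_spec (rng_spec chkZ2 a a.2) b b.2) c c.2
    simp only [Bool.and_eq_true, Bool.or_eq_true, h, Bool.not_true, Bool.false_eq_true,
      false_or] at h1
    obtain ⟨_, h2, h3⟩ := h1
    have h2 := ev_allZ _ (Ly y) h2
    have h3 := ev_allZ _ (Ly y) h3
    rw [ev_add] at h2 h3
    exact ⟨eq_neg_of_add_eq_zero_left h2, eq_neg_of_add_eq_zero_left h3⟩
  have t1 : ∀ a b c : Fin 21, tri a b c = true → tri b a c = true := by
    intro a b c h
    rw [tri_iff] at h ⊢
    exact ⟨ad_symm _ _ h.1, h.2.2, h.2.1⟩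
  have t2 : ∀ a b c : Fin 21, tri a b c = true → tri a c b = true := by
    intro a b c h
    rw [tri_iff] at h ⊢
    exact ⟨h.2.2, ad_symm _ _ h.2.1, h.1⟩
  refine ⟨fun a b c => ev (Z a b c) (Ly y), ⟨fun a b c => ?_, fun a b c => ?_, fun a b c h => ?_⟩,
    fun b c => ?_⟩
  · by_cases h : tri a b c = true
    · exact (hs a b c h).1
    · beta_reduce
      rw [hn a b c h, hn b a c (fun h2 => h (t1 _ _ _ h2)), neg_zero]
  · by_cases h : tri a b c = true
    · exact (hs a b c h).2
    · beta_reduce
      rw [hn a b c h, hn a c b (fun h2 => h (t2 _ _ _ h2)), neg_zero]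
  · apply hn
    rw [tri_iff]
    exact fun h2 => h ⟨trivial, trivial, trivial, h2⟩
  · by_cases hbc : ad b c
    · rw [← ev_rsum (fun a => Z a b c)]
      have h := rng_spec (rng_spec chkZ b b.2) c c.2
      rw [show adb b c = true from hbc] at h
      simp only [Bool.not_true, Bool.false_or] at h
      rw [eqv_spec h, ev_add, ev_sm, ev_E hy, ev_lc, ev_zero, smul_zero, add_zero]
      intro m hm
      obtain ⟨r, hr, rfl⟩ := List.mem_map.1 hm
      obtain ⟨i, hi, rfl⟩ := mem_lst hr
      rw [CC, ev_rsum]
      have := hz ⟨i, hi⟩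
      rw [← this]
      exact Finset.sum_congr rfl fun a _ => ev_E hy a ⟨i, hi⟩
    · rw [hy.2 b c (fun h => hbc h.2.2)]
      symm
      apply Finset.sum_eq_zero
      intro a _
      apply hn
      rw [tri_iff]
      exact fun h => hbc h.2.1

def Lz (z : Fin 21 → Fin 21 → Fin 21 → M) : List M :=
  TL.map fun t => z (fn t.1) (fn t.2.1) (fn t.2.2)

theorem Lz_getD {z : Fin 21 → Fin 21 → Fin 21 → M} (hz : IsAlt3 ad Set.univ z) {i : ℕ}
    {a b c : Fin 21} {s : ℤ} {r : List ℤ} (h : okT i s (a.1, b.1, c.1) r = true) :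
    ev r (Lz z) = s • z a b c := by
  simp only [okT, Bool.and_eq_true] at h
  obtain ⟨⟨h, h2⟩, h3⟩ := h
  rw [eq_of_beq h2, ev_unit _ _ _ _ (by simpa [Nat.blt_eq] using h3)]
  have h0 : (fun t : ℕ × ℕ × ℕ => z (fn t.1) (fn t.2.1) (fn t.2.2)) (0, 0, 0) = 0 :=
    hz.2.2 _ _ _ (fun h => ad_irr _ h.2.2.2.1)
  rw [Lz, ← h0, List.getD_map]
  simp only [beq_iff_eq] at h
  rw [h]
  simp only [fn_val]

theorem ev_T {z : Fin 21 → Fin 21 → Fin 21 → M} (hz : IsAlt3 ad Set.univ z) (a b c : Fin 21) :
    ev (T a b c) (Lz z) = z a b c := by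
  have h := rng_spec (rng_spec (rng_spec chkT a a.2) b b.2) c c.2
  simp only [Bool.or_eq_true, Bool.and_eq_true] at h
  obtain ⟨s1, s2, s3⟩ := hz
  have hz : IsAlt3 ad Set.univ z := ⟨s1, s2, s3⟩
  rcases h with ⟨h1, h2⟩ | ⟨h0, (((((h | h) | h) | h) | h) | h)⟩
  · rw [eq_of_beq h2, s3 a b c (fun h => by
      have := (tri_iff a b c).2 ⟨h.2.2.2.1, h.2.2.2.2.1, h.2.2.2.2.2⟩
      rw [this] at h1
      simp at h1)]
    rfl
  · rw [Lz_getD hz h, one_smul]
  · rw [Lz_getD hz h, neg_one_smul, ← s2 a b c]
  · rw [Lz_getD hz h, neg_one_smul, ← s1 a b c]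
  · rw [Lz_getD hz h, one_smul, s2 b c a, s1 b a c, neg_neg]
  · rw [Lz_getD hz h, one_smul, s1 c a b, s2 a c b, neg_neg]
  · rw [Lz_getD hz h, neg_one_smul, s1 c b a, s2 b c a, s1 b a c, neg_neg]
    simp

theorem EL_lt : ∀ p ∈ EL, p.1 < 21 ∧ p.2 < 21 := by
  decide +kernel

theorem ac3 (z : Fin 21 → Fin 21 → Fin 21 → M) (hz : IsAlt3 ad Set.univ z)
    (h0 : ∀ b c, ∑ a, z a b c = 0) (a b c : Fin 21) : z a b c = 0 := by
  rw [← ev_T hz a b c]
  apply ev_zero
  intro m hm
  obtain ⟨j, hj, rfl⟩ := List.mem_iff_getElem.1 hm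
  have hj60 : j < 60 := by
    have : (Lz z).length = 60 := by rw [Lz, List.length_map]; rfl
    omega
  have h := eqv_spec (rng_spec chkH j hj60) (Lz z)
  rw [ev_unit _ _ _ _ hj60, one_smul, List.getD_eq_getElem _ _ hj, ev_lc, ev_zero] at h
  · exact h.symm
  · intro m hm
    obtain ⟨r, hr, rfl⟩ := List.mem_map.1 hm
    obtain ⟨p, hp, rfl⟩ := List.mem_map.1 hr
    obtain ⟨p1, p2⟩ := EL_lt p hp
    rw [DD, ev_rsum, ← h0 ⟨p.1, p1⟩ ⟨p.2, p2⟩]
    exact Finset.sum_congr rfl fun a _ => ev_T hz a ⟨p.1, p1⟩ ⟨p.2, p2⟩

end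

theorem acyc : Acyc ad where
  ac1 _ _ x hx := ac1 x hx
  ac2 _ _ y hy h := ac2 y hy h
  ac3 _ _ z hz h := ac3 z hz h

theorem m8 : PropM8 := by
  refine ⟨Fin 21, inferInstance, inferInstance, ad, gam, 6, pth, ?_⟩
  exact
    { symm := ad_symm
      irr := ad_irr
      k4 := ad_k4
      acyc := acyc
      conn := conn
      coc := gam_coc
      closed := by decide +kernel
      path := by decide +kernel
      hol := hol }

end Pool.Agent.Q18.HC
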