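import Pool.Agent.Q18.HC.Stm
import Pool.Agent.Q30.LS.LS3

/-!
# The Bestvina-Brady group is not finitely presented (job D of MP_3ca9d5_al)
-/

set_option autoImplicit false

namespace Pool.Agent.Q18.HC

open Pool.Agent.W326.DU Pool.Agent.Y66.HC Q30.LS

section aux

variable {P G Q D : Type} [Group P] [Group G] [Group Q] [Group D] {ι : P →* G} {ρ : G →* Q}
  {s : Q → G} {h : G →* D}

theorem Rs_mono {S S' : Set D} (hS : S ⊆ S') : Rs ι h S ≤ Rs ι h S' := by
  apply Rs_le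
  rintro x ⟨g, p, hg, hx⟩
  exact Subgroup.subset_normalClosure ⟨g, p, hS hg, hx⟩

/-- the elements which are in some `Rs` -/
def MM (ι : P →* G) (h : G →* D) : Subgroup G where
  carrier := {y | ∃ S : Set D, S.Finite ∧ y ∈ (Rs ι h S).map h.ker.subtype}
  one_mem' := ⟨∅, Set.finite_empty, one_mem _⟩
  mul_mem' := by
    rintro y z ⟨S, hS, hy⟩ ⟨S', hS', hz⟩
    refine ⟨S ∪ S', hS.union hS', mul_mem ?_ ?_⟩
    · exact Subgroup.map_mono (Rs_mono Set.subset_union_left) hy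
    · exact Subgroup.map_mono (Rs_mono Set.subset_union_right) hz
  inv_mem' := by
    rintro y ⟨S, hS, hy⟩
    exact ⟨S, hS, inv_mem hy⟩

theorem mem_MM (hF : FPr ι ρ s) (hι : ∀ p, h (ι p) = 1) {y : G} (hy : ρ y = 1) : y ∈ MM ι h := by
  have h1 : ρ.ker ≤ MM ι h := by
    apply hF.gen
    intro x p
    refine ⟨{h (s x)}, Set.finite_singleton _, ?_⟩
    refine ⟨⟨s x * ι p * (s x)⁻¹, ker_le hF hι (sker x p hF)⟩, ?_, rfl⟩
    exact Subgroup.subset_normalClosure ⟨s x, p, rfl, rfl⟩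
  exact h1 hy

/-- the contradiction -/
theorem eq_one_of_conj (hF : FPr ι ρ s) (hι : ∀ p, h (ι p) = 1) {S : Set D} (g : G) (p : P)
    (hg : h g ∉ S) (hm : g * ι p * g⁻¹ ∈ (Rs ι h S).map h.ker.subtype) : p = 1 := by
  have hn : g * (s (ρ g))⁻¹ ∈ ρ.ker := by
    rw [MonoidHom.mem_ker, map_mul, map_inv, hF.sec, mul_inv_cancel]
  obtain ⟨y, hy, hyx⟩ := hm
  have hx : h (s (ρ g)) ∉ S := by
    rw [← h_eq hF hι]
    exact hg
  apply av_inj hF hι (S := S) (ρ g) hx
  rw [map_one, av_eq, QuotientGroup.mk'_apply, QuotientGroup.eq_one_iff]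
  have h1 : (⟨s (ρ g) * ι p * (s (ρ g))⁻¹, ker_le hF hι (sker (ρ g) p hF)⟩ : h.ker) =
      (⟨_, ker_le hF hι hn⟩ : h.ker)⁻¹ * y * (⟨_, ker_le hF hι hn⟩ : h.ker) := by
    apply Subtype.ext
    show s (ρ g) * ι p * (s (ρ g))⁻¹ = (g * (s (ρ g))⁻¹)⁻¹ * y.1 * (g * (s (ρ g))⁻¹)
    have h2 : y.1 = g * ι p * g⁻¹ := hyx
    rw [h2]
    group
  rw [h1]
  have h3 := (inferInstance : (Rs ι h S).Normal).conj_mem y hy (⟨_, ker_le hF hι hn⟩ : h.ker)⁻¹
  rwa [inv_inv] at h3

end aux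

theorem gen_comm {V : Type} {ad : V → V → Prop} {a b : V} (hab : ad a b) :
    Commute (gen ad a) (gen ad b) := by
  have h1 : (QuotientGroup.mk' (Subgroup.normalClosure (rels ad)))
      (FreeGroup.of a * FreeGroup.of b * (FreeGroup.of a)⁻¹ * (FreeGroup.of b)⁻¹) = 1 := by
    rw [QuotientGroup.mk'_apply, QuotientGroup.eq_one_iff]
    exact Subgroup.subset_normalClosure ⟨a, b, hab, rfl⟩
  have h2 : gen ad a * gen ad b * (gen ad a)⁻¹ * (gen ad b)⁻¹ = 1 := h1
  rw [mul_inv_eq_one, mul_inv_eq_iff_eq_mul] at h2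
  exact h2

theorem conj_pow' {G : Type} [Group G] (a b : G) (n : ℕ) :
    (a * b * a⁻¹) ^ n = a * b ^ n * a⁻¹ := by
  rw [conj_pow]

/-- **NF** -/
theorem nf : PropNF := by
  classical
  intro V _ ad γ l p hG π hπa hπb S hS hSπ hle
  let Λ : SimpleGraph V := { Adj := ad, symm := ⟨fun a b h => hG.symm a b h⟩, loopless := ⟨fun a => hG.irr a⟩ }
  have hγ1 : ∀ u, γ u u = 1 := by
    intro u
    have h1 := hG.coc u u u (Or.inl rfl) (Or.inl rfl) (Or.inl rfl)
    exact mul_eq_left.1 h1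
  have hflat : Flat Λ γ := by
    refine ⟨fun u v h => ?_, fun u v w h1 h2 h3 => hG.coc u v w (Or.inr h1) (Or.inr h2) (Or.inr h3)⟩
    have h1 := hG.coc u v u (Or.inr h) (Or.inr (hG.symm _ _ h)) (Or.inl rfl)
    rw [hγ1] at h1
    exact (inv_eq_of_mul_eq_one_right h1).symm
  obtain ⟨G, Q0, _, _, ι, t, τ, ρ, s, hD⟩ := ex_fin V (Equiv.Perm (Fin 5)) Λ γ hflat
  obtain ⟨h, hh1, hh2⟩ := hD.vr.univ (Multiplicative ℤ) 1 (fun _ => Multiplicative.ofAdd 1)
    (fun i j _ => Commute.all _ _)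
  have hι : ∀ q, h (ι q) = 1 := fun q => hh1 q
  -- the map from the free group
  let u : EE ad → G := fun e => match e with
    | Sum.inl e => t e.1.1 * (ι (γ e.1.1 e.1.2) * t e.1.2 * (ι (γ e.1.1 e.1.2))⁻¹)⁻¹
    | Sum.inr e => ι (γ e.1.1 e.1.2)
  have hu : ∀ r ∈ rels (fun _ _ : EE ad => False), FreeGroup.lift u r = 1 := by
    rintro r ⟨a, b, h, -⟩
    exact h.elim
  let θ : Fr (EE ad) →* G := PresentedGroup.toGroup hu
  have hθ : ∀ e, θ (gen _ e) = u e := fun e => PresentedGroup.toGroup.of hu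
  have hθl : ∀ e, θ (gen _ (Sum.inl e)) = t e.1.1 *
      (ι (γ e.1.1 e.1.2) * t e.1.2 * (ι (γ e.1.1 e.1.2))⁻¹)⁻¹ := fun e => hθ _
  have hθr : ∀ e, θ (gen _ (Sum.inr e)) = ι (γ e.1.1 e.1.2) := fun e => hθ _
  -- the map to `Q0`
  have hτ : ∀ r ∈ rels ad, FreeGroup.lift τ r = 1 := by
    rintro r ⟨a, b, hab, rfl⟩
    have h1 : Commute (τ a) (1 * τ b * 1⁻¹) := hD.ra.rel a b hab
    rw [one_mul, inv_one, mul_one] at h1
    simp only [map_mul, map_inv, FreeGroup.lift_apply_of]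
    rw [h1.eq]
    group
  let φ : RAAG ad →* Q0 := PresentedGroup.toGroup hτ
  have hφ : ∀ v, φ (gen ad v) = τ v := fun e => PresentedGroup.toGroup.of hτ
  have hρθ : ∀ x, ρ (θ x) = φ (π x) := by
    intro x
    have h1 : ρ.comp θ = φ.comp π := by
      apply PresentedGroup.ext
      intro e
      show ρ (θ (gen _ e)) = φ (π (gen _ e))
      cases e with
      | inl e =>
        rw [hθl, hπa]
        simp only [map_mul, map_inv, hD.im, hφ, hD.fpr.ker, one_mul, inv_one, mul_one]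
      | inr e =>
        rw [hθr, hπb, hD.fpr.ker, map_one]
    exact DFunLike.congr_fun h1 x
  have hhθ : ∀ x, h (θ x) = 1 := by
    intro x
    have h1 : h.comp θ = 1 := by
      apply PresentedGroup.ext
      intro e
      show h (θ (gen _ e)) = 1
      cases e with
      | inl e =>
        rw [hθl]
        simp only [map_mul, map_inv, hh2, hι, one_mul, inv_one, mul_one, mul_inv_cancel]
      | inr e =>
        rw [hθr, hι]
    exact DFunLike.congr_fun h1 x
  let θ' : Fr (EE ad) →* h.ker := θ.codRestrict h.ker hhθ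
  -- one finite set of heights
  have hfin : ∃ D : Set (Multiplicative ℤ), D.Finite ∧ ∀ r ∈ S, θ' r ∈ Rs ι h D := by
    have h1 : ∀ r : S, ∃ D : Set (Multiplicative ℤ), D.Finite ∧ θ' r ∈ Rs ι h D := by
      rintro ⟨r, hr⟩
      have h2 : θ r ∈ MM ι h := mem_MM hD.fpr hι (by rw [hρθ, hSπ r hr, map_one])
      obtain ⟨D, hDf, y, hy, hyx⟩ := h2
      refine ⟨D, hDf, ?_⟩
      have h3 : y = θ' r := Subtype.ext hyx
      rwa [← h3]
    choose D hDf hDm using h1
    have : Finite S := hS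
    refine ⟨⋃ r, D r, Set.finite_iUnion hDf, fun r hr => ?_⟩
    exact Rs_mono (Set.subset_iUnion D ⟨r, hr⟩) (hDm ⟨r, hr⟩)
  obtain ⟨D, hDf, hDS⟩ := hfin
  have hN : ∀ x, π x = 1 → θ' x ∈ Rs ι h D := by
    intro x hx
    have h1 : Subgroup.normalClosure S ≤ (Rs ι h D).comap θ' :=
      Subgroup.normalClosure_le_normal hDS
    exact h1 (hle hx)
  -- the words
  let q : ℕ → Equiv.Perm (Fin 5) := fun k =>
    ((List.range k).map (fun i => γ (p i) (p (i + 1)))).prod
  have hq0 : q 0 = 1 := rfl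
  have hqs : ∀ k, q (k + 1) = q k * γ (p k) (p (k + 1)) := by
    intro k
    show ((List.range (k + 1)).map _).prod = _
    rw [List.range_succ, List.map_append, List.prod_append, List.map_singleton, List.prod_singleton]
  let b : ℕ → Fr (EE ad) := fun i => if hi : i < l then
    gen _ (Sum.inr ⟨(p i, p (i + 1)), hG.path i hi⟩) else 1
  let a : ℕ → Fr (EE ad) := fun i => if hi : i < l then
    gen _ (Sum.inl ⟨(p i, p (i + 1)), hG.path i hi⟩) else 1
  let B : ℕ → Fr (EE ad) := fun k => Nat.rec 1 (fun i x => x * b i) k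
  have hBs : ∀ k, B (k + 1) = B k * b k := fun _ => rfl
  have hθB : ∀ k, k ≤ l → θ (B k) = ι (q k) := by
    intro k
    induction k with
    | zero =>
      intro _
      show θ 1 = ι 1
      rw [map_one, map_one]
    | succ k ih =>
      intro hk
      have h1 : b k = gen _ (Sum.inr ⟨(p k, p (k + 1)), hG.path k hk⟩) := dif_pos hk
      rw [hBs, map_mul, ih (by omega), h1, hθr, hqs, map_mul]
  have hπB : ∀ k, k ≤ l → π (B k) = 1 := by
    intro k
    induction k with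
    | zero =>
      intro _
      show π 1 = 1
      rw [map_one]
    | succ k ih =>
      intro hk
      have h1 : b k = gen _ (Sum.inr ⟨(p k, p (k + 1)), hG.path k hk⟩) := dif_pos hk
      rw [hBs, map_mul, ih (by omega), h1, hπb, mul_one]
  let T : ℕ → G := fun k => ι (q k) * t (p k) * (ι (q k))⁻¹
  have hT0 : T 0 = t (p 0) := by
    show ι 1 * t (p 0) * (ι 1)⁻¹ = t (p 0)
    rw [map_one, one_mul, inv_one, mul_one]
  have hTc : ∀ k, k < l → Commute (T k) (T (k + 1)) := by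
    intro k hk
    have h1 := (Commute.conj_iff (ι (q k))).2 (hD.vr.rel (p k) (p (k + 1)) (hG.path k hk))
    have h2 : ι (q k) * (ι (γ (p k) (p (k + 1))) * t (p (k + 1)) *
        (ι (γ (p k) (p (k + 1))))⁻¹) * (ι (q k))⁻¹ = T (k + 1) := by
      show _ = ι (q (k + 1)) * t (p (k + 1)) * (ι (q (k + 1)))⁻¹
      rw [hqs, map_mul]
      group
    rw [h2] at h1
    exact h1
  have hθa : ∀ k, k < l → θ (B k * a k * (B k)⁻¹) = T k * (T (k + 1))⁻¹ := by
    intro k hk
    have h1 : a k = gen _ (Sum.inl ⟨(p k, p (k + 1)), hG.path k hk⟩) := dif_pos hk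
    rw [map_mul, map_mul, map_inv, hθB k hk.le, h1, hθl]
    show _ = ι (q k) * t (p k) * (ι (q k))⁻¹ *
      (ι (q (k + 1)) * t (p (k + 1)) * (ι (q (k + 1)))⁻¹)⁻¹
    rw [hqs, map_mul]
    group
  have hπa' : ∀ k, k < l → π (B k * a k * (B k)⁻¹) = gen ad (p k) * (gen ad (p (k + 1)))⁻¹ := by
    intro k hk
    have h1 : a k = gen _ (Sum.inl ⟨(p k, p (k + 1)), hG.path k hk⟩) := dif_pos hk
    rw [map_mul, map_mul, map_inv, hπB k hk.le, h1, hπa]
    group
  let W : ℕ → ℕ → Fr (EE ad) := fun n k =>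
    Nat.rec 1 (fun i x => x * (B i * a i * (B i)⁻¹) ^ n) k
  have hWs : ∀ n k, W n (k + 1) = W n k * (B k * a k * (B k)⁻¹) ^ n := fun _ _ => rfl
  have hθW : ∀ n k, k ≤ l → θ (W n k) = T 0 ^ n * (T k ^ n)⁻¹ := by
    intro n k
    induction k with
    | zero =>
      intro _
      show θ 1 = _
      rw [map_one, mul_inv_cancel]
    | succ k ih =>
      intro hk
      rw [hWs, map_mul, ih (by omega), map_pow, hθa k hk,
        (hTc k hk).inv_right.mul_pow, inv_pow]
      group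
  have hπW : ∀ n k, k ≤ l → π (W n k) = gen ad (p 0) ^ n * (gen ad (p k) ^ n)⁻¹ := by
    intro n k
    induction k with
    | zero =>
      intro _
      show π 1 = _
      rw [map_one, mul_inv_cancel]
    | succ k ih =>
      intro hk
      rw [hWs, map_mul, ih (by omega), map_pow, hπa' k hk,
        (gen_comm (hG.path k hk)).inv_right.mul_pow, inv_pow]
      group
  -- the end
  have hPne : q l ≠ 1 := hG.hol
  have hTl : T l = ι (q l) * t (p 0) * (ι (q l))⁻¹ := by
    show ι (q l) * t (p l) * (ι (q l))⁻¹ = _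
    rw [hG.closed]
  have hD1f : (D ∪ {1}).Finite := hDf.union (Set.finite_singleton _)
  obtain ⟨n, hn⟩ : ∃ n : ℕ, (Multiplicative.ofAdd (n : ℤ)) ∉ D ∪ {1} := by
    by_contra hcon
    push Not at hcon
    have h1 : Function.Injective fun n : ℕ => Multiplicative.ofAdd (n : ℤ) := by
      intro x y hxy
      exact_mod_cast Multiplicative.ofAdd.injective hxy
    exact Set.infinite_of_injective_forall_mem h1 hcon hD1f
  apply hPne
  refine eq_one_of_conj hD.fpr hι (S := D ∪ {1}) (t (p 0) ^ n) (q l) ?_ ?_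
  · rw [map_pow, hh2, ← ofAdd_nsmul, nsmul_eq_mul, mul_one]
    exact hn
  · have h1 : θ' (W n l) ∈ Rs ι h (D ∪ {1}) := by
      refine Rs_mono Set.subset_union_left (hN _ ?_)
      rw [hπW n l le_rfl, hG.closed, mul_inv_cancel]
    have h2 : (⟨ι (q l), hι (q l)⟩ : h.ker) ∈ Rs ι h (D ∪ {1}) := by
      refine Subgroup.subset_normalClosure ⟨1, q l, Or.inr (map_one h), ?_⟩
      show ι (q l) = 1 * ι (q l) * 1⁻¹
      rw [one_mul, inv_one, mul_one]
    refine ⟨_, mul_mem h1 h2, ?_⟩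
    show θ (W n l) * ι (q l) = _
    rw [hθW n l le_rfl, hT0, hTl, conj_pow']
    group

end Pool.Agent.Q18.HC
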