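import Pool.Agent.Y448.HC.Aug
import Pool.Agent.W571.DU.BC
import Pool.Agent.W490.DU.Grp

/-!
# Group rings, left ideals and relation modules
-/

set_option autoImplicit false

namespace Pool.Agent.Q18.HC

open Pool.Agent.W326.DU Pool.Agent.Y66.HC Pool.Agent.W571.DU

section
variable {H G : Type} [Group H] [Group G]

/-- the map of group rings -/
noncomputable abbrev mp (ι : H →* G) : ZG H →+* ZG G := MonoidAlgebra.mapDomainRingHom ℤ ι

theorem mp_of (ι : H →* G) (h : H) :
    mp ι (MonoidAlgebra.of ℤ H h) = MonoidAlgebra.of ℤ G (ι h) := by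
  simp [mp, MonoidAlgebra.of_apply]

theorem mul_sub_mem {S : Set G} {s : G} (hs : s ∈ S) (a : ZG G) :
    a * (MonoidAlgebra.of ℤ G s - 1) ∈ IL ℤ S :=
  Submodule.smul_mem _ a (Submodule.subset_span ⟨s, hs, rfl⟩)

/-- if `g - 1` is in the left ideal generated by the `s - 1`, then `g` is in the subgroup generated
by `S` -/
theorem mem_closure_of_IL {S : Set G} {g : G} (h : MonoidAlgebra.of ℤ G g - 1 ∈ IL ℤ S) :
    g ∈ Subgroup.closure S := by
  classical
  obtain ⟨K, hK⟩ : ∃ K, K = Subgroup.closure S := ⟨_, rfl⟩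
  let lam : ZG G →+ (G ⧸ K →₀ ℤ) :=
    (Finsupp.mapDomain.addMonoidHom (QuotientGroup.mk : G → G ⧸ K)).comp
      MonoidAlgebra.coeffAddEquiv.toAddMonoidHom
  have hlam : ∀ (g : G) (n : ℤ), lam (MonoidAlgebra.single g n) =
      Finsupp.single (QuotientGroup.mk g : G ⧸ K) n := by
    intro g n
    show Finsupp.mapDomain _ (MonoidAlgebra.coeff (MonoidAlgebra.single g n)) = _
    rw [MonoidAlgebra.coeff_single, Finsupp.mapDomain_single]
  have h1 : ∀ s ∈ S, ∀ a : ZG G, lam (a * (MonoidAlgebra.of ℤ G s - 1)) = 0 := by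
    intro s hs a
    have h2 : lam.comp (AddMonoidHom.mulRight (MonoidAlgebra.of ℤ G s - 1)) = 0 := by
      apply MonoidAlgebra.addMonoidHom_ext
      intro g n
      show lam (MonoidAlgebra.single g n * (MonoidAlgebra.of ℤ G s - 1)) = 0
      rw [mul_sub, mul_one, MonoidAlgebra.of_apply, MonoidAlgebra.single_mul_single, mul_one,
        map_sub, hlam, hlam, sub_eq_zero]
      congr 1
      rw [QuotientGroup.eq, mul_inv_rev, inv_mul_cancel_right]
      rw [hK]
      exact inv_mem (Subgroup.subset_closure hs)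
    exact DFunLike.congr_fun h2 a
  have h2 : ∀ y ∈ IL ℤ S, ∀ a : ZG G, lam (a * y) = 0 := by
    intro y hy
    refine Submodule.span_induction (p := fun y _ => ∀ a : ZG G, lam (a * y) = 0)
      ?_ (fun a => by rw [mul_zero, map_zero]) ?_ ?_ hy
    · rintro _ ⟨s, hs, rfl⟩ a
      exact h1 s hs a
    · intro y z _ _ hy hz a
      rw [mul_add, map_add, hy, hz, add_zero]
    · intro b y _ hy a
      rw [smul_eq_mul, ← mul_assoc]
      exact hy _
  have h3 := h2 _ h 1
  rw [one_mul, map_sub, MonoidAlgebra.of_apply, MonoidAlgebra.one_def, hlam, hlam, sub_eq_zero] at h3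
  have h4 := Finsupp.single_left_injective (one_ne_zero) h3
  rw [eq_comm, QuotientGroup.eq, inv_one, one_mul, hK] at h4
  exact h4

theorem IL_mono {S T : Set G} (h : S ⊆ T) : IL ℤ S ≤ IL ℤ T :=
  Submodule.span_mono (Set.image_mono h)

/-- the kernel of the map of group rings -/
theorem ker_mp (φ : H →* G) (x : ZG H) (hx : mp φ x = 0) : x ∈ IL ℤ (φ.ker : Set H) := by
  classical
  let σ : G → H := Function.invFun φ
  have hσ : ∀ h, φ (σ (φ h)) = φ h := fun h => Function.invFun_eq ⟨h, rfl⟩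
  let τ : ZG G →+ ZG H := MonoidAlgebra.coeffAddEquiv.symm.toAddMonoidHom.comp
    ((Finsupp.mapDomain.addMonoidHom σ).comp MonoidAlgebra.coeffAddEquiv.toAddMonoidHom)
  have hτ : ∀ (g : G), τ (MonoidAlgebra.of ℤ G g) = MonoidAlgebra.of ℤ H (σ g) := by
    intro g
    rw [MonoidAlgebra.of_apply, MonoidAlgebra.of_apply]
    show MonoidAlgebra.coeffAddEquiv.symm (Finsupp.mapDomain σ
      (MonoidAlgebra.coeff (MonoidAlgebra.single g 1))) = _
    rw [MonoidAlgebra.coeff_single, Finsupp.mapDomain_single]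
    rfl
  have key : ∀ y : ZG H, y - τ (mp φ y) ∈ IL ℤ (φ.ker : Set H) := by
    intro y
    induction y using MonoidAlgebra.induction_on with
    | of h =>
      rw [mp_of, hτ]
      have h1 : MonoidAlgebra.of ℤ H h - MonoidAlgebra.of ℤ H (σ (φ h)) =
          MonoidAlgebra.of ℤ H (σ (φ h)) *
            (MonoidAlgebra.of ℤ H ((σ (φ h))⁻¹ * h) - 1) := by
        rw [mul_sub, mul_one, ← map_mul, mul_inv_cancel_left]
      rw [h1]
      apply mul_sub_mem
      show φ _ = 1
      rw [map_mul, map_inv, hσ, inv_mul_cancel]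
    | add a b ha hb =>
      rw [map_add, map_add]
      have : a + b - (τ (mp φ a) + τ (mp φ b)) = (a - τ (mp φ a)) + (b - τ (mp φ b)) := by abel
      rw [this]
      exact add_mem ha hb
    | smul r a ha =>
      have h1 : mp φ (r • a) = r • mp φ a := map_zsmul _ _ _
      have h2 : τ (r • mp φ a) = r • τ (mp φ a) := map_zsmul _ _ _
      rw [h1, h2, ← smul_sub]
      exact zsmul_mem ha r
  have h1 := key x
  rwa [hx, map_zero, sub_zero] at h1

/-- the coordinatewise map -/
noncomputable def mpf {I : Type} (ι : H →* G) (c : I → ZG H) : I → ZG G := fun i => mp ι (c i)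

theorem mpf_add {I : Type} (ι : H →* G) (c d : I → ZG H) :
    mpf ι (c + d) = mpf ι c + mpf ι d := by
  funext i
  exact map_add _ _ _

theorem mpf_smul {I : Type} (ι : H →* G) (a : ZG H) (c : I → ZG H) :
    mpf ι (a • c) = mp ι a • mpf ι c := by
  funext i
  exact map_mul _ _ _

theorem mpf_zero {I : Type} (ι : H →* G) : mpf ι (0 : I → ZG H) = 0 := by
  funext i
  exact map_zero _

theorem fox_mpf {I : Type} [Fintype I] (ι : H →* G) (x : I → H) (c : I → ZG H) :
    fox (fun i => ι (x i)) (mpf ι c) = mp ι (fox x c) := by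
  show ∑ i, mp ι (c i) * (MonoidAlgebra.of ℤ G (ι (x i)) - 1) =
    mp ι (∑ i, c i * (MonoidAlgebra.of ℤ H (x i) - 1))
  rw [map_sum]
  refine Finset.sum_congr rfl fun i _ => ?_
  rw [map_mul, map_sub, map_one, mp_of]

theorem fox_apply {I : Type} [Fintype I] (x : I → G) (c : I → ZG G) :
    fox x c = ∑ i, c i * (MonoidAlgebra.of ℤ G (x i) - 1) := rfl

theorem mem_RM {I : Type} [Fintype I] (x : I → G) (c : I → ZG G) : c ∈ RM x ↔ fox x c = 0 :=
  LinearMap.mem_ker

/-- induced relation modules -/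
theorem RM_le {I : Type} [Fintype I] (ι : H →* G) (hι : Function.Injective ι) (x : I → H) :
    RM (fun i => ι (x i)) ≤ Submodule.span (ZG G) (mpf ι '' (RM x : Set (I → ZG H))) := by
  classical
  intro c hc
  rw [mem_RM, fox_apply] at hc
  have h1 : ∀ g : G, (fun i => BC.pi ℤ ι hι g (c i)) ∈ RM x := by
    intro g
    rw [mem_RM, fox_apply]
    have h2 := congrArg (BC.pi ℤ ι hι g) hc
    rw [map_zero, map_sum] at h2
    rw [← h2]
    exact Finset.sum_congr rfl fun i _ => (BC.pi_mul_sub ℤ ι hι g (c i) (x i)).symm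
  obtain ⟨T, hT⟩ : ∃ T : Finset (G ⧸ ι.range), ∀ i, ∀ a ∈ (c i).coeff.support,
      (QuotientGroup.mk a : G ⧸ ι.range) ∈ T :=
    ⟨Finset.univ.biUnion fun i => (c i).coeff.support.image
      (fun a : G => (QuotientGroup.mk a : G ⧸ ι.range)), fun i a ha =>
      Finset.mem_biUnion.2 ⟨i, Finset.mem_univ _, Finset.mem_image.2 ⟨a, ha, rfl⟩⟩⟩
  have h3 : c = ∑ q ∈ T, MonoidAlgebra.of ℤ G q.out •
      mpf ι (fun i => BC.pi ℤ ι hι q.out (c i)) := by
    funext i
    rw [Finset.sum_apply]
    have h4 := BC.decomp ℤ ι hι (c i)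
    refine h4.trans ?_
    have h5 : ∀ q : G ⧸ ι.range, MonoidAlgebra.of ℤ G q.out *
        MonoidAlgebra.mapDomainRingHom ℤ ι (BC.pi ℤ ι hι q.out (c i)) ≠ 0 →
        q ∈ (c i).coeff.support.image (fun a : G => (QuotientGroup.mk a : G ⧸ ι.range)) := by
      intro q hq
      by_contra hn
      apply hq
      apply MonoidAlgebra.ext
      ext a
      rw [BC.coeff_term]
      rw [MonoidAlgebra.coeff_zero, Finsupp.coe_zero, Pi.zero_apply]
      split_ifs with h
      · by_contra ha
        apply hn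
        refine Finset.mem_image.2 ⟨a, Finsupp.mem_support_iff.2 ha, ?_⟩
        have h6 : q = (QuotientGroup.mk a : G ⧸ ι.range) := by
          rw [← QuotientGroup.eq, QuotientGroup.out_eq'] at h
          exact h
        exact h6.symm
      · rfl
    refine Finset.sum_subset ?_ ?_
    · intro q hq
      obtain ⟨a, ha, rfl⟩ := Finset.mem_image.1 hq
      exact hT i a ha
    · intro q _ hq
      by_contra hne
      exact hq (h5 q hne)
  rw [h3]
  exact Submodule.sum_mem _ fun q _ => Submodule.smul_mem _ _ (Submodule.subset_span ⟨_, h1 _, rfl⟩)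

theorem span_mpf_fg {I : Type} (ι : H →* G) {N : Submodule (ZG H) (I → ZG H)} (hN : N.FG) :
    (Submodule.span (ZG G) (mpf ι '' (N : Set (I → ZG H)))).FG := by
  classical
  obtain ⟨S, rfl⟩ := hN
  refine ⟨S.image (mpf ι), le_antisymm ?_ ?_⟩
  · apply Submodule.span_mono
    rw [Finset.coe_image]
    exact Set.image_mono Submodule.subset_span
  · rw [Submodule.span_le, Finset.coe_image]
    rintro _ ⟨c, hc, rfl⟩
    show mpf ι c ∈ Submodule.span (ZG G) (mpf ι '' (S : Set (I → ZG H)))
    refine Submodule.span_induction (p := fun c _ => mpf ι c ∈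
      Submodule.span (ZG G) (mpf ι '' (S : Set (I → ZG H)))) ?_ ?_ ?_ ?_ hc
    · intro c hc
      exact Submodule.subset_span ⟨c, hc, rfl⟩
    · rw [mpf_zero]
      exact zero_mem _
    · intro c d _ _ h1 h2
      rw [mpf_add]
      exact add_mem h1 h2
    · intro a c _ h1
      rw [mpf_smul]
      exact Submodule.smul_mem _ _ h1

end

end Pool.Agent.Q18.HC
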