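import Pool.Agent.Q18.HC.Stm
import Pool.Agent.Q18.HC.Alg
import Pool.Agent.W326.DU.Sub
import Pool.Agent.W304.DU.EX
import Pool.Agent.W304.DU.RG

/-!
# The graded group ring of a right-angled Artin group
-/

set_option autoImplicit false

namespace Pool.Agent.Q18.HC.BB

open Pool.Agent.W326.DU Pool.Agent.Y66.HC Pool.Agent.W571.DU

section
variable {V : Type} (ad : V → V → Prop)

/-- the height -/
def hgt : RAAG ad →* Multiplicative ℤ :=
  PresentedGroup.toGroup (f := fun _ => Multiplicative.ofAdd (1 : ℤ)) (by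
    rintro _ ⟨a, b, _, rfl⟩
    rw [map_mul, map_mul, map_mul, map_inv, map_inv, FreeGroup.lift_apply_of,
      FreeGroup.lift_apply_of]
    group)

theorem hgt_gen (v : V) : hgt ad (gen ad v) = Multiplicative.ofAdd 1 := PresentedGroup.toGroup.of _

/-- the height as an integer -/
def dg (g : RAAG ad) : ℤ := Multiplicative.toAdd (hgt ad g)

theorem dg_mul (g h : RAAG ad) : dg ad (g * h) = dg ad g + dg ad h := by
  unfold dg
  rw [map_mul]
  rfl

theorem dg_gen (v : V) : dg ad (gen ad v) = 1 := by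
  unfold dg
  rw [hgt_gen]
  rfl

theorem dg_inv (g : RAAG ad) : dg ad g⁻¹ = -dg ad g := by
  unfold dg
  rw [map_inv]
  rfl

theorem dg_one : dg ad (1 : RAAG ad) = 0 := by
  unfold dg
  rw [map_one]
  rfl

/-- the projection to the elements of height `n` -/
noncomputable def prj (n : ℤ) : ZG (RAAG ad) →+ ZG (RAAG ad) :=
  MonoidAlgebra.coeffAddEquiv.symm.toAddMonoidHom.comp
    ((Finsupp.filterAddHom (fun g => dg ad g = n)).comp
      MonoidAlgebra.coeffAddEquiv.toAddMonoidHom)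

theorem prj_coeff (n : ℤ) (x : ZG (RAAG ad)) (g : RAAG ad) :
    (prj ad n x).coeff g = if dg ad g = n then x.coeff g else 0 := by
  show (Finsupp.filter (fun g => dg ad g = n) x.coeff) g = _
  rw [Finsupp.filter_apply]

/-- right multiplication by a generator -/
noncomputable def Ur (v : V) : ZG (RAAG ad) →+ ZG (RAAG ad) :=
  rm ℤ (MonoidAlgebra.of ℤ (RAAG ad) (gen ad v))

/-- right multiplication by the inverse of a generator -/
noncomputable def Ur' (v : V) : ZG (RAAG ad) →+ ZG (RAAG ad) :=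
  rm ℤ (MonoidAlgebra.of ℤ (RAAG ad) (gen ad v)⁻¹)

theorem Ur_apply (v : V) (x : ZG (RAAG ad)) : Ur ad v x = x * MonoidAlgebra.of ℤ _ (gen ad v) := rfl

theorem Ur'_apply (v : V) (x : ZG (RAAG ad)) :
    Ur' ad v x = x * MonoidAlgebra.of ℤ _ (gen ad v)⁻¹ := rfl

theorem coeff_mul_of {G : Type} [Group G] (x : ZG G) (g h : G) :
    (x * MonoidAlgebra.of ℤ G g).coeff h = x.coeff (h * g⁻¹) := by
  rw [MonoidAlgebra.of_apply, MonoidAlgebra.coeff_mul_single_apply, mul_one]

theorem coeff_of_mul {G : Type} [Group G] (x : ZG G) (g h : G) :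
    (MonoidAlgebra.of ℤ G g * x).coeff h = x.coeff (g⁻¹ * h) := by
  rw [MonoidAlgebra.of_apply, MonoidAlgebra.coeff_single_mul_apply, one_mul]

theorem grad : Grad ad (Ur ad) (Ur' ad) (prj ad) where
  inv1 v x := by
    rw [Ur_apply, Ur'_apply, mul_assoc, ← map_mul, inv_mul_cancel, map_one, mul_one]
  inv2 v x := by
    rw [Ur_apply, Ur'_apply, mul_assoc, ← map_mul, mul_inv_cancel, map_one, mul_one]
  comm a b h x := by
    rw [Ur_apply, Ur_apply, Ur_apply, Ur_apply, mul_assoc, mul_assoc, ← map_mul, ← map_mul,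
      Pool.Agent.W304.DU.RG.gen_comm ad a b h]
  deg v n x := by
    apply MonoidAlgebra.ext
    ext g
    rw [prj_coeff, Ur_apply, Ur_apply, coeff_mul_of, coeff_mul_of, prj_coeff, dg_mul, dg_inv, dg_gen]
    by_cases h : dg ad g = n + 1
    · rw [if_pos h, if_pos (by omega)]
    · rw [if_neg h, if_neg (by omega)]
  idem n x := by
    apply MonoidAlgebra.ext
    ext g
    rw [prj_coeff, prj_coeff]
    split_ifs <;> rfl
  orth m n x h := by
    apply MonoidAlgebra.ext
    ext g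
    rw [prj_coeff, prj_coeff, MonoidAlgebra.coeff_zero, Finsupp.coe_zero, Pi.zero_apply]
    split_ifs with h1 h2
    · exact absurd (h1.symm.trans h2) h
    · rfl
    · rfl
  fin x := by
    classical
    refine ⟨x.coeff.support.sup (fun g => (dg ad g).natAbs), fun n hn => ?_⟩
    apply MonoidAlgebra.ext
    ext g
    rw [prj_coeff, MonoidAlgebra.coeff_zero, Finsupp.coe_zero, Pi.zero_apply]
    split_ifs with h1
    · by_contra h2
      have h3 : (dg ad g).natAbs ≤ x.coeff.support.sup (fun g => (dg ad g).natAbs) :=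
        Finset.le_sup (f := fun g => (dg ad g).natAbs) (Finsupp.mem_support_iff.2 h2)
      omega
    · rfl
  ext x h := by
    apply MonoidAlgebra.ext
    ext g
    have h1 := congrArg (fun y : ZG (RAAG ad) => y.coeff g) (h (dg ad g))
    have h2 : (prj ad (dg ad g) x).coeff g = (0 : ZG (RAAG ad)).coeff g := h1
    rw [prj_coeff, if_pos rfl] at h2
    exact h2

/-- right multiplications by the `gen v - 1` -/
noncomputable def Rr (v : V) : ZG (RAAG ad) →+ ZG (RAAG ad) :=
  rm ℤ (MonoidAlgebra.of ℤ (RAAG ad) (gen ad v) - 1)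

theorem Rr_apply (v : V) (x : ZG (RAAG ad)) : Rr ad v x = Ur ad v x - x := by
  show x * (MonoidAlgebra.of ℤ (RAAG ad) (gen ad v) - 1) = _
  rw [mul_sub, mul_one]
  rfl

theorem mem_Im (S : Set V) (x : ZG (RAAG ad)) : x ∈ Im (Rr ad) S ↔ x ∈ IL ℤ (gen ad '' S) := by
  constructor
  · intro h
    have hle : Im (Rr ad) S ≤ (IL ℤ (gen ad '' S)).toAddSubgroup := by
      refine iSup_le fun v => iSup_le fun hv => ?_
      rintro _ ⟨z, rfl⟩
      have hm : gen ad v ∈ gen ad '' S := ⟨v, hv, rfl⟩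
      exact mul_sub_mem hm z
    exact hle h
  · intro h
    refine Submodule.span_induction (p := fun x _ => x ∈ Im (Rr ad) S) ?_ ?_ ?_ ?_ h
    · rintro _ ⟨_, ⟨v, hv, rfl⟩, rfl⟩
      refine (le_iSup_of_le v (le_iSup_of_le hv le_rfl) :
        (Rr ad v).range ≤ Im (Rr ad) S) ⟨1, ?_⟩
      show 1 * (MonoidAlgebra.of ℤ _ (gen ad v) - 1) = _
      rw [one_mul]
    · exact zero_mem _
    · intro x y _ _ hx hy
      exact add_mem hx hy
    · intro a x _ hx
      have hle : (Im (Rr ad) S).map (AddMonoidHom.mulLeft a) ≤ Im (Rr ad) S := by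
        unfold Im
        rw [AddSubgroup.map_iSup]
        refine iSup_le fun v => ?_
        rw [AddSubgroup.map_iSup]
        refine iSup_le fun hv => ?_
        refine le_trans ?_ (le_iSup_of_le v (le_iSup_of_le hv le_rfl))
        rintro _ ⟨_, ⟨z, rfl⟩, rfl⟩
        refine ⟨a * z, ?_⟩
        show (a * z) * (MonoidAlgebra.of ℤ _ (gen ad v) - 1)
          = a * (z * (MonoidAlgebra.of ℤ _ (gen ad v) - 1))
        rw [mul_assoc]
      exact hle ⟨x, hx, rfl⟩

theorem reg (hsym : ∀ a b, ad a b → ad b a) (hirr : ∀ a, ¬ ad a a) : Reg ad (Rr ad) := by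
  constructor
  · intro a b hab x
    show x * (MonoidAlgebra.of ℤ _ (gen ad b) - 1) * (MonoidAlgebra.of ℤ _ (gen ad a) - 1) =
      x * (MonoidAlgebra.of ℤ _ (gen ad a) - 1) * (MonoidAlgebra.of ℤ _ (gen ad b) - 1)
    have h1 : MonoidAlgebra.of ℤ (RAAG ad) (gen ad b) * MonoidAlgebra.of ℤ (RAAG ad) (gen ad a) =
        MonoidAlgebra.of ℤ (RAAG ad) (gen ad a) * MonoidAlgebra.of ℤ (RAAG ad) (gen ad b) := by
      rw [← map_mul, ← map_mul, Pool.Agent.W304.DU.RG.gen_comm ad a b hab]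
    rw [mul_assoc, mul_assoc, W490.DU.comm_sub_one h1]
  · intro S v hv x hx
    rw [mem_Im] at hx ⊢
    let W' : Type := {w : V // w ∈ S ∨ w = v}
    let ad' : W' → W' → Prop := fun a b => ad a.1 b.1
    obtain ⟨F, hF, hFi⟩ := sub_th V W' ad ad' (fun w => w.1) Subtype.val_injective
      (fun a b => Iff.rfl)
    let v' : W' := ⟨v, Or.inr rfl⟩
    have hst := BC.th ℤ (RAAG ad') (RAAG ad) F hFi _ _ _
      (Pool.Agent.W304.DU.RG.th ℤ W' ad' (fun a b h => hsym _ _ h) (fun a h => hirr _ h) v')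
    have e1 : F '' (gen ad' '' {w | w ≠ v'}) = gen ad '' S := by
      ext g
      constructor
      · rintro ⟨_, ⟨w, hw, rfl⟩, rfl⟩
        refine ⟨w.1, ?_, (hF w).symm⟩
        rcases w.2 with h | h
        · exact h
        · exact absurd (Subtype.ext h) hw
      · rintro ⟨w, hw, rfl⟩
        refine ⟨_, ⟨⟨w, Or.inl hw⟩, ?_, rfl⟩, hF _⟩
        intro h
        have : w = v := congrArg Subtype.val h
        exact hv (this ▸ hw)
    have e2 : F '' (gen ad' '' {w | ad' w v'}) = gen ad '' {w | w ∈ S ∧ ad w v} := by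
      ext g
      constructor
      · rintro ⟨_, ⟨w, hw, rfl⟩, rfl⟩
        have hw' : ad w.1 v := hw
        refine ⟨w.1, ⟨?_, hw'⟩, (hF w).symm⟩
        rcases w.2 with h | h
        · exact h
        · rw [h] at hw'
          exact absurd hw' (hirr v)
      · rintro ⟨w, ⟨hw, hwv⟩, rfl⟩
        exact ⟨_, ⟨⟨w, Or.inl hw⟩, hwv, rfl⟩, hF _⟩
    rw [e1, e2, hF] at hst
    exact hst x hx

end

section trunc
variable {V : Type} [Fintype V] {ad : V → V → Prop}

/-- the truncated complex of the group ring -/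
theorem trunc (htr : PropTR) (hsym : ∀ a b, ad a b → ad b a) (hirr : ∀ a, ¬ ad a a)
    (hk4 : ∀ a b c d, ad a b → ad a c → ad a d → ad b c → ad b d → ¬ ad c d) (hac : Acyc ad) :
    (∀ y : V → ZG (RAAG ad), Sup (prj ad) 0 2 (∑ v, Rr ad v (y v)) →
      ∃ y' : V → ZG (RAAG ad), (∀ v, Sup (prj ad) 0 1 (y' v)) ∧
        ∑ v, Rr ad v (y' v) = ∑ v, Rr ad v (y v)) ∧
    (∀ x : V → ZG (RAAG ad), (∀ v, Sup (prj ad) 0 1 (x v)) → ∑ v, Rr ad v (x v) = 0 →
      ∃ y, IsAlt2 ad Set.univ y ∧ (∀ a b, Sup (prj ad) 0 0 (y a b)) ∧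
        ∀ b, x b = ∑ a, Rr ad a (y a b)) ∧
    (∀ y : V → V → ZG (RAAG ad), IsAlt2 ad Set.univ y → (∀ a b, Sup (prj ad) 0 0 (y a b)) →
      (∀ b, ∑ a, Rr ad a (y a b) = 0) → ∀ a b, y a b = 0) := by
  classical
  have hEX := Pool.Agent.W304.DU.th V (ZG (RAAG ad)) ad (Rr ad) hsym hirr hk4 (reg ad hsym hirr)
    Finset.univ
  rw [Finset.coe_univ] at hEX
  obtain ⟨h1, h2, _⟩ := hEX
  have h := htr V (ZG (RAAG ad)) ad (Ur ad) (Ur' ad) (prj ad) hsym hirr hac (grad ad)
    (by
      intro x hx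
      obtain ⟨y, hy1, hy2⟩ := h1 x (fun v hv => absurd (Finset.mem_univ v) hv) (by
        simp only [Rr_apply]
        exact hx)
      refine ⟨y, hy1, fun b => ?_⟩
      rw [hy2 b]
      simp only [Rr_apply])
    (by
      intro y hy hb
      obtain ⟨z, hz1, hz2⟩ := h2 y hy (by
        simp only [Rr_apply]
        exact hb)
      refine ⟨z, hz1, fun b c => ?_⟩
      rw [hz2 b c]
      simp only [Rr_apply])
  simp only [Rr_apply]
  exact h

end trunc

end Pool.Agent.Q18.HC.BB
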