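import Pool.Agent.Y66.HC.Defs
import Pool.Agent.Y448.HC.Aug
import Pool.Agent.Helper158.Bridge

/-!
# Lemma M2: a finitely generated relation module gives type `FP_2`

The resolution is `ZG ← ZG^ι ← ZG^r ← free covers of the kernels`.
-/

set_option autoImplicit false

open CategoryTheory

namespace Pool.Agent.Q18.HC

open Pool.Agent.W326.DU Pool.Agent.Y66.HC Pool.Agent.Y448.HC Pool.Agent.Helper158

section free

variable {R : Type} [Ring R]

/-- a linear map with its source and target -/
structure Bd (R : Type) [Ring R] where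
  M : ModuleCat.{0} R
  N : ModuleCat.{0} R
  f : M →ₗ[R] N

/-- the free cover of the kernel -/
noncomputable def step (b : Bd R) : Bd R where
  M := ModuleCat.of R (LinearMap.ker b.f →₀ R)
  N := b.M
  f := (LinearMap.ker b.f).subtype ∘ₗ Finsupp.linearCombination R id

theorem step_range (b : Bd R) : LinearMap.range (step b).f = LinearMap.ker b.f := by
  change LinearMap.range ((LinearMap.ker b.f).subtype ∘ₗ Finsupp.linearCombination R id) = _
  rw [LinearMap.range_comp, Finsupp.range_linearCombination, Set.range_id, Submodule.span_univ,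
    Submodule.map_top, Submodule.range_subtype]

/-- iterated covers -/
noncomputable def iter (b : Bd R) : ℕ → Bd R
  | 0 => b
  | n + 1 => step (iter b n)

end free

section span

variable {G M : Type} [Group G] [AddCommGroup M] [Module (ZG G) M]

theorem fin_span (s : Set M) (hs : Submodule.span (ZG G) s = ⊤) (x : M) :
    x ∈ Submodule.span ℤ (Set.range (fun p : G × s => MonoidAlgebra.of ℤ G p.1 • (p.2 : M))) := by
  set T := Submodule.span ℤ (Set.range (fun p : G × s => MonoidAlgebra.of ℤ G p.1 • (p.2 : M)))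
    with hT
  have h1 : ∀ (g : G) (y : M), y ∈ T → MonoidAlgebra.of ℤ G g • y ∈ T := by
    intro g y hy
    induction hy using Submodule.span_induction with
    | mem y hy =>
      obtain ⟨⟨a, t⟩, rfl⟩ := hy
      refine Submodule.subset_span ⟨⟨g * a, t⟩, ?_⟩
      simp only [map_mul, mul_smul]
    | zero => rw [smul_zero]; exact T.zero_mem
    | add a b _ _ ha hb => rw [smul_add]; exact T.add_mem ha hb
    | smul n a _ ha =>
      rw [smul_comm]
      exact T.smul_mem n ha
  have h2 : ∀ (r : ZG G) (y : M), y ∈ T → r • y ∈ T := by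
    intro r y hy
    induction r using MonoidAlgebra.induction_on with
    | of g => exact h1 g y hy
    | add a b ha hb => rw [add_smul]; exact T.add_mem ha hb
    | smul n a ha => rw [smul_assoc]; exact T.smul_mem n ha
  have hx : x ∈ Submodule.span (ZG G) s := by rw [hs]; trivial
  induction hx using Submodule.span_induction with
  | mem y hy =>
    refine Submodule.subset_span ⟨⟨1, ⟨y, hy⟩⟩, ?_⟩
    simp only [map_one, one_smul]
  | zero => exact T.zero_mem
  | add a b _ _ ha hb => exact T.add_mem ha hb
  | smul n a _ ha => exact h2 n a ha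

theorem fin_gen [Module.Finite (ZG G) M] : ∃ s : Finset M, ∀ x : M,
    x ∈ Submodule.span ℤ
      (Set.range (fun p : G × s => rho (k := ℤ) (G := G) M p.1 (p.2 : M))) := by
  obtain ⟨s, hs⟩ := (Module.finite_def (R := ZG G) (M := M)).1 inferInstance
  exact ⟨s, fun x => fin_span (s : Set M) hs x⟩

end span

section main

variable {G ι : Type} [Group G] [Fintype ι] (x : ι → G) {r : ℕ}
  (d1 : (Fin r → ZG G) →ₗ[ZG G] (ι → ZG G))

/-- the third map as a bundle -/
noncomputable def bd1 : Bd (ZG G) where
  M := ModuleCat.of (ZG G) (Fin r → ZG G)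
  N := ModuleCat.of (ZG G) (ι → ZG G)
  f := d1

/-- the modules -/
noncomputable def PM : ℕ → ModuleCat.{0} (ZG G)
  | 0 => ModuleCat.of (ZG G) (ZG G)
  | 1 => ModuleCat.of (ZG G) (ι → ZG G)
  | n + 2 => (iter (bd1 d1) n).M

/-- the differentials -/
noncomputable def PD : ∀ n : ℕ, PM d1 (n + 1) →ₗ[ZG G] PM d1 n
  | 0 => fox x
  | 1 => d1
  | n + 2 => (iter (bd1 d1) (n + 1)).f

theorem PD_ex (h : LinearMap.range d1 = LinearMap.ker (fox x)) :
    ∀ n : ℕ, LinearMap.range (PD x d1 (n + 1)) = LinearMap.ker (PD x d1 n)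
  | 0 => h
  | 1 => step_range (bd1 d1)
  | n + 2 => step_range (iter (bd1 d1) (n + 1))

theorem PM_proj : ∀ n : ℕ, Module.Projective (ZG G) (PM d1 n)
  | 0 => inferInstanceAs (Module.Projective (ZG G) (ZG G))
  | 1 => inferInstanceAs (Module.Projective (ZG G) (ι → ZG G))
  | 2 => inferInstanceAs (Module.Projective (ZG G) (Fin r → ZG G))
  | n + 3 => inferInstanceAs
      (Module.Projective (ZG G) (LinearMap.ker (iter (bd1 d1) n).f →₀ ZG G))

theorem PM_fin : ∀ n : ℕ, n ≤ 2 → Module.Finite (ZG G) (PM d1 n)
  | 0, _ => inferInstanceAs (Module.Finite (ZG G) (ZG G))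
  | 1, _ => inferInstanceAs (Module.Finite (ZG G) (ι → ZG G))
  | 2, _ => inferInstanceAs (Module.Finite (ZG G) (Fin r → ZG G))
  | n + 3, h => absurd h (by omega)

theorem reso (hx : Subgroup.closure (Set.range x) = ⊤)
    (h : LinearMap.range d1 = LinearMap.ker (fox x)) :
    Reso (G := G) (fun n => PM d1 n) (PD x d1) (augm G : ZG G →+ ℤ) where
  surj := augm_surj
  equi g (y : ZG G) := by
    change augm G (MonoidAlgebra.of ℤ G g * y) = augm G y
    rw [augm_mul, augm_of, one_mul]
  ex0 y := fox_exact x hx y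
  ex i y := by
    have := PD_ex x d1 h i
    rw [← LinearMap.mem_ker]
    exact (SetLike.ext_iff.1 this y).symm

end main

theorem m2 : Pool.Agent.Y66.HC.PropM2 := by
  intro G ι _ _ x hx hfg
  obtain ⟨r, v, hv⟩ := Submodule.fg_iff_exists_fin_generating_family.1 hfg
  let d1 : (Fin r → ZG G) →ₗ[ZG G] (ι → ZG G) := Fintype.linearCombination (ZG G) v
  have hr : LinearMap.range d1 = LinearMap.ker (fox x) := by
    change LinearMap.range (Fintype.linearCombination (ZG G) v) = _
    rw [Fintype.range_linearCombination, hv]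
    rfl
  have H := reso x d1 hx hr
  have : ∀ n, Module.Projective (MonoidAlgebra ℤ G) (PM d1 n) := PM_proj d1
  refine ⟨H.pr, ?_⟩
  intro k hk
  have : Module.Finite (ZG G) (PM d1 k) := PM_fin d1 k hk
  exact fin_gen (G := G) (M := PM d1 k)

end Pool.Agent.Q18.HC
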