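import Pool.Agent.Q18.HC.BB1
import Pool.Agent.Q18.HC.M2

/-!
# The group ring of a right-angled Artin group over the group ring of the Bestvina-Brady group
-/

set_option autoImplicit false

namespace Pool.Agent.Q18.HC.BB

open Pool.Agent.W326.DU Pool.Agent.Y66.HC Pool.Agent.W571.DU

section
variable {V : Type} (ad : V → V → Prop)

/-- the Bestvina-Brady group -/
abbrev HH : Type := (hgt ad).ker

theorem mem_ker_iff (g : RAAG ad) : g ∈ (hgt ad).ker ↔ dg ad g = 0 := by
  rw [MonoidHom.mem_ker]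
  exact Iff.rfl

/-- the inclusion of group rings -/
noncomputable abbrev io : ZG (HH ad) →+* ZG (RAAG ad) := mp (hgt ad).ker.subtype

theorem io_coeff (x : ZG (HH ad)) (g : RAAG ad) :
    (io ad x).coeff g = (open Classical in if h : g ∈ (hgt ad).ker then x.coeff ⟨g, h⟩ else 0) := by
  classical
  show (MonoidAlgebra.mapDomainRingHom ℤ (hgt ad).ker.subtype x).coeff g = _
  rw [MonoidAlgebra.mapDomainRingHom_apply, MonoidAlgebra.coeff_mapDomain]
  split_ifs with h
  · exact Finsupp.mapDomain_apply (f := (hgt ad).ker.subtype) Subtype.val_injective x.coeff ⟨g, h⟩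
  · rw [Finsupp.mapDomain_of_notMem_range]
    rintro ⟨b, hb⟩
    apply h
    rw [← hb]
    exact b.2

variable (v0 : V)

theorem dg_pow (j : ℕ) : dg ad (gen ad v0 ^ j) = j := by
  induction j with
  | zero => rw [pow_zero, dg_one]; rfl
  | succ j ih => rw [pow_succ, dg_mul, ih, dg_gen]; push_cast; rfl

/-- the slice at height `j` -/
noncomputable def sl (j : ℕ) : ZG (RAAG ad) →+ ZG (HH ad) :=
  MonoidAlgebra.comapDomainAddMonoidHom (fun h : HH ad => (h : RAAG ad) * gen ad v0 ^ j)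
    (fun _ _ hab => Subtype.ext (mul_right_cancel hab))

theorem sl_coeff (j : ℕ) (x : ZG (RAAG ad)) (h : HH ad) :
    (sl ad v0 j x).coeff h = x.coeff ((h : RAAG ad) * gen ad v0 ^ j) := rfl

theorem sl_smul (j : ℕ) (y : ZG (HH ad)) (x : ZG (RAAG ad)) :
    sl ad v0 j (io ad y * x) = y * sl ad v0 j x := by
  induction y using MonoidAlgebra.induction_on with
  | of h =>
    apply MonoidAlgebra.ext
    ext a
    rw [sl_coeff, coeff_of_mul, sl_coeff]
    show (mp (hgt ad).ker.subtype (MonoidAlgebra.of ℤ (HH ad) h) * x).coeff _ = _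
    rw [mp_of, coeff_of_mul]
    congr 1
    show (h : RAAG ad)⁻¹ * (a * gen ad v0 ^ j) = (((h⁻¹ * a : HH ad)) : RAAG ad) * gen ad v0 ^ j
    rw [← mul_assoc]
    rfl
  | add a b ha hb => rw [map_add, add_mul, map_add, ha, hb, add_mul]
  | smul r a ha =>
    have h1 : io ad (r • a) = r • io ad a := map_zsmul _ _ _
    rw [h1, smul_mul_assoc, map_zsmul, ha, smul_mul_assoc]

/-- the parametrisation of the elements in the heights `0, …, n - 1` -/
noncomputable def Ps (n : ℕ) (c : Fin n → ZG (HH ad)) : ZG (RAAG ad) :=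
  ∑ j : Fin n, io ad (c j) * MonoidAlgebra.of ℤ _ (gen ad v0 ^ (j : ℕ))

theorem term_coeff (j : ℕ) (x : ZG (HH ad)) (g : RAAG ad) :
    (io ad x * MonoidAlgebra.of ℤ _ (gen ad v0 ^ j)).coeff g =
      (open Classical in if h : g * (gen ad v0 ^ j)⁻¹ ∈ (hgt ad).ker then x.coeff ⟨_, h⟩ else 0) := by
  rw [coeff_mul_of, io_coeff]

theorem mem_shift (j : ℕ) (g : RAAG ad) : g * (gen ad v0 ^ j)⁻¹ ∈ (hgt ad).ker ↔ dg ad g = j := by
  rw [mem_ker_iff, dg_mul, dg_inv, dg_pow]
  omega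

theorem sl_term (j k : ℕ) (x : ZG (HH ad)) :
    sl ad v0 j (io ad x * MonoidAlgebra.of ℤ _ (gen ad v0 ^ k)) = if j = k then x else 0 := by
  classical
  apply MonoidAlgebra.ext
  ext h
  rw [sl_coeff, term_coeff]
  have hd : dg ad ((h : RAAG ad) * gen ad v0 ^ j) = j := by
    rw [dg_mul, dg_pow, (mem_ker_iff ad _).1 h.2, zero_add]
  by_cases hjk : j = k
  · subst hjk
    rw [dif_pos ((mem_shift ad v0 j _).2 hd), if_pos rfl]
    congr 1
    apply Subtype.ext
    show (h : RAAG ad) * gen ad v0 ^ j * (gen ad v0 ^ j)⁻¹ = h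
    rw [mul_inv_cancel_right]
  · rw [dif_neg, if_neg hjk]
    · rfl
    · rw [mem_shift, hd]
      omega

theorem sl_Ps (n : ℕ) (c : Fin n → ZG (HH ad)) (j : Fin n) : sl ad v0 j (Ps ad v0 n c) = c j := by
  unfold Ps
  rw [map_sum, Finset.sum_eq_single j]
  · rw [sl_term, if_pos rfl]
  · intro k _ hk
    rw [sl_term, if_neg]
    intro h
    exact hk (Fin.ext h.symm)
  · intro h
    exact absurd (Finset.mem_univ j) h

theorem Sup_iff (a b : ℤ) (x : ZG (RAAG ad)) :
    Sup (prj ad) a b x ↔ ∀ g, (dg ad g < a ∨ b < dg ad g) → x.coeff g = 0 := by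
  constructor
  · intro h g hg
    have h1 := congrArg (fun y : ZG (RAAG ad) => y.coeff g) (h (dg ad g) hg)
    have h2 : (prj ad (dg ad g) x).coeff g = (0 : ZG (RAAG ad)).coeff g := h1
    rw [prj_coeff, if_pos rfl] at h2
    exact h2
  · intro h n hn
    apply MonoidAlgebra.ext
    ext g
    rw [prj_coeff, MonoidAlgebra.coeff_zero, Finsupp.coe_zero, Pi.zero_apply]
    split_ifs with h1
    · exact h g (by rw [h1]; exact hn)
    · rfl

theorem coeff_Ps (n : ℕ) (c : Fin n → ZG (HH ad)) (g : RAAG ad) :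
    (Ps ad v0 n c).coeff g =
      ∑ j : Fin n, (io ad (c j) * MonoidAlgebra.of ℤ _ (gen ad v0 ^ (j : ℕ))).coeff g := by
  unfold Ps
  rw [MonoidAlgebra.coeff_sum, Finsupp.finsetSum_apply]

theorem Sup_Ps (n : ℕ) (c : Fin n → ZG (HH ad)) : Sup (prj ad) 0 ((n : ℤ) - 1) (Ps ad v0 n c) := by
  classical
  rw [Sup_iff]
  intro g hg
  rw [coeff_Ps]
  apply Finset.sum_eq_zero
  intro j _
  rw [term_coeff, dif_neg]
  rw [mem_shift]
  have := j.2
  omega

theorem Ps_sl (n : ℕ) (x : ZG (RAAG ad)) (hx : Sup (prj ad) 0 ((n : ℤ) - 1) x) :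
    Ps ad v0 n (fun j => sl ad v0 j x) = x := by
  classical
  rw [Sup_iff] at hx
  apply MonoidAlgebra.ext
  ext g
  rw [coeff_Ps]
  by_cases hg : dg ad g < 0 ∨ (n : ℤ) - 1 < dg ad g
  · rw [hx g hg]
    apply Finset.sum_eq_zero
    intro j _
    rw [term_coeff, dif_neg]
    rw [mem_shift]
    have := j.2
    omega
  · push Not at hg
    obtain ⟨k, hk⟩ := Int.eq_ofNat_of_zero_le hg.1
    have hkn : k < n := by omega
    rw [Finset.sum_eq_single (⟨k, hkn⟩ : Fin n)]
    · rw [term_coeff, dif_pos ((mem_shift ad v0 k g).2 hk), sl_coeff]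
      congr 1
      show g * (gen ad v0 ^ k)⁻¹ * gen ad v0 ^ k = g
      rw [inv_mul_cancel_right]
    · intro j _ hj
      rw [term_coeff, dif_neg]
      rw [mem_shift, hk]
      intro h
      apply hj
      apply Fin.ext
      show (j : ℕ) = k
      omega
    · intro h
      exact absurd (Finset.mem_univ _) h

theorem Ps_add (n : ℕ) (c d : Fin n → ZG (HH ad)) :
    Ps ad v0 n (c + d) = Ps ad v0 n c + Ps ad v0 n d := by
  unfold Ps
  rw [← Finset.sum_add_distrib]
  refine Finset.sum_congr rfl fun j _ => ?_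
  rw [Pi.add_apply, map_add, add_mul]

theorem Ps_smul (n : ℕ) (a : ZG (HH ad)) (c : Fin n → ZG (HH ad)) :
    Ps ad v0 n (a • c) = io ad a * Ps ad v0 n c := by
  unfold Ps
  rw [Finset.mul_sum]
  refine Finset.sum_congr rfl fun j _ => ?_
  rw [Pi.smul_apply, smul_eq_mul, map_mul, mul_assoc]

theorem Ps_inj (n : ℕ) (c d : Fin n → ZG (HH ad)) (h : Ps ad v0 n c = Ps ad v0 n d) : c = d := by
  funext j
  rw [← sl_Ps ad v0 n c j, h, sl_Ps]

theorem Ps_zero (n : ℕ) : Ps ad v0 n 0 = 0 := by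
  unfold Ps
  apply Finset.sum_eq_zero
  intro j _
  rw [Pi.zero_apply, map_zero, zero_mul]

theorem Rr_smul (v : V) (a : ZG (HH ad)) (x : ZG (RAAG ad)) :
    Rr ad v (io ad a * x) = io ad a * Rr ad v x := by
  show io ad a * x * _ = io ad a * (x * _)
  rw [mul_assoc]

theorem Sup_Rr (v : V) (n : ℤ) (hn : 0 ≤ n) (x : ZG (RAAG ad)) (hx : Sup (prj ad) 0 n x) :
    Sup (prj ad) 0 (n + 1) (Rr ad v x) := by
  rw [Sup_iff] at hx ⊢
  intro g hg
  rw [Rr_apply, MonoidAlgebra.coeff_sub, Finsupp.sub_apply, Ur_apply, coeff_mul_of, hx, hx, sub_zero]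
  · omega
  · rw [dg_mul, dg_inv, dg_gen]
    omega

theorem Sup_zero (a b : ℤ) : Sup (prj ad) a b (0 : ZG (RAAG ad)) := by
  intro n _
  exact map_zero _

theorem Sup_sum {ι : Type} (s : Finset ι) (a b : ℤ) (f : ι → ZG (RAAG ad))
    (hf : ∀ i ∈ s, Sup (prj ad) a b (f i)) : Sup (prj ad) a b (∑ i ∈ s, f i) := by
  intro n hn
  rw [map_sum]
  exact Finset.sum_eq_zero fun i hi => hf i hi n hn

end

end Pool.Agent.Q18.HC.BB
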