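import Pool.Agent.Q18.HC.BB2

/-!
# The resolution of the Bestvina-Brady group
-/

set_option autoImplicit false

namespace Pool.Agent.Q18.HC.BB

open Pool.Agent.W326.DU Pool.Agent.Y66.HC Pool.Agent.W571.DU CategoryTheory

section
variable {V : Type} [Fintype V] [LinearOrder V] (ad : V → V → Prop) (v0 : V)

/-- the edges -/
abbrev Ed : Type := {e : V × V // ad e.1 e.2 ∧ e.1 < e.2}

noncomputable instance : Fintype (Ed ad) := Fintype.ofFinite _

/-- the alternating function of an edge function -/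
noncomputable def alt (y : Ed ad → ZG (RAAG ad)) (a b : V) : ZG (RAAG ad) :=
  (open Classical in
    (if h : ad a b ∧ a < b then y ⟨(a, b), h⟩ else 0) - (if h : ad b a ∧ b < a then y ⟨(b, a), h⟩ else 0))

theorem alt_alt2 (hsym : ∀ a b, ad a b → ad b a) (y : Ed ad → ZG (RAAG ad)) :
    IsAlt2 ad Set.univ (alt ad y) := by
  classical
  constructor
  · intro a b
    unfold alt
    rw [neg_sub]
  · intro a b h
    unfold alt
    have h1 : ¬ ad a b := fun h2 => h ⟨trivial, trivial, h2⟩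
    rw [dif_neg (fun h2 => h1 h2.1), dif_neg (fun h2 => h1 (hsym _ _ h2.1)), sub_zero]

theorem alt_edge (y : Ed ad → ZG (RAAG ad)) (e : Ed ad) : alt ad y e.1.1 e.1.2 = y e := by
  classical
  unfold alt
  rw [dif_pos e.2, dif_neg (fun h => lt_asymm e.2.2 h.2), sub_zero]

theorem alt_eq (hirr : ∀ a, ¬ ad a a) (hsym : ∀ a b, ad a b → ad b a) (z : V → V → ZG (RAAG ad))
    (hz : IsAlt2 ad Set.univ z) : alt ad (fun e => z e.1.1 e.1.2) = z := by
  classical
  funext a b
  unfold alt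
  by_cases hab : ad a b
  · rcases lt_trichotomy a b with h | h | h
    · rw [dif_pos ⟨hab, h⟩, dif_neg (fun h2 => lt_asymm h h2.2), sub_zero]
    · subst h
      exact absurd hab (hirr a)
    · rw [dif_neg (fun h2 => lt_asymm h h2.2), dif_pos ⟨hsym _ _ hab, h⟩, zero_sub]
      exact (hz.1 a b).symm
  · rw [dif_neg (fun h2 => hab h2.1), dif_neg (fun h2 => hab (hsym _ _ h2.1)), sub_zero]
    exact (hz.2 a b (fun h => hab h.2.2)).symm

theorem alt_add (y z : Ed ad → ZG (RAAG ad)) (a b : V) :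
    alt ad (y + z) a b = alt ad y a b + alt ad z a b := by
  classical
  unfold alt
  split_ifs
  · simp only [Pi.add_apply]
    abel
  · simp only [Pi.add_apply]
    abel
  · simp only [Pi.add_apply]
    abel
  · abel

theorem alt_smul (c : ZG (RAAG ad)) (y : Ed ad → ZG (RAAG ad)) (a b : V) :
    alt ad (fun e => c * y e) a b = c * alt ad y a b := by
  classical
  unfold alt
  split_ifs <;> simp only [mul_sub, mul_zero]

/-- the first boundary map, with values in the big group ring -/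
noncomputable def B0 (c : V → Fin 2 → ZG (HH ad)) : ZG (RAAG ad) := ∑ v, Rr ad v (Ps ad v0 2 (c v))

/-- the second boundary map, with values in the big group ring -/
noncomputable def B1 (w : Ed ad → ZG (HH ad)) (b : V) : ZG (RAAG ad) :=
  ∑ a, Rr ad a (alt ad (fun e => io ad (w e)) a b)

theorem B0_add (c d : V → Fin 2 → ZG (HH ad)) : B0 ad v0 (c + d) = B0 ad v0 c + B0 ad v0 d := by
  unfold B0
  rw [← Finset.sum_add_distrib]
  refine Finset.sum_congr rfl fun v _ => ?_
  rw [Pi.add_apply, Ps_add, map_add]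

theorem B0_smul (a : ZG (HH ad)) (c : V → Fin 2 → ZG (HH ad)) :
    B0 ad v0 (a • c) = io ad a * B0 ad v0 c := by
  unfold B0
  rw [Finset.mul_sum]
  refine Finset.sum_congr rfl fun v _ => ?_
  rw [Pi.smul_apply, Ps_smul, Rr_smul]

theorem B1_add (w z : Ed ad → ZG (HH ad)) (b : V) : B1 ad (w + z) b = B1 ad w b + B1 ad z b := by
  unfold B1
  rw [← Finset.sum_add_distrib]
  refine Finset.sum_congr rfl fun v _ => ?_
  rw [← map_add, ← alt_add]
  congr 2
  funext e
  exact map_add _ _ _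

theorem B1_smul (a : ZG (HH ad)) (w : Ed ad → ZG (HH ad)) (b : V) :
    B1 ad (a • w) b = io ad a * B1 ad w b := by
  unfold B1
  rw [Finset.mul_sum]
  refine Finset.sum_congr rfl fun v _ => ?_
  rw [← Rr_smul, ← alt_smul]
  congr 2
  funext e
  exact map_mul _ _ _

/-- the modules of the resolution -/
noncomputable def PB : ℕ → ModuleCat.{0} (ZG (HH ad))
  | 0 => ModuleCat.of (ZG (HH ad)) (Fin 3 → ZG (HH ad))
  | 1 => ModuleCat.of (ZG (HH ad)) (V → Fin 2 → ZG (HH ad))
  | 2 => ModuleCat.of (ZG (HH ad)) (Ed ad → ZG (HH ad))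
  | _ + 3 => ModuleCat.of (ZG (HH ad)) PUnit

/-- the first differential -/
noncomputable def D0 : (V → Fin 2 → ZG (HH ad)) →ₗ[ZG (HH ad)] (Fin 3 → ZG (HH ad)) where
  toFun c := fun j => sl ad v0 j (B0 ad v0 c)
  map_add' c d := by
    funext j
    rw [B0_add, map_add]
    rfl
  map_smul' a c := by
    funext j
    rw [B0_smul, sl_smul]
    rfl

/-- the second differential -/
noncomputable def D1 : (Ed ad → ZG (HH ad)) →ₗ[ZG (HH ad)] (V → Fin 2 → ZG (HH ad)) where
  toFun w := fun b j => sl ad v0 j (B1 ad w b)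
  map_add' c d := by
    funext b j
    rw [B1_add, map_add]
    rfl
  map_smul' a c := by
    funext b j
    rw [B1_smul, sl_smul]
    rfl

/-- the differentials of the resolution -/
noncomputable def DB : ∀ i : ℕ, PB ad (i + 1) →ₗ[ZG (HH ad)] PB ad i
  | 0 => D0 ad v0
  | 1 => D1 ad v0
  | _ + 2 => 0

/-- the augmentation of the resolution, concretely -/
noncomputable def eC : (Fin 3 → ZG (HH ad)) →+ ℤ where
  toFun c := augm (RAAG ad) (Ps ad v0 3 c)
  map_zero' := by
    rw [Ps_zero, map_zero]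
  map_add' c d := by
    rw [Ps_add, map_add]

/-- the augmentation of the resolution -/
noncomputable def eB : PB ad 0 →+ ℤ := eC ad v0

theorem Sup_io (x : ZG (HH ad)) : Sup (prj ad) 0 0 (io ad x) := by
  classical
  rw [Sup_iff]
  intro g hg
  rw [io_coeff, dif_neg]
  rw [mem_ker_iff]
  omega

theorem Sup_alt (w : Ed ad → ZG (HH ad)) (a b : V) :
    Sup (prj ad) 0 0 (alt ad (fun e => io ad (w e)) a b) := by
  classical
  unfold alt
  intro n hn
  rw [map_sub]
  have h1 : ∀ (p : Prop) [Decidable p] (f : p → Ed ad),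
      prj ad n (if h : p then io ad (w (f h)) else 0) = 0 := by
    intro p _ f
    split_ifs
    · exact Sup_io ad _ n hn
    · exact map_zero _
  rw [h1 _ (fun h => ⟨(a, b), h⟩), h1 _ (fun h => ⟨(b, a), h⟩), sub_zero]

theorem Sup_B0 (c : V → Fin 2 → ZG (HH ad)) : Sup (prj ad) 0 2 (B0 ad v0 c) := by
  unfold B0
  apply Sup_sum
  intro v _
  exact Sup_Rr ad v 1 (by norm_num) _ (Sup_Ps ad v0 2 (c v))

theorem Sup_B1 (w : Ed ad → ZG (HH ad)) (b : V) : Sup (prj ad) 0 1 (B1 ad w b) := by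
  unfold B1
  apply Sup_sum
  intro v _
  exact Sup_Rr ad v 0 le_rfl _ (Sup_alt ad w v b)

theorem Ps_D0 (c : V → Fin 2 → ZG (HH ad)) : Ps ad v0 3 (D0 ad v0 c) = B0 ad v0 c :=
  Ps_sl ad v0 3 _ (Sup_B0 ad v0 c)

theorem Ps_D1 (w : Ed ad → ZG (HH ad)) (b : V) : Ps ad v0 2 (D1 ad v0 w b) = B1 ad w b :=
  Ps_sl ad v0 2 _ (Sup_B1 ad w b)

/-- the square of the boundary vanishes -/
theorem dd (hsym : ∀ a b, ad a b → ad b a) (y : V → V → ZG (RAAG ad)) (hy : IsAlt2 ad Set.univ y)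
    (hreg : Reg ad (Rr ad)) : ∑ b, Rr ad b (∑ a, Rr ad a (y a b)) = 0 := by
  classical
  have h1 : ∑ b, Rr ad b (∑ a, Rr ad a (y a b)) = ∑ b, ∑ a, Rr ad b (Rr ad a (y a b)) := by
    refine Finset.sum_congr rfl fun b _ => ?_
    rw [map_sum]
  have h2 : ∀ a b, Rr ad b (Rr ad a (y a b)) = - Rr ad a (Rr ad b (y b a)) := by
    intro a b
    by_cases hab : ad a b
    · rw [hreg.comm b a (hsym _ _ hab), hy.1 a b, map_neg, map_neg]
    · rw [hy.2 a b (fun h => hab h.2.2), hy.2 b a (fun h => hab (hsym _ _ h.2.2))]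
      simp only [map_zero, neg_zero]
  have h3 : ∑ b, ∑ a, Rr ad b (Rr ad a (y a b)) = - ∑ b, ∑ a, Rr ad b (Rr ad a (y a b)) := by
    conv_lhs => rw [Finset.sum_comm]
    rw [← Finset.sum_neg_distrib]
    refine Finset.sum_congr rfl fun a _ => ?_
    rw [← Finset.sum_neg_distrib]
    refine Finset.sum_congr rfl fun b _ => ?_
    exact h2 a b
  rw [h1]
  apply MonoidAlgebra.ext
  ext g
  have h4 := congrArg (fun z : ZG (RAAG ad) => z.coeff g) h3
  have h5 : (∑ b, ∑ a, Rr ad b (Rr ad a (y a b))).coeff g =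
      -(∑ b, ∑ a, Rr ad b (Rr ad a (y a b))).coeff g := h4
  show (∑ b, ∑ a, Rr ad b (Rr ad a (y a b))).coeff g = 0
  omega

theorem eC_surj (n : ℤ) : ∃ c, eC ad v0 c = n := by
  classical
  obtain ⟨c, hc⟩ : ∃ c : Fin 3 → ZG (HH ad), c = Pi.single 0 (n • 1) := ⟨_, rfl⟩
  refine ⟨c, ?_⟩
  show augm (RAAG ad) (Ps ad v0 3 c) = n
  have h1 : Ps ad v0 3 c = n • (1 : ZG (RAAG ad)) := by
    unfold Ps
    rw [Finset.sum_eq_single (0 : Fin 3)]
    · rw [hc, Pi.single_eq_same]
      have h2 : io ad (n • (1 : ZG (HH ad))) = n • io ad 1 := map_zsmul _ _ _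
      rw [h2, map_one]
      show n • (1 : ZG (RAAG ad)) * MonoidAlgebra.of ℤ _ (gen ad v0 ^ 0) = _
      rw [pow_zero, map_one, mul_one]
    · intro j _ hj
      rw [hc, Pi.single_eq_of_ne hj, map_zero, zero_mul]
    · intro h
      exact absurd (Finset.mem_univ _) h
  rw [h1, map_zsmul, Pool.Agent.Y448.HC.augm_one, smul_eq_mul, mul_one]

theorem eC_equi (g : HH ad) (x : Fin 3 → ZG (HH ad)) :
    eC ad v0 (MonoidAlgebra.of ℤ (HH ad) g • x) = eC ad v0 x := by
  show augm (RAAG ad) (Ps ad v0 3 (MonoidAlgebra.of ℤ (HH ad) g • x)) =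
    augm (RAAG ad) (Ps ad v0 3 x)
  rw [Ps_smul, Pool.Agent.Y448.HC.augm_mul]
  have h1 : io ad (MonoidAlgebra.of ℤ (HH ad) g) = MonoidAlgebra.of ℤ (RAAG ad) g := mp_of _ _
  rw [h1, Pool.Agent.Y448.HC.augm_of, one_mul]

section exact
variable (htr : PropTR) (hsym : ∀ a b, ad a b → ad b a) (hirr : ∀ a, ¬ ad a a)
    (hk4 : ∀ a b c d, ad a b → ad a c → ad a d → ad b c → ad b d → ¬ ad c d) (hac : Acyc ad)

include htr hsym hirr hk4 hac

theorem exact0 (x : Fin 3 → ZG (HH ad)) :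
    eC ad v0 x = 0 ↔ x ∈ LinearMap.range (D0 ad v0) := by
  obtain ⟨t0, t1, t2⟩ := trunc htr hsym hirr hk4 hac
  show augm (RAAG ad) (Ps ad v0 3 x) = 0 ↔ x ∈ LinearMap.range (D0 ad v0)
  constructor
  · intro hx
    have h1 := (Pool.Agent.Y448.HC.fox_exact (gen ad)
      (PresentedGroup.closure_range_of (rels ad)) (Ps ad v0 3 x)).1 hx
    obtain ⟨y, hy⟩ := h1
    have hy' : ∑ v, Rr ad v (y v) = Ps ad v0 3 x := hy
    have h2 : Sup (prj ad) 0 2 (∑ v, Rr ad v (y v)) := by
      rw [hy']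
      exact Sup_Ps ad v0 3 x
    obtain ⟨y', hy1, hy2⟩ := t0 y h2
    refine ⟨fun v j => sl ad v0 j (y' v), ?_⟩
    apply Ps_inj ad v0 3
    rw [Ps_D0, ← hy', ← hy2]
    unfold B0
    refine Finset.sum_congr rfl fun v _ => ?_
    rw [Ps_sl ad v0 2 (y' v) (hy1 v)]
  · rintro ⟨c, rfl⟩
    rw [Ps_D0]
    unfold B0
    have h1 := Pool.Agent.Y448.HC.augm_fox (gen ad) (fun v => Ps ad v0 2 (c v))
    exact h1

theorem exact1 (x : V → Fin 2 → ZG (HH ad)) :
    D0 ad v0 x = 0 ↔ x ∈ LinearMap.range (D1 ad v0) := by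
  obtain ⟨t0, t1, t2⟩ := trunc htr hsym hirr hk4 hac
  have hreg := reg ad hsym hirr
  constructor
  · intro hx
    have h1 : B0 ad v0 x = 0 := by
      rw [← Ps_D0, hx, Ps_zero]
    obtain ⟨y, hy1, hy2, hy3⟩ := t1 (fun v => Ps ad v0 2 (x v)) (fun v => Sup_Ps ad v0 2 (x v)) h1
    have h2 : ∀ a b, io ad (sl ad v0 0 (y a b)) = y a b := by
      intro a b
      have h3 := Ps_sl ad v0 1 (y a b) (hy2 a b)
      unfold Ps at h3
      rw [Fin.sum_univ_one] at h3
      have h4 : io ad (sl ad v0 0 (y a b)) * MonoidAlgebra.of ℤ _ (gen ad v0 ^ 0) = y a b := h3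
      rw [pow_zero, map_one, mul_one] at h4
      exact h4
    refine ⟨fun e => sl ad v0 0 (y e.1.1 e.1.2), ?_⟩
    funext b
    apply Ps_inj ad v0 2
    rw [Ps_D1, hy3 b]
    unfold B1
    refine Finset.sum_congr rfl fun a _ => ?_
    congr 1
    have h5 : (fun e : Ed ad => io ad (sl ad v0 0 (y e.1.1 e.1.2))) = fun e => y e.1.1 e.1.2 := by
      funext e
      exact h2 _ _
    rw [h5, alt_eq ad hirr hsym y hy1]
  · rintro ⟨w, rfl⟩
    apply Ps_inj ad v0 3
    rw [Ps_D0, Ps_zero]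
    unfold B0
    have h1 : ∀ v, Ps ad v0 2 (D1 ad v0 w v) = B1 ad w v := fun v => Ps_D1 ad v0 w v
    simp only [h1]
    exact dd ad hsym _ (alt_alt2 ad hsym _) hreg

theorem exact2 (x : Ed ad → ZG (HH ad)) : D1 ad v0 x = 0 ↔ x = 0 := by
  obtain ⟨t0, t1, t2⟩ := trunc htr hsym hirr hk4 hac
  constructor
  · intro hx
    have h1 := t2 (alt ad (fun e => io ad (x e))) (alt_alt2 ad hsym _) (Sup_alt ad x) (by
      intro b
      show B1 ad x b = 0
      rw [← Ps_D1 ad v0, hx]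
      exact Ps_zero ad v0 2)
    funext e
    have h2 := h1 e.1.1 e.1.2
    rw [alt_edge] at h2
    have h3 := congrArg (sl ad v0 0) h2
    rw [map_zero] at h3
    have h4 := sl_term ad v0 0 0 (x e)
    rw [pow_zero, map_one, mul_one, if_pos rfl] at h4
    rw [h4] at h3
    exact h3
  · rintro rfl
    exact map_zero _

theorem resB : Helper158.Reso (G := HH ad) (fun n => PB ad n) (DB ad v0) (eB ad v0) where
  surj n := eC_surj ad v0 n
  equi g x := eC_equi ad v0 g x
  ex0 x := exact0 ad v0 htr hsym hirr hk4 hac x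
  ex i := match i with
    | 0 => fun x => exact1 ad v0 htr hsym hirr hk4 hac x
    | 1 => fun x => by
      have h1 := exact2 ad v0 htr hsym hirr hk4 hac x
      have h2 : x ∈ LinearMap.range (DB ad v0 2) ↔ x = 0 := by
        have h3 : DB ad v0 2 = 0 := rfl
        rw [h3, LinearMap.range_zero]
        exact Submodule.mem_bot _
      exact h1.trans h2.symm
    | i + 2 => fun x => by
      have hx : x = (0 : PB ad (i + 3)) := rfl
      constructor
      · intro _
        exact ⟨0, by rw [map_zero]; exact hx.symm⟩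
      · intro _
        rw [hx]
        exact map_zero _

end exact

theorem PB_proj : ∀ n : ℕ, Module.Projective (ZG (HH ad)) (PB ad n)
  | 0 => inferInstanceAs (Module.Projective (ZG (HH ad)) (Fin 3 → ZG (HH ad)))
  | 1 => inferInstanceAs (Module.Projective (ZG (HH ad)) (V → Fin 2 → ZG (HH ad)))
  | 2 => inferInstanceAs (Module.Projective (ZG (HH ad)) (Ed ad → ZG (HH ad)))
  | _ + 3 => inferInstanceAs (Module.Projective (ZG (HH ad)) PUnit)

theorem PB_fin : ∀ n : ℕ, Module.Finite (ZG (HH ad)) (PB ad n)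
  | 0 => inferInstanceAs (Module.Finite (ZG (HH ad)) (Fin 3 → ZG (HH ad)))
  | 1 => inferInstanceAs (Module.Finite (ZG (HH ad)) (V → Fin 2 → ZG (HH ad)))
  | 2 => inferInstanceAs (Module.Finite (ZG (HH ad)) (Ed ad → ZG (HH ad)))
  | _ + 3 => inferInstanceAs (Module.Finite (ZG (HH ad)) PUnit)

/-- the Bestvina-Brady group is of type FP -/
theorem fpB (htr : PropTR) (hsym : ∀ a b, ad a b → ad b a) (hirr : ∀ a, ¬ ad a a)
    (hk4 : ∀ a b c d, ad a b → ad a c → ad a d → ad b c → ad b d → ¬ ad c d) (hac : Acyc ad)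
    (v0 : V) (m : ℕ) : FPc m (HH ad) := by
  have H := resB ad v0 htr hsym hirr hk4 hac
  have : ∀ n, Module.Projective (MonoidAlgebra ℤ (HH ad)) (PB ad n) := PB_proj ad
  refine ⟨H.pr, ?_⟩
  intro k _
  have : Module.Finite (ZG (HH ad)) (PB ad k) := PB_fin ad k
  exact fin_gen (G := HH ad) (M := PB ad k)

end

end Pool.Agent.Q18.HC.BB
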