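import Pool.Agent.Q18.HC.Rel
import Pool.Agent.W335.DU.HN

/-!
# Fibre products whose relation module is not finitely generated
-/

set_option autoImplicit false

namespace Pool.Agent.Q18.HC

open Pool.Agent.W326.DU Pool.Agent.Y66.HC Pool.Agent.W571.DU

section
variable {G : Type} [Group G] {I : Type} [Fintype I]

theorem IL_le_range (x : I → G) : IL ℤ (Set.range x) ≤ LinearMap.range (fox x) := by
  classical
  refine Submodule.span_le.2 ?_
  rintro _ ⟨_, ⟨i, rfl⟩, rfl⟩
  refine ⟨Pi.single i 1, ?_⟩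
  rw [fox_apply, Finset.sum_eq_single i]
  · rw [Pi.single_eq_same, one_mul]
  · intro j _ hj
    rw [Pi.single_eq_of_ne hj, zero_mul]
  · intro h
    exact absurd (Finset.mem_univ i) h

theorem exists_fox' (x : I → G) {g : G} (hg : g ∈ Subgroup.closure (Set.range x)) :
    ∃ c, fox x c = MonoidAlgebra.of ℤ G g - 1 :=
  IL_le_range x (W490.DU.of_sub_mem_IL ℤ hg)

theorem mp_surjective {P G : Type} [Group P] [Group G] (pr : P →* G) (hpr : Function.Surjective pr) :
    Function.Surjective (mp pr) := by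
  intro y
  induction y using MonoidAlgebra.induction_on with
  | of g =>
    obtain ⟨x, rfl⟩ := hpr g
    exact ⟨MonoidAlgebra.of ℤ P x, mp_of pr x⟩
  | add a b ha hb =>
    obtain ⟨x, rfl⟩ := ha
    obtain ⟨y, rfl⟩ := hb
    exact ⟨x + y, map_add _ _ _⟩
  | smul r a ha =>
    obtain ⟨x, rfl⟩ := ha
    exact ⟨r • x, map_zsmul (mp pr) r x⟩

/-- preimages of left ideals -/
theorem mem_IL_of_mp {P G : Type} [Group P] [Group G] (pr : P →* G) (hpr : Function.Surjective pr)
    (E : Set P) (hE : ∀ x, pr x = 1 → x ∈ E) (z : ZG P) (hz : mp pr z ∈ IL ℤ (pr '' E)) :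
    z ∈ IL ℤ E := by
  have h1 : ∀ y ∈ IL ℤ (pr '' E), ∃ w ∈ IL ℤ E, mp pr w = y := by
    intro y hy
    refine Submodule.span_induction (p := fun y _ => ∃ w ∈ IL ℤ E, mp pr w = y)
      ?_ ⟨0, zero_mem _, map_zero _⟩ ?_ ?_ hy
    · rintro _ ⟨_, ⟨e, he, rfl⟩, rfl⟩
      refine ⟨MonoidAlgebra.of ℤ P e - 1, Submodule.subset_span ⟨e, he, rfl⟩, ?_⟩
      rw [map_sub, map_one, mp_of]
    · rintro _ _ _ _ ⟨w, hw, rfl⟩ ⟨w', hw', rfl⟩
      exact ⟨w + w', add_mem hw hw', map_add _ _ _⟩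
    · rintro a _ _ ⟨w, hw, rfl⟩
      obtain ⟨a', rfl⟩ := mp_surjective pr hpr a
      exact ⟨a' • w, Submodule.smul_mem _ _ hw, map_mul _ _ _⟩
  obtain ⟨w, hw, hwz⟩ := h1 _ hz
  have h2 : mp pr (z - w) = 0 := by
    rw [map_sub, hwz, sub_self]
  have h3 := IL_mono (S := (pr.ker : Set P)) (T := E) (fun x hx => hE x hx) (ker_mp pr _ h2)
  have h4 : z = (z - w) + w := by abel
  rw [h4]
  exact add_mem h3 hw

end

section fib
variable {F Q G P : Type} [Group F] [Group Q] [Group G] [Group P] {I : Type} [Fintype I]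

/-- Abstract fibre product: if its relation module is finitely generated then the kernel of `π₂` is
the normal closure of a finite set. -/
theorem fib_abs (π₂ : F →* Q) (a : I → F) (ha : Subgroup.closure (Set.range a) = ⊤)
    (K0 : Set G) (Γ0 : Set G) (t : G) (hstar : StarP ℤ K0 t Γ0)
    (pr : P →* G) (hpr : Function.Surjective pr) (pr2 : P →* F) (α β : F →* P) (t' : P)
    (hα : Function.Injective α) (hprα : ∀ f, pr (α f) ∈ K0) (hprβ : ∀ f, pr (β f) ∈ K0)
    (hprt : pr t' = t) (hΓ0 : Γ0 ⊆ pr '' {x | ∃ f f', π₂ f = π₂ f' ∧ x = α f * β f'})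
    (hker : ∀ x, pr x = 1 → ∃ n, π₂ n = 1 ∧ x = β n)
    (hcomm : ∀ f f', α f * β f' = β f' * α f)
    (hcommt : ∀ f f', π₂ f = π₂ f' → t' * (α f * β f') = (α f * β f') * t')
    (h2α : ∀ f, pr2 (α f) = 1) (h2β : ∀ f, pr2 (β f) = f)
    (hfg : (RM (addt t' (Sum.elim (fun i => α (a i)) (fun i => β (a i))))).FG) :
    ∃ S : Set F, S.Finite ∧ (∀ r ∈ S, π₂ r = 1) ∧ π₂.ker ≤ Subgroup.normalClosure S := by
  classical
  obtain ⟨E, hE⟩ : ∃ E : Set P, E = {x | ∃ f f', π₂ f = π₂ f' ∧ x = α f * β f'} := ⟨_, rfl⟩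
  rw [← hE] at hΓ0
  obtain ⟨x, hx⟩ : ∃ x : I ⊕ I → P, x = Sum.elim (fun i => α (a i)) (fun i => β (a i)) := ⟨_, rfl⟩
  rw [← hx] at hfg
  have hxi : ∀ i, x (Sum.inl i) = α (a i) := fun i => by rw [hx]; rfl
  have hxj : ∀ i, x (Sum.inr i) = β (a i) := fun i => by rw [hx]; rfl
  have hαM : ∀ f, α f ∈ Subgroup.closure (Set.range x) := by
    intro f
    have h1 : α f ∈ (Subgroup.closure (Set.range a)).map α := ⟨f, by rw [ha]; trivial, rfl⟩
    rw [MonoidHom.map_closure, ← Set.range_comp] at h1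
    refine Subgroup.closure_mono ?_ h1
    rintro _ ⟨i, rfl⟩
    exact ⟨Sum.inl i, hxi i⟩
  have hβM : ∀ f, β f ∈ Subgroup.closure (Set.range x) := by
    intro f
    have h1 : β f ∈ (Subgroup.closure (Set.range a)).map β := ⟨f, by rw [ha]; trivial, rfl⟩
    rw [MonoidHom.map_closure, ← Set.range_comp] at h1
    refine Subgroup.closure_mono ?_ h1
    rintro _ ⟨i, rfl⟩
    exact ⟨Sum.inr i, hxj i⟩
  -- the coordinates of the relations at the stable letter
  have himg : (RM (addt t' x)).map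
      (LinearMap.proj (R := ZG P) (φ := fun _ : Option (I ⊕ I) => ZG P) none) = IL ℤ E := by
    apply le_antisymm
    · rintro _ ⟨c, hc, rfl⟩
      have hc' : fox (addt t' x) c = 0 := (mem_RM _ _).1 hc
      rw [fox_addt] at hc'
      show c none ∈ IL ℤ E
      apply mem_IL_of_mp pr hpr E
      · intro y hy
        obtain ⟨n, hn, rfl⟩ := hker y hy
        rw [hE]
        exact ⟨1, n, by rw [map_one, hn], by rw [map_one, one_mul]⟩
      · refine IL_mono hΓ0 (hstar _ ?_)
        have h1 := congrArg (mp pr) hc'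
        rw [map_zero, map_add, map_mul, map_sub, map_one, mp_of, hprt] at h1
        rw [eq_neg_of_add_eq_zero_left h1]
        apply neg_mem
        rw [fox_apply, map_sum]
        refine Submodule.sum_mem _ fun i _ => ?_
        rw [map_mul, map_sub, map_one, mp_of]
        apply mul_sub_mem
        cases i with
        | inl i => rw [hxi]; exact hprα _
        | inr i => rw [hxj]; exact hprβ _
    · unfold IL
      rw [Submodule.span_le]
      rintro _ ⟨e, he, rfl⟩
      rw [hE] at he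
      obtain ⟨f, f', hff, rfl⟩ := he
      obtain ⟨d, hd⟩ := exists_fox' x (mul_mem (hαM f) (hβM f'))
      refine ⟨fun o => o.elim (MonoidAlgebra.of ℤ P (α f * β f') - 1)
        (fun i => -(MonoidAlgebra.of ℤ P t' - 1) * d i), ?_, rfl⟩
      show _ ∈ RM (addt t' x)
      rw [mem_RM, fox_addt]
      have h2 : (fun i => -(MonoidAlgebra.of ℤ P t' - 1) * d i) =
        (-(MonoidAlgebra.of ℤ P t' - 1)) • d := rfl
      show (MonoidAlgebra.of ℤ P (α f * β f') - 1) * (MonoidAlgebra.of ℤ P t' - 1) +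
        fox x (fun i => -(MonoidAlgebra.of ℤ P t' - 1) * d i) = 0
      rw [h2, map_smul, hd, smul_eq_mul]
      have h3 : MonoidAlgebra.of ℤ P t' * MonoidAlgebra.of ℤ P (α f * β f') =
          MonoidAlgebra.of ℤ P (α f * β f') * MonoidAlgebra.of ℤ P t' := by
        rw [← map_mul, hcommt f f' hff, map_mul]
      have h4 := W490.DU.comm_sub_one h3
      rw [← h4, neg_mul, add_neg_cancel]
  have hILfg : (IL ℤ E).FG := by
    rw [← himg]
    exact hfg.map _
  obtain ⟨E1, hE1, hE2⟩ := Submodule.fg_span_iff_fg_span_finset_subset _ |>.1 hILfg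
  -- a finite subset which generates
  obtain ⟨E0, hE0E, hE0⟩ : ∃ E0 : Finset P, (E0 : Set P) ⊆ E ∧ IL ℤ E ≤ IL ℤ (E0 : Set P) := by
    have h1 : ∀ y ∈ E1, ∃ e ∈ E, MonoidAlgebra.of ℤ P e - 1 = y := fun y hy => hE1 hy
    choose! g hg using h1
    refine ⟨E1.image g, ?_, ?_⟩
    · intro e he
      obtain ⟨y, hy, rfl⟩ := Finset.mem_image.1 (Finset.mem_coe.1 he)
      exact (hg y hy).1
    · show Submodule.span _ _ ≤ _
      rw [hE2, Submodule.span_le]
      intro y hy
      rw [← (hg y hy).2]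
      exact Submodule.subset_span ⟨g y, Finset.mem_coe.2 (Finset.mem_image_of_mem g hy), rfl⟩
  have hgen : ∀ e ∈ E, e ∈ Subgroup.closure (E0 : Set P) := by
    intro e he
    exact mem_closure_of_IL (hE0 (Submodule.subset_span ⟨e, he, rfl⟩))
  have h5 : ∀ e ∈ E0, ∃ p : F × F, π₂ p.1 = π₂ p.2 ∧ e = α p.1 * β p.2 := by
    intro e he
    have h6 := hE0E (Finset.mem_coe.2 he)
    rw [hE] at h6
    obtain ⟨f, f', h7, h8⟩ := h6
    exact ⟨(f, f'), h7, h8⟩
  choose! q hq using h5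
  refine ⟨(fun e => (q e).1 * (q e).2⁻¹) '' (E0 : Set P), (Finset.finite_toSet E0).image _, ?_, ?_⟩
  · rintro _ ⟨e, he, rfl⟩
    show π₂ ((q e).1 * (q e).2⁻¹) = 1
    rw [map_mul, map_inv, (hq e he).1, mul_inv_cancel]
  · obtain ⟨N0, hN0⟩ : ∃ N0, N0 = Subgroup.normalClosure
      ((fun e => (q e).1 * (q e).2⁻¹) '' (E0 : Set P)) := ⟨_, rfl⟩
    have hnorm : N0.Normal := by
      rw [hN0]
      exact Subgroup.normalClosure_normal
    rw [← hN0]
    have hC : ∀ y ∈ Subgroup.closure (E0 : Set P), ∃ f f', y = α f * β f' ∧ f * f'⁻¹ ∈ N0 := by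
      intro y hy
      induction hy using Subgroup.closure_induction with
      | mem e he =>
        refine ⟨(q e).1, (q e).2, (hq e he).2, ?_⟩
        rw [hN0]
        exact Subgroup.subset_normalClosure ⟨e, he, rfl⟩
      | one => exact ⟨1, 1, by rw [map_one, map_one, mul_one], by rw [inv_one, mul_one]; exact one_mem _⟩
      | mul y z _ _ hy hz =>
        obtain ⟨f, f', rfl, h1⟩ := hy
        obtain ⟨g, g', rfl, h2⟩ := hz
        refine ⟨f * g, f' * g', ?_, ?_⟩
        · rw [map_mul, map_mul, mul_assoc, mul_assoc, ← mul_assoc (β f'), ← hcomm g f']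
          simp only [mul_assoc]
        · have h3 : f * g * (f' * g')⁻¹ = f * (g * g'⁻¹) * f⁻¹ * (f * f'⁻¹) := by group
          rw [h3]
          exact mul_mem (hnorm.conj_mem _ h2 f) h1
      | inv y _ hy =>
        obtain ⟨f, f', rfl, h1⟩ := hy
        refine ⟨f⁻¹, f'⁻¹, ?_, ?_⟩
        · rw [mul_inv_rev, map_inv, map_inv, ← mul_inv_rev, ← mul_inv_rev, hcomm]
        · have h3 : f⁻¹ * f'⁻¹⁻¹ = f⁻¹ * (f * f'⁻¹)⁻¹ * f⁻¹⁻¹ := by group
          rw [h3]
          exact hnorm.conj_mem _ (inv_mem h1) f⁻¹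
    intro n hn
    have hn' : π₂ n = 1 := hn
    have h1 : α n ∈ E := by
      rw [hE]
      exact ⟨n, 1, by rw [map_one, hn'], by rw [map_one, mul_one]⟩
    obtain ⟨f, f', h2, h3⟩ := hC _ (hgen _ h1)
    have h4 := congrArg pr2 h2
    rw [map_mul, h2α, h2α, h2β, one_mul] at h4
    rw [← h4, map_one, mul_one] at h2
    have h6 := hα h2
    rw [← h4, inv_one, mul_one, ← h6] at h3
    exact h3

end fib

end Pool.Agent.Q18.HC
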