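import Pool.Agent.Q18.HC.Alg
import Pool.Agent.W304.DU.RG

/-!
# Relation modules of HNN extensions, direct products and free groups
-/

set_option autoImplicit false

namespace Pool.Agent.Q18.HC

open Pool.Agent.W326.DU Pool.Agent.Y66.HC Pool.Agent.W571.DU

section
variable {K G : Type} [Group K] [Group G] {I : Type} [Fintype I]

theorem exists_fox (x : I → K) (hx : Subgroup.closure (Set.range x) = ⊤) (g : K) :
    ∃ c, fox x c = MonoidAlgebra.of ℤ K g - 1 := by
  have h1 := (Pool.Agent.Y448.HC.fox_exact x hx (MonoidAlgebra.of ℤ K g - 1)).1 (by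
    rw [map_sub, Pool.Agent.Y448.HC.augm_of, Pool.Agent.Y448.HC.augm_one, sub_self])
  exact h1

/-- extension by zero -/
noncomputable def emb (G I : Type) [Group G] : (I → ZG G) →ₗ[ZG G] (Option I → ZG G) where
  toFun c := fun o => o.elim 0 c
  map_add' c d := by
    funext o
    cases o with
    | none => exact (add_zero _).symm
    | some i => rfl
  map_smul' a c := by
    funext o
    cases o with
    | none => exact (smul_zero a).symm
    | some i => rfl

/-- the family with a further letter -/
def addt (t : G) (x : I → G) : Option I → G := fun o => o.elim t x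

theorem fox_addt (t : G) (x : I → G) (c : Option I → ZG G) :
    fox (addt t x) c = c none * (MonoidAlgebra.of ℤ G t - 1) + fox x (fun i => c (some i)) := by
  rw [fox_apply, Fintype.sum_option]
  rfl

theorem fox_emb (t : G) (x : I → G) (c : I → ZG G) : fox (addt t x) (emb G I c) = fox x c := by
  rw [fox_addt]
  show (0 : ZG G) * _ + fox x c = fox x c
  rw [zero_mul, zero_add]

/-- the relation module when a stable letter is added -/
theorem RM_hnn (ι : K →* G) (hι : Function.Injective ι) (t : G) (Γ : Subgroup K)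
    (hΓ : Γ.FG) (hcomm : ∀ g ∈ Γ, t * ι g = ι g * t)
    (hstar : StarP ℤ (Set.range ι) t (ι '' (Γ : Set K)))
    (x : I → K) (hx : Subgroup.closure (Set.range x) = ⊤) (hR : (RM x).FG) :
    (RM (addt t (fun i => ι (x i)))).FG := by
  classical
  obtain ⟨F, hF⟩ := hΓ
  choose D hD using exists_fox x hx
  let ρ : K → Option I → ZG G := fun g o => o.elim (MonoidAlgebra.of ℤ G (ι g) - 1)
    (fun i => -(MonoidAlgebra.of ℤ G t - 1) * mp ι (D g i))
  have hρ : ∀ g ∈ Γ, fox (addt t (fun i => ι (x i))) (ρ g) = 0 := by
    intro g hg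
    rw [fox_addt]
    have h1 : fox (fun i => ι (x i)) (fun i => ρ g (some i)) =
        -(MonoidAlgebra.of ℤ G t - 1) * (MonoidAlgebra.of ℤ G (ι g) - 1) := by
      have h2 : (fun i => ρ g (some i)) = (-(MonoidAlgebra.of ℤ G t - 1)) • mpf ι (D g) := rfl
      rw [h2, map_smul, fox_mpf, hD, map_sub, map_one, mp_of, smul_eq_mul]
    rw [h1]
    have h3 : MonoidAlgebra.of ℤ G t * MonoidAlgebra.of ℤ G (ι g) =
        MonoidAlgebra.of ℤ G (ι g) * MonoidAlgebra.of ℤ G t := by
      rw [← map_mul, hcomm g hg, map_mul]
    have h4 := W490.DU.comm_sub_one h3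
    show (MonoidAlgebra.of ℤ G (ι g) - 1) * (MonoidAlgebra.of ℤ G t - 1) + _ = 0
    rw [← h4, neg_mul, add_neg_cancel]
  have hFΓ : ∀ g ∈ F, g ∈ Γ := by
    intro g hg
    rw [← hF]
    exact Subgroup.subset_closure hg
  have hle : RM (addt t (fun i => ι (x i))) = Submodule.span (ZG G) (ρ '' (F : Set K)) ⊔
      (Submodule.span (ZG G) (mpf ι '' (RM x : Set (I → ZG K)))).map (emb G I) := by
    apply le_antisymm
    · intro c hc
      rw [mem_RM, fox_addt] at hc
      have h1 : c none * (MonoidAlgebra.of ℤ G t - 1) ∈ IL ℤ (Set.range ι) := by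
        rw [eq_neg_of_add_eq_zero_left hc]
        apply neg_mem
        rw [fox_apply]
        exact Submodule.sum_mem _ fun i _ => mul_sub_mem (Set.mem_range_self (x i)) _
      have h2 := hstar _ h1
      have h3 : c none ∈ IL ℤ (ι '' (F : Set K)) := by
        refine W490.DU.IL_le ℤ ?_ h2
        rintro _ ⟨g, hg, rfl⟩
        rw [← MonoidHom.map_closure, hF]
        exact ⟨g, hg, rfl⟩
      have h4 : (Submodule.span (ZG G) (ρ '' (F : Set K))).map
          (LinearMap.proj (R := ZG G) (φ := fun _ : Option I => ZG G) none) =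
          IL ℤ (ι '' (F : Set K)) := by
        rw [Submodule.map_span, ← Set.image_comp]
        unfold IL
        rw [← Set.image_comp]
        rfl
      rw [← h4] at h3
      obtain ⟨r, hr, hrc⟩ := h3
      have hrc' : r none = c none := hrc
      have h5 : fox (addt t (fun i => ι (x i))) r = 0 := by
        have h6 : Submodule.span (ZG G) (ρ '' (F : Set K)) ≤ RM (addt t (fun i => ι (x i))) := by
          rw [Submodule.span_le]
          rintro _ ⟨g, hg, rfl⟩
          exact (mem_RM _ _).2 (hρ g (hFΓ g hg))
        exact (mem_RM _ _).1 (h6 hr)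
      have h7 : c - r = emb G I (fun i => (c - r) (some i)) := by
        funext o
        cases o with
        | none =>
          show c none - r none = 0
          rw [hrc', sub_self]
        | some i => rfl
      have h8 : (fun i => (c - r) (some i)) ∈ RM (fun i => ι (x i)) := by
        rw [mem_RM, ← fox_emb t, ← h7, map_sub, h5, sub_zero, fox_addt]
        exact hc
      have h9 : c = r + (c - r) := by abel
      rw [h9]
      refine add_mem (Submodule.mem_sup_left hr) (Submodule.mem_sup_right ?_)
      rw [h7]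
      exact Submodule.mem_map_of_mem (RM_le ι hι x h8)
    · refine sup_le ?_ ?_
      · rw [Submodule.span_le]
        rintro _ ⟨g, hg, rfl⟩
        exact (mem_RM _ _).2 (hρ g (hFΓ g hg))
      · rw [Submodule.map_span, Submodule.span_le]
        rintro _ ⟨_, ⟨c, hc, rfl⟩, rfl⟩
        show emb G I (mpf ι c) ∈ RM _
        rw [mem_RM, fox_emb, fox_mpf, (mem_RM _ _).1 hc, map_zero]
  rw [hle]
  refine Submodule.FG.sup ?_ (Submodule.FG.map _ (span_mpf_fg ι hR))
  exact Submodule.fg_span ((Finset.finite_toSet F).image ρ)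

end

section prod
variable {F Q G : Type} [Group F] [Group Q] [Group G] {I J : Type} [Fintype I] [Fintype J]

/-- extension by zero -/
noncomputable def emb2 (G I J : Type) [Group G] : (J → ZG G) →ₗ[ZG G] (I ⊕ J → ZG G) where
  toFun c := Sum.elim 0 c
  map_add' c d := by
    funext o
    cases o with
    | inl i => exact (add_zero _).symm
    | inr j => rfl
  map_smul' a c := by
    funext o
    cases o with
    | inl i => exact (smul_zero a).symm
    | inr j => rfl

/-- restriction -/
noncomputable def res1 (G I J : Type) [Group G] : (I ⊕ J → ZG G) →ₗ[ZG G] (I → ZG G) where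
  toFun c := fun i => c (Sum.inl i)
  map_add' _ _ := rfl
  map_smul' _ _ := rfl

theorem RM_prod (iF : F →* G) (iQ : Q →* G) (p : G →* F) (hiQ : Function.Injective iQ)
    (hpF : ∀ f, p (iF f) = f) (hpQ : ∀ q, p (iQ q) = 1) (hker : ∀ g, p g = 1 → ∃ q, iQ q = g)
    (hcomm : ∀ f q, iF f * iQ q = iQ q * iF f)
    (a : I → F) (b : J → Q) (ha : RM a = ⊥) (hb : Subgroup.closure (Set.range b) = ⊤)
    (hR : (RM b).FG) : (RM (Sum.elim (fun i => iF (a i)) (fun j => iQ (b j)))).FG := by
  classical
  obtain ⟨x, hx⟩ : ∃ x : I ⊕ J → G, x = Sum.elim (fun i => iF (a i)) (fun j => iQ (b j)) := ⟨_, rfl⟩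
  rw [← hx]
  have hxi : ∀ i, x (Sum.inl i) = iF (a i) := fun i => by rw [hx]; rfl
  have hxj : ∀ j, x (Sum.inr j) = iQ (b j) := fun j => by rw [hx]; rfl
  have hfox : ∀ c : I ⊕ J → ZG G, fox x c =
      ∑ i, c (Sum.inl i) * (MonoidAlgebra.of ℤ G (iF (a i)) - 1) +
      ∑ j, c (Sum.inr j) * (MonoidAlgebra.of ℤ G (iQ (b j)) - 1) := by
    intro c
    rw [fox_apply, Fintype.sum_sum_type]
    simp only [hxi, hxj]
  obtain ⟨ρ, hρd⟩ : ∃ ρ : I × J → I ⊕ J → ZG G, ∀ i j, ρ (i, j) =
      (Pi.single (Sum.inl i) (MonoidAlgebra.of ℤ G (iQ (b j)) - 1) : I ⊕ J → ZG G) -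
      (Pi.single (Sum.inr j) (MonoidAlgebra.of ℤ G (iF (a i)) - 1) : I ⊕ J → ZG G) :=
    ⟨fun p => (Pi.single (Sum.inl p.1) (MonoidAlgebra.of ℤ G (iQ (b p.2)) - 1) : I ⊕ J → ZG G) -
      (Pi.single (Sum.inr p.2) (MonoidAlgebra.of ℤ G (iF (a p.1)) - 1) : I ⊕ J → ZG G),
      fun _ _ => rfl⟩
  have hsingle : ∀ (s : I ⊕ J) (z : ZG G), fox x (Pi.single s z) =
      z * (MonoidAlgebra.of ℤ G (x s) - 1) := by
    intro s z
    rw [fox_apply, Finset.sum_eq_single s]
    · rw [Pi.single_eq_same]
    · intro s' _ hs'
      rw [Pi.single_eq_of_ne hs', zero_mul]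
    · intro h
      exact absurd (Finset.mem_univ s) h
  have hρ : ∀ p, fox x (ρ p) = 0 := by
    rintro ⟨i, j⟩
    rw [hρd, map_sub, hsingle, hsingle, sub_eq_zero, hxi, hxj]
    have h1 : MonoidAlgebra.of ℤ G (iQ (b j)) * MonoidAlgebra.of ℤ G (iF (a i)) =
        MonoidAlgebra.of ℤ G (iF (a i)) * MonoidAlgebra.of ℤ G (iQ (b j)) := by
      rw [← map_mul, ← map_mul, hcomm]
    exact W490.DU.comm_sub_one h1
  have hle : RM x = Submodule.span (ZG G) (Set.range ρ) ⊔
      (Submodule.span (ZG G) (mpf iQ '' (RM b : Set (J → ZG Q)))).map (emb2 G I J) := by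
    apply le_antisymm
    · intro c hc
      rw [mem_RM, hfox] at hc
      have h1 : ∀ i, c (Sum.inl i) ∈ IL ℤ (Set.range (fun j => iQ (b j))) := by
        have h2 : (fun i => mp p (c (Sum.inl i))) ∈ RM a := by
          rw [mem_RM, fox_apply]
          have h3 := congrArg (mp p) hc
          rw [map_zero, map_add, map_sum, map_sum] at h3
          have h4 : ∑ j, mp p (c (Sum.inr j) *
              (MonoidAlgebra.of ℤ G (iQ (b j)) - 1)) = 0 := by
            apply Finset.sum_eq_zero
            intro j _
            rw [map_mul, map_sub, map_one, mp_of, hpQ, map_one, sub_self, mul_zero]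
          rw [h4, add_zero] at h3
          rw [← h3]
          refine Finset.sum_congr rfl fun i _ => ?_
          rw [map_mul, map_sub, map_one, mp_of, hpF]
        rw [ha, Submodule.mem_bot] at h2
        intro i
        have h5 := ker_mp p (c (Sum.inl i)) (congrFun h2 i)
        refine W490.DU.IL_le ℤ ?_ h5
        intro g hg
        obtain ⟨q, rfl⟩ := hker g hg
        have h6 : iQ q ∈ (Subgroup.closure (Set.range b)).map iQ :=
          ⟨q, by rw [hb]; trivial, rfl⟩
        rw [MonoidHom.map_closure, ← Set.range_comp] at h6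
        exact h6
      have h7 : res1 G I J c ∈
          (Submodule.span (ZG G) (Set.range ρ)).map (res1 G I J) := by
        have h8 : res1 G I J c = ∑ i, LinearMap.single (ZG G)
            (fun _ : I => ZG G) i (c (Sum.inl i)) := by
          funext i
          rw [Finset.sum_apply, Finset.sum_eq_single i]
          · exact (Pi.single_eq_same (M := fun _ : I => ZG G) i (c (Sum.inl i))).symm
          · intro i' _ hi'
            exact Pi.single_eq_of_ne (M := fun _ : I => ZG G) hi'.symm _
          · intro h
            exact absurd (Finset.mem_univ i) h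
        rw [h8]
        refine Submodule.sum_mem _ fun i _ => ?_
        have h9 : (IL ℤ (Set.range (fun j => iQ (b j)))).map
            (LinearMap.single (ZG G) (fun _ : I => ZG G) i) ≤
            (Submodule.span (ZG G) (Set.range ρ)).map (res1 G I J) := by
          unfold IL
          rw [Submodule.map_span, Submodule.map_span]
          apply Submodule.span_mono
          rintro _ ⟨_, ⟨_, ⟨j, rfl⟩, rfl⟩, rfl⟩
          refine ⟨ρ (i, j), ⟨(i, j), rfl⟩, ?_⟩
          funext i'
          show ρ (i, j) (Sum.inl i') =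
            (Pi.single i (MonoidAlgebra.of ℤ G (iQ (b j)) - 1) : I → ZG G) i'
          rw [hρd, Pi.sub_apply,
            Pi.single_eq_of_ne (Sum.inl_ne_inr : (Sum.inl i' : I ⊕ J) ≠ Sum.inr j), sub_zero]
          by_cases hi : i' = i
          · subst hi
            rw [Pi.single_eq_same, Pi.single_eq_same]
          · rw [Pi.single_eq_of_ne hi, Pi.single_eq_of_ne (fun h => hi (Sum.inl_injective h))]
        exact h9 (Submodule.mem_map_of_mem (h1 i))
      obtain ⟨r, hr, hrc⟩ := h7
      have hrc' : ∀ i, r (Sum.inl i) = c (Sum.inl i) := fun i => congrFun hrc i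
      have h5 : fox x r = 0 := by
        have h6 : Submodule.span (ZG G) (Set.range ρ) ≤ RM x := by
          rw [Submodule.span_le]
          rintro _ ⟨p, rfl⟩
          exact (mem_RM _ _).2 (hρ p)
        exact (mem_RM _ _).1 (h6 hr)
      have h10 : c - r = emb2 G I J (fun j => (c - r) (Sum.inr j)) := by
        funext o
        cases o with
        | inl i =>
          show c (Sum.inl i) - r (Sum.inl i) = 0
          rw [hrc', sub_self]
        | inr j => rfl
      have h11 : (fun j => (c - r) (Sum.inr j)) ∈ RM (fun j => iQ (b j)) := by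
        have h12 : fox x (c - r) = 0 := by
          rw [map_sub, h5, sub_zero, hfox]
          exact hc
        rw [mem_RM, ← h12, hfox]
        have h13 : ∑ i, (c - r) (Sum.inl i) * (MonoidAlgebra.of ℤ G (iF (a i)) - 1) = 0 := by
          apply Finset.sum_eq_zero
          intro i _
          rw [Pi.sub_apply, hrc', sub_self, zero_mul]
        rw [h13, zero_add, fox_apply]
      have h9 : c = r + (c - r) := by abel
      rw [h9]
      refine add_mem (Submodule.mem_sup_left hr) (Submodule.mem_sup_right ?_)
      rw [h10]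
      exact Submodule.mem_map_of_mem (RM_le iQ hiQ b h11)
    · refine sup_le ?_ ?_
      · rw [Submodule.span_le]
        rintro _ ⟨p, rfl⟩
        exact (mem_RM _ _).2 (hρ p)
      · rw [Submodule.map_span, Submodule.span_le]
        rintro _ ⟨_, ⟨c, hc, rfl⟩, rfl⟩
        show emb2 G I J (mpf iQ c) ∈ RM _
        rw [mem_RM, hfox]
        have h13 : ∑ i, (emb2 G I J (mpf iQ c)) (Sum.inl i) *
            (MonoidAlgebra.of ℤ G (iF (a i)) - 1) = 0 := by
          apply Finset.sum_eq_zero
          intro i _
          show (0 : ZG G) * _ = 0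
          rw [zero_mul]
        rw [h13, zero_add]
        have h14 := fox_mpf iQ b c
        rw [(mem_RM _ _).1 hc, map_zero, fox_apply] at h14
        exact h14
  rw [hle]
  refine Submodule.FG.sup ?_ (Submodule.FG.map _ (span_mpf_fg _ hR))
  exact Submodule.fg_span (Set.finite_range ρ)

end prod

/-- the relation module of a basis of a free group is trivial -/
theorem RM_free (W : Type) [Fintype W] :
    RM (gen (fun _ _ : W => False)) = ⊥ := by
  classical
  rw [eq_bot_iff]
  intro c hc
  rw [mem_RM, fox_apply] at hc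
  rw [Submodule.mem_bot]
  funext v
  have h1 := Pool.Agent.W304.DU.RG.th ℤ W (fun _ _ => False) (fun _ _ h => h) (fun _ h => h) v (c v) (by
    rw [← Finset.add_sum_erase _ _ (Finset.mem_univ v)] at hc
    rw [eq_neg_of_add_eq_zero_left hc]
    refine neg_mem (Submodule.sum_mem _ fun w hw => ?_)
    have hwm : gen (fun _ _ : W => False) w ∈ gen (fun _ _ : W => False) '' {w | w ≠ v} :=
      ⟨w, Finset.ne_of_mem_erase hw, rfl⟩
    exact mul_sub_mem hwm _)
  have h2 : (gen (fun _ _ : W => False) '' {w | (fun _ _ : W => False) w v}) = ∅ := by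
    rw [Set.image_eq_empty]
    ext w
    exact Iff.rfl
  rw [h2] at h1
  unfold IL at h1
  rw [Set.image_empty, Submodule.span_empty, Submodule.mem_bot] at h1
  exact h1

end Pool.Agent.Q18.HC
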