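import Pool.Agent.Y66.HC.Defs

/-!
# Statements of further parts (MP_3ca9d5_al)
-/

set_option autoImplicit false

namespace Pool.Agent.Q18.HC

open Pool.Agent.W326.DU Pool.Agent.Y66.HC

/-- two letters for each ordered edge -/
abbrev EE {V : Type} (ad : V → V → Prop) : Type := {e : V × V // ad e.1 e.2} ⊕ {e : V × V // ad e.1 e.2}

/-- a group with its free generators: the right-angled Artin group of the graph without edges -/
abbrev Fr (W : Type) : Type := RAAG (fun _ _ : W => False)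

/-- **NF** (job D): the kernel of the map from the free group to the Bestvina-Brady group is not
the normal closure of a finite set. -/
def PropNF : Prop := ∀ (V : Type) [Fintype V] (ad : V → V → Prop) (γ : V → V → Equiv.Perm (Fin 5))
  (l : ℕ) (p : ℕ → V), GrData ad γ l p →
  ∀ π : Fr (EE ad) →* RAAG ad,
    (∀ e, π (gen _ (Sum.inl e)) = gen ad e.1.1 * (gen ad e.1.2)⁻¹) →
    (∀ e, π (gen _ (Sum.inr e)) = 1) →
    ∀ S : Set (Fr (EE ad)), S.Finite → (∀ r ∈ S, π r = 1) → ¬ (π.ker ≤ Subgroup.normalClosure S)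

/-- an abelian group graded by the projections `p n`, with commuting automorphisms `U v` of
degree one -/
structure Grad {V M : Type} [AddCommGroup M] (ad : V → V → Prop) (U U' : V → M →+ M)
    (p : ℤ → M →+ M) : Prop where
  inv1 : ∀ v x, U v (U' v x) = x
  inv2 : ∀ v x, U' v (U v x) = x
  comm : ∀ a b, ad a b → ∀ x, U a (U b x) = U b (U a x)
  deg : ∀ v n x, p (n + 1) (U v x) = U v (p n x)
  idem : ∀ n x, p n (p n x) = p n x
  orth : ∀ m n x, m ≠ n → p m (p n x) = 0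
  fin : ∀ x, ∃ k : ℕ, ∀ n : ℤ, (n < -k ∨ (k : ℤ) < n) → p n x = 0
  ext : ∀ x, (∀ n, p n x = 0) → x = 0

/-- `x` lives in the degrees `a, …, b` -/
def Sup {M : Type} [AddCommGroup M] (p : ℤ → M →+ M) (a b : ℤ) (x : M) : Prop :=
  ∀ n, (n < a ∨ b < n) → p n x = 0

/-- **TR** (job E): exactness of the truncated complex. -/
def PropTR : Prop := ∀ (V M : Type) [Fintype V] [AddCommGroup M] (ad : V → V → Prop)
  (U U' : V → M →+ M) (p : ℤ → M →+ M), (∀ a b, ad a b → ad b a) → (∀ a, ¬ ad a a) →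
  Acyc ad → Grad ad U U' p →
  -- exactness of the complex of all the elements in degrees one and two
  (∀ x : V → M, ∑ v, (U v (x v) - x v) = 0 →
    ∃ y, IsAlt2 ad Set.univ y ∧ ∀ b, x b = ∑ a, (U a (y a b) - y a b)) →
  (∀ y : V → V → M, IsAlt2 ad Set.univ y → (∀ b, ∑ a, (U a (y a b) - y a b) = 0) →
    ∃ z, IsAlt3 ad Set.univ z ∧ ∀ b c, y b c = ∑ a, (U a (z a b c) - z a b c)) →
  -- the truncated complex is exact
  (∀ y : V → M, Sup p 0 2 (∑ v, (U v (y v) - y v)) →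
    ∃ y' : V → M, (∀ v, Sup p 0 1 (y' v)) ∧ ∑ v, (U v (y' v) - y' v) = ∑ v, (U v (y v) - y v)) ∧
  (∀ x : V → M, (∀ v, Sup p 0 1 (x v)) → ∑ v, (U v (x v) - x v) = 0 →
    ∃ y, IsAlt2 ad Set.univ y ∧ (∀ a b, Sup p 0 0 (y a b)) ∧
      ∀ b, x b = ∑ a, (U a (y a b) - y a b)) ∧
  (∀ y : V → V → M, IsAlt2 ad Set.univ y → (∀ a b, Sup p 0 0 (y a b)) →
    (∀ b, ∑ a, (U a (y a b) - y a b) = 0) → ∀ a b, y a b = 0)

end Pool.Agent.Q18.HC
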