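import Pool.Agent.Q18.HC.Stm

/-!
# Job E: exactness of the truncated complex (MP_3ca9d5_al)
-/

set_option autoImplicit false

namespace Pool.Agent.Q18.HC

open Pool.Agent.W326.DU Pool.Agent.Y66.HC

namespace TR

variable {V M : Type} [Fintype V] [AddCommGroup M] {ad : V → V → Prop}
  {U U' : V → M →+ M} {p : ℤ → M →+ M}

set_option linter.unusedSectionVars false

theorem alt_sum_zero (T : V → V → M) (h1 : ∀ a b, T a b = - T b a) (h2 : ∀ a, T a a = 0) :
    ∑ b, ∑ a, T a b = 0 := by
  classical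
  rw [← Finset.sum_product']
  refine Finset.sum_involution (fun x _ => (x.2, x.1)) ?_ ?_ ?_ ?_
  · rintro ⟨b, a⟩ _
    simp only
    rw [h1 a b, neg_add_cancel]
  · rintro ⟨b, a⟩ _ hne he
    simp only [Prod.mk.injEq] at he
    apply hne
    simp only
    rw [he.1]
    exact h2 b
  · rintro ⟨b, a⟩ _
    simp
  · rintro ⟨b, a⟩ _
    rfl

theorem dd2 (hi : ∀ a, ¬ ad a a) (hG : Grad ad U U' p) {y : V → V → M} (hy : IsAlt2 ad Set.univ y) :
    ∑ b, (U b (∑ a, (U a (y a b) - y a b)) - ∑ a, (U a (y a b) - y a b)) = 0 := by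
  have e : ∀ b, U b (∑ a, (U a (y a b) - y a b)) - ∑ a, (U a (y a b) - y a b) =
      ∑ a, (U b (U a (y a b)) - U b (y a b) - U a (y a b) + y a b) := by
    intro b
    rw [map_sum, ← Finset.sum_sub_distrib]
    refine Finset.sum_congr rfl fun a _ => ?_
    rw [map_sub]
    abel
  simp_rw [e]
  refine alt_sum_zero (fun a b => U b (U a (y a b)) - U b (y a b) - U a (y a b) + y a b) ?_ ?_
  · intro a b
    by_cases hab : ad a b
    · rw [hG.comm a b hab, hy.1 a b]
      simp only [map_neg]
      abel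
    · have h1 : y a b = 0 := hy.2 a b fun h => hab h.2.2
      have h2 : y b a = 0 := by rw [hy.1 b a, h1, neg_zero]
      simp [h1, h2]
  · intro a
    have h1 : y a a = 0 := hy.2 a a fun h => hi a h.2.2
    simp [h1]

theorem dd3 (hi : ∀ a, ¬ ad a a) (hG : Grad ad U U' p) {z : V → V → V → M}
    (hz : IsAlt3 ad Set.univ z) (c : V) :
    ∑ b, (U b (∑ a, (U a (z a b c) - z a b c)) - ∑ a, (U a (z a b c) - z a b c)) = 0 := by
  refine dd2 (y := fun a b => z a b c) hi hG ⟨fun a b => hz.1 a b c, fun a b h => hz.2.2 a b c ?_⟩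
  rintro ⟨_, _, _, h1, _, _⟩
  exact h ⟨trivial, trivial, h1⟩

theorem pR (hG : Grad ad U U' p) (n : ℤ) (v : V) (x : M) :
    p n (U v x - x) = U v (p (n - 1) x) - p n x := by
  have := hG.deg v (n - 1) x
  rw [sub_add_cancel] at this
  rw [map_sub, this]

theorem pSum (hG : Grad ad U U' p) (n : ℤ) (y : V → M) :
    p n (∑ v, (U v (y v) - y v)) = ∑ v, (U v (p (n - 1) (y v)) - p n (y v)) := by
  rw [map_sum]
  exact Finset.sum_congr rfl fun v _ => pR hG n v (y v)

theorem ccomm (hG : Grad ad U U' p) {a b : V} (hab : ad a b) (x : M) :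
    U' a (U' b x) = U' b (U' a x) := by
  have h1 : U b (U a (U' a (U' b x))) = x := by rw [hG.inv1, hG.inv1]
  have h2 : U a (U b (U' a (U' b x))) = x := by rw [hG.comm a b hab, h1]
  have h3 : U b (U' a (U' b x)) = U' a x := by rw [← hG.inv2 a (U b (U' a (U' b x))), h2]
  rw [← hG.inv2 b (U' a (U' b x)), h3]

/-- the truncation of a chain of degree `a` -/
theorem pp (hG : Grad ad U U' p) (m a : ℤ) (x : M) : p m (p a x) = if m = a then p a x else 0 := by
  split_ifs with h
  · rw [h, hG.idem]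
  · exact hG.orth m a x h

/-! ### Dimension one -/

theorem bottom1 (hi : ∀ a, ¬ ad a a) (hA : Acyc ad) (hG : Grad ad U U' p) {a b : ℤ} (ha : a < 0)
    (hb : 0 ≤ b) (y : V → M) (hy : ∀ v, Sup p a b (y v)) (h0 : p a (∑ v, (U v (y v) - y v)) = 0) :
    ∃ y' : V → M, (∀ v, Sup p (a + 1) b (y' v)) ∧
      ∑ v, (U v (y' v) - y' v) = ∑ v, (U v (y v) - y v) := by
  rw [pSum hG] at h0
  have h1 : ∑ v, p a (y v) = 0 := by
    have e : ∀ v, U v (p (a - 1) (y v)) - p a (y v) = - p a (y v) := by
      intro v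
      rw [hy v (a - 1) (Or.inl (by omega)), map_zero, zero_sub]
    simp_rw [e] at h0
    rw [Finset.sum_neg_distrib, neg_eq_zero] at h0
    exact h0
  obtain ⟨z, hz, hzs⟩ := hA.ac1 M (fun v => p a (y v)) h1
  have hw : IsAlt2 ad Set.univ (fun u v => p a (z u v)) := by
    refine ⟨fun u v => ?_, fun u v h => ?_⟩
    · beta_reduce; rw [hz.1 u v, map_neg]
    · beta_reduce; rw [hz.2 u v h, map_zero]
  refine ⟨fun v => y v + ∑ u, (U u (p a (z u v)) - p a (z u v)), fun v m hm => ?_, ?_⟩
  · rw [map_add, pSum hG m (fun u => p a (z u v))]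
    simp_rw [pp hG]
    by_cases hma : m = a
    · subst hma
      have h2 : ¬ (m - 1 = m) := by omega
      simp only [h2, if_false, if_true, map_zero, zero_sub]
      rw [Finset.sum_neg_distrib, ← map_sum, ← hzs v, hG.idem, add_neg_cancel]
    · have h2 : ¬ (m - 1 = a) := by omega
      simp only [h2, hma, if_false, map_zero, sub_zero, Finset.sum_const_zero, add_zero]
      exact hy v m (by omega)
  · have := dd2 hi hG hw
    simp only [map_add, add_sub_add_comm]
    rw [Finset.sum_add_distrib, this, add_zero]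

theorem top1 (hi : ∀ a, ¬ ad a a) (hA : Acyc ad) (hG : Grad ad U U' p) {n : ℤ} (hn : 1 ≤ n)
    (y : V → M) (hy : ∀ v, Sup p 0 n (y v)) (h0 : p (n + 1) (∑ v, (U v (y v) - y v)) = 0) :
    ∃ y' : V → M, (∀ v, Sup p 0 (n - 1) (y' v)) ∧
      ∑ v, (U v (y' v) - y' v) = ∑ v, (U v (y v) - y v) := by
  rw [pSum hG, add_sub_cancel_right] at h0
  have h1 : ∑ v, U v (p n (y v)) = 0 := by
    have e : ∀ v, U v (p n (y v)) - p (n + 1) (y v) = U v (p n (y v)) := by
      intro v
      rw [hy v (n + 1) (Or.inr (by omega)), sub_zero]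
    simp_rw [e] at h0
    exact h0
  obtain ⟨z, hz, hzs⟩ := hA.ac1 M (fun v => U v (p n (y v))) h1
  set w : V → V → M := fun u v => p (n - 1) (U' u (U' v (z u v))) with hwd
  have hw : IsAlt2 ad Set.univ w := by
    refine ⟨fun u v => ?_, fun u v h => ?_⟩
    · by_cases huv : ad u v
      · simp only [hwd]
        rw [ccomm hG huv, hz.1 u v, map_neg, map_neg, map_neg]
      · have h1 : z u v = 0 := hz.2 u v fun h => huv h.2.2
        have h2 : z v u = 0 := by rw [hz.1 v u, h1, neg_zero]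
        simp [hwd, h1, h2]
    · simp [hwd, hz.2 u v h]
  have key : ∀ v, ∑ u, U u (w u v) = p n (y v) := by
    intro v
    have e : ∀ u, U u (w u v) = p n (U' v (z u v)) := by
      intro u
      have := hG.deg u (n - 1) (U' u (U' v (z u v)))
      rw [sub_add_cancel, hG.inv1] at this
      exact this.symm
    simp_rw [e]
    rw [← map_sum, ← map_sum, ← hzs v, hG.inv2, hG.idem]
  have hpw : ∀ m u v, m ≠ n - 1 → p m (w u v) = 0 := fun m u v hm => hG.orth m (n - 1) _ hm
  refine ⟨fun v => y v - ∑ u, (U u (w u v) - w u v), fun v m hm => ?_, ?_⟩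
  · rw [map_sub, pSum hG m (fun u => w u v)]
    by_cases hmn : m = n
    · subst hmn
      have e : ∀ u, U u (p (m - 1) (w u v)) - p m (w u v) = U u (w u v) := by
        intro u
        rw [hpw m u v (by omega), sub_zero]
        simp only [hwd]
        rw [hG.idem]
      simp_rw [e]
      rw [key, sub_self]
    · have e : ∀ u, U u (p (m - 1) (w u v)) - p m (w u v) = 0 := by
        intro u
        rw [hpw m u v (by omega), hpw (m - 1) u v (by omega), map_zero, sub_zero]
      simp_rw [e]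
      rw [Finset.sum_const_zero, sub_zero]
      exact hy v m (by omega)
  · have := dd2 hi hG hw
    have e : ∀ v, U v (y v - ∑ u, (U u (w u v) - w u v)) - (y v - ∑ u, (U u (w u v) - w u v)) =
        (U v (y v) - y v) - (U v (∑ u, (U u (w u v) - w u v)) - ∑ u, (U u (w u v) - w u v)) := by
      intro v
      rw [map_sub]
      abel
    simp_rw [e]
    rw [Finset.sum_sub_distrib, this, sub_zero]

theorem bottoms1 (hi : ∀ a, ¬ ad a a) (hA : Acyc ad) (hG : Grad ad U U' p) {b : ℤ} (hb : 0 ≤ b)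
    (k : ℕ) : ∀ (y : V → M), (∀ v, Sup p (-k) b (y v)) →
      (∀ n < 0, p n (∑ v, (U v (y v) - y v)) = 0) →
    ∃ y' : V → M, (∀ v, Sup p 0 b (y' v)) ∧ ∑ v, (U v (y' v) - y' v) = ∑ v, (U v (y v) - y v) := by
  induction k with
  | zero =>
    intro y hy _
    exact ⟨y, by simpa using hy, rfl⟩
  | succ k ih =>
    intro y hy h0
    obtain ⟨y1, h1, h2⟩ := bottom1 (a := -((k + 1 : ℕ) : ℤ)) hi hA hG (by push_cast; omega) hb y hy
      (h0 _ (by push_cast; omega))
    obtain ⟨y2, h3, h4⟩ := ih y1 (by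
      have e : -((k + 1 : ℕ) : ℤ) + 1 = -(k : ℤ) := by push_cast; ring
      rwa [e] at h1) (by rw [h2]; exact h0)
    exact ⟨y2, h3, h4.trans h2⟩

theorem tops1 (hi : ∀ a, ¬ ad a a) (hA : Acyc ad) (hG : Grad ad U U' p) {c : ℤ} (hc : 0 ≤ c)
    (k : ℕ) : ∀ (y : V → M), (∀ v, Sup p 0 (c + k) (y v)) →
      (∀ n, c + 1 < n → p n (∑ v, (U v (y v) - y v)) = 0) →
    ∃ y' : V → M, (∀ v, Sup p 0 c (y' v)) ∧ ∑ v, (U v (y' v) - y' v) = ∑ v, (U v (y v) - y v) := by
  induction k with
  | zero =>
    intro y hy _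
    exact ⟨y, by simpa using hy, rfl⟩
  | succ k ih =>
    intro y hy h0
    obtain ⟨y1, h1, h2⟩ := top1 (n := c + (k + 1 : ℕ)) hi hA hG (by push_cast; omega) y hy
      (h0 _ (by push_cast; omega))
    obtain ⟨y2, h3, h4⟩ := ih y1 (by
      have e : c + ((k + 1 : ℕ) : ℤ) - 1 = c + (k : ℤ) := by push_cast; ring
      rwa [e] at h1) (by rw [h2]; exact h0)
    exact ⟨y2, h3, h4.trans h2⟩

/-! ### Dimension two -/

theorem bottom2 (hi : ∀ a, ¬ ad a a) (hA : Acyc ad) (hG : Grad ad U U' p) {a b : ℤ} (ha : a < 0)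
    (hb : 0 ≤ b) (y : V → V → M) (hya : IsAlt2 ad Set.univ y) (hy : ∀ u v, Sup p a b (y u v))
    (h0 : ∀ t, p a (∑ v, (U v (y v t) - y v t)) = 0) :
    ∃ y' : V → V → M, IsAlt2 ad Set.univ y' ∧ (∀ u v, Sup p (a + 1) b (y' u v)) ∧
      ∀ t, ∑ v, (U v (y' v t) - y' v t) = ∑ v, (U v (y v t) - y v t) := by
  have h1 : ∀ t, ∑ v, p a (y v t) = 0 := by
    intro t
    have h0 := h0 t
    rw [pSum hG a (fun v => y v t)] at h0
    have e : ∀ v, U v (p (a - 1) (y v t)) - p a (y v t) = - p a (y v t) := by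
      intro v
      rw [hy v t (a - 1) (Or.inl (by omega)), map_zero, zero_sub]
    simp_rw [e] at h0
    rw [Finset.sum_neg_distrib, neg_eq_zero] at h0
    exact h0
  have hpy : IsAlt2 ad Set.univ (fun u v => p a (y u v)) := by
    refine ⟨fun u v => ?_, fun u v h => ?_⟩
    · beta_reduce; rw [hya.1 u v, map_neg]
    · beta_reduce; rw [hya.2 u v h, map_zero]
  obtain ⟨z, hz, hzs⟩ := hA.ac2 M (fun u v => p a (y u v)) hpy h1
  have hw : IsAlt3 ad Set.univ (fun u v t => p a (z u v t)) := by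
    refine ⟨fun u v t => ?_, fun u v t => ?_, fun u v t h => ?_⟩
    · beta_reduce; rw [hz.1 u v t, map_neg]
    · beta_reduce; rw [hz.2.1 u v t, map_neg]
    · beta_reduce; rw [hz.2.2 u v t h, map_zero]
  refine ⟨fun v t => y v t + ∑ u, (U u (p a (z u v t)) - p a (z u v t)), ?_, fun v t m hm => ?_, ?_⟩
  · refine ⟨fun v t => ?_, fun v t h => ?_⟩
    · simp only
      rw [neg_add, hya.1 v t, ← Finset.sum_neg_distrib]
      congr 1
      refine Finset.sum_congr rfl fun u _ => ?_
      rw [hz.2.1 u v t]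
      simp only [map_neg]
      abel
    · have e : ∀ u, z u v t = 0 := fun u => hz.2.2 u v t fun h' => h ⟨trivial, trivial, h'.2.2.2.2.1⟩
      simp [e, hya.2 v t h]
  · rw [map_add, pSum hG m (fun u => p a (z u v t))]
    simp_rw [pp hG]
    by_cases hma : m = a
    · subst hma
      have h2 : ¬ (m - 1 = m) := by omega
      simp only [h2, if_false, if_true, map_zero, zero_sub]
      rw [Finset.sum_neg_distrib, ← map_sum, ← hzs v t, hG.idem, add_neg_cancel]
    · have h2 : ¬ (m - 1 = a) := by omega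
      simp only [h2, hma, if_false, map_zero, sub_zero, Finset.sum_const_zero, add_zero]
      exact hy v t m (by omega)
  · intro t
    have := dd3 hi hG hw t
    simp only [map_add, add_sub_add_comm]
    rw [Finset.sum_add_distrib, this, add_zero]

theorem top2 (hi : ∀ a, ¬ ad a a) (hA : Acyc ad) (hG : Grad ad U U' p) {n : ℤ} (hn : 1 ≤ n)
    (y : V → V → M) (hya : IsAlt2 ad Set.univ y) (hy : ∀ u v, Sup p 0 n (y u v))
    (h0 : ∀ t, p (n + 1) (∑ v, (U v (y v t) - y v t)) = 0) :
    ∃ y' : V → V → M, IsAlt2 ad Set.univ y' ∧ (∀ u v, Sup p 0 (n - 1) (y' u v)) ∧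
      ∀ t, ∑ v, (U v (y' v t) - y' v t) = ∑ v, (U v (y v t) - y v t) := by
  have h1 : ∀ t, ∑ v, U v (p n (y v t)) = 0 := by
    intro t
    have h0 := h0 t
    rw [pSum hG (n + 1) (fun v => y v t), add_sub_cancel_right] at h0
    have e : ∀ v, U v (p n (y v t)) - p (n + 1) (y v t) = U v (p n (y v t)) := by
      intro v
      rw [hy v t (n + 1) (Or.inr (by omega)), sub_zero]
    simp_rw [e] at h0
    exact h0
  have hyt : IsAlt2 ad Set.univ (fun u v => U v (U u (p n (y u v)))) := by
    refine ⟨fun u v => ?_, fun u v h => ?_⟩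
    · by_cases huv : ad u v
      · simp only
        rw [← hG.comm u v huv, hya.1 u v]
        simp only [map_neg]
      · have h1 : y u v = 0 := hya.2 u v fun h => huv h.2.2
        have h2 : y v u = 0 := by rw [hya.1 v u, h1, neg_zero]
        simp [h1, h2]
    · simp [hya.2 u v h]
  obtain ⟨z, hz, hzs⟩ := hA.ac2 M (fun u v => U v (U u (p n (y u v)))) hyt (by
    intro t
    rw [← map_sum, h1, map_zero])
  set w : V → V → V → M := fun u v t => p (n - 1) (U' u (U' v (U' t (z u v t)))) with hwd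
  have hw : IsAlt3 ad Set.univ w := by
    refine ⟨fun u v t => ?_, fun u v t => ?_, fun u v t h => ?_⟩
    · by_cases huv : ad u v
      · simp only [hwd]
        rw [ccomm hG huv, hz.1 u v t]
        simp only [map_neg]
      · have h1 : z u v t = 0 := hz.2.2 u v t fun h => huv h.2.2.2.1
        have h2 : z v u t = 0 := by rw [hz.1 v u t, h1, neg_zero]
        simp [hwd, h1, h2]
    · by_cases hvt : ad v t
      · simp only [hwd]
        rw [ccomm hG hvt, hz.2.1 u v t]
        simp only [map_neg]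
      · have h1 : z u v t = 0 := hz.2.2 u v t fun h => hvt h.2.2.2.2.1
        have h2 : z u t v = 0 := by rw [hz.2.1 u t v, h1, neg_zero]
        simp [hwd, h1, h2]
    · simp [hwd, hz.2.2 u v t h]
  have key : ∀ v t, ∑ u, U u (w u v t) = p n (y v t) := by
    intro v t
    have e : ∀ u, U u (w u v t) = p n (U' v (U' t (z u v t))) := by
      intro u
      have := hG.deg u (n - 1) (U' u (U' v (U' t (z u v t))))
      rw [sub_add_cancel, hG.inv1] at this
      exact this.symm
    simp_rw [e]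
    rw [← map_sum, ← map_sum, ← map_sum, ← hzs v t, hG.inv2, hG.inv2, hG.idem]
  have hpw : ∀ m u v t, m ≠ n - 1 → p m (w u v t) = 0 := fun m u v t hm => hG.orth m (n - 1) _ hm
  refine ⟨fun v t => y v t - ∑ u, (U u (w u v t) - w u v t), ?_, fun v t m hm => ?_, ?_⟩
  · refine ⟨fun v t => ?_, fun v t h => ?_⟩
    · simp only
      rw [neg_sub, hya.1 v t]
      have e : ∑ u, (U u (w u v t) - w u v t) = - ∑ u, (U u (w u t v) - w u t v) := by
        rw [← Finset.sum_neg_distrib]
        refine Finset.sum_congr rfl fun u _ => ?_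
        rw [hw.2.1 u v t]
        simp only [map_neg]
        abel
      rw [e]
      abel
    · have e : ∀ u, w u v t = 0 := fun u => hw.2.2 u v t fun h' => h ⟨trivial, trivial, h'.2.2.2.2.1⟩
      simp [e, hya.2 v t h]
  · rw [map_sub, pSum hG m (fun u => w u v t)]
    by_cases hmn : m = n
    · subst hmn
      have e : ∀ u, U u (p (m - 1) (w u v t)) - p m (w u v t) = U u (w u v t) := by
        intro u
        rw [hpw m u v t (by omega), sub_zero]
        simp only [hwd]
        rw [hG.idem]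
      simp_rw [e]
      rw [key, sub_self]
    · have e : ∀ u, U u (p (m - 1) (w u v t)) - p m (w u v t) = 0 := by
        intro u
        rw [hpw m u v t (by omega), hpw (m - 1) u v t (by omega), map_zero, sub_zero]
      simp_rw [e]
      rw [Finset.sum_const_zero, sub_zero]
      exact hy v t m (by omega)
  · intro t
    have := dd3 hi hG hw t
    have e : ∀ v, U v (y v t - ∑ u, (U u (w u v t) - w u v t)) - (y v t - ∑ u, (U u (w u v t) - w u v t)) =
        (U v (y v t) - y v t) - (U v (∑ u, (U u (w u v t) - w u v t)) - ∑ u, (U u (w u v t) - w u v t)) := by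
      intro v
      rw [map_sub]
      abel
    simp_rw [e]
    rw [Finset.sum_sub_distrib, this, sub_zero]

theorem bottoms2 (hi : ∀ a, ¬ ad a a) (hA : Acyc ad) (hG : Grad ad U U' p) {b : ℤ} (hb : 0 ≤ b)
    (k : ℕ) : ∀ (y : V → V → M), IsAlt2 ad Set.univ y → (∀ u v, Sup p (-k) b (y u v)) →
      (∀ t, ∀ n < 0, p n (∑ v, (U v (y v t) - y v t)) = 0) →
    ∃ y' : V → V → M, IsAlt2 ad Set.univ y' ∧ (∀ u v, Sup p 0 b (y' u v)) ∧
      ∀ t, ∑ v, (U v (y' v t) - y' v t) = ∑ v, (U v (y v t) - y v t) := by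
  induction k with
  | zero =>
    intro y hya hy _
    exact ⟨y, hya, by simpa using hy, fun _ => rfl⟩
  | succ k ih =>
    intro y hya hy h0
    obtain ⟨y1, h1a, h1, h2⟩ := bottom2 (a := -((k + 1 : ℕ) : ℤ)) hi hA hG (by push_cast; omega) hb y
      hya hy (fun t => h0 t _ (by push_cast; omega))
    obtain ⟨y2, h3a, h3, h4⟩ := ih y1 h1a (by
      have e : -((k + 1 : ℕ) : ℤ) + 1 = -(k : ℤ) := by push_cast; ring
      rwa [e] at h1) (by intro t; rw [h2]; exact h0 t)
    exact ⟨y2, h3a, h3, fun t => (h4 t).trans (h2 t)⟩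

theorem tops2 (hi : ∀ a, ¬ ad a a) (hA : Acyc ad) (hG : Grad ad U U' p) {c : ℤ} (hc : 0 ≤ c)
    (k : ℕ) : ∀ (y : V → V → M), IsAlt2 ad Set.univ y → (∀ u v, Sup p 0 (c + k) (y u v)) →
      (∀ t, ∀ n, c + 1 < n → p n (∑ v, (U v (y v t) - y v t)) = 0) →
    ∃ y' : V → V → M, IsAlt2 ad Set.univ y' ∧ (∀ u v, Sup p 0 c (y' u v)) ∧
      ∀ t, ∑ v, (U v (y' v t) - y' v t) = ∑ v, (U v (y v t) - y v t) := by
  induction k with
  | zero =>
    intro y hya hy _
    exact ⟨y, hya, by simpa using hy, fun _ => rfl⟩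
  | succ k ih =>
    intro y hya hy h0
    obtain ⟨y1, h1a, h1, h2⟩ := top2 (n := c + (k + 1 : ℕ)) hi hA hG (by push_cast; omega) y hya hy
      (fun t => h0 t _ (by push_cast; omega))
    obtain ⟨y2, h3a, h3, h4⟩ := ih y1 h1a (by
      have e : c + ((k + 1 : ℕ) : ℤ) - 1 = c + (k : ℤ) := by push_cast; ring
      rwa [e] at h1) (by intro t; rw [h2]; exact h0 t)
    exact ⟨y2, h3a, h3, fun t => (h4 t).trans (h2 t)⟩

/-! ### Dimension three -/

theorem three (hA : Acyc ad) (hG : Grad ad U U' p) (z : V → V → V → M) (hz : IsAlt3 ad Set.univ z)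
    (y : V → V → M) (hy : ∀ a b, Sup p 0 0 (y a b))
    (h : ∀ b c, y b c = ∑ a, (U a (z a b c) - z a b c)) : ∀ a b c, z a b c = 0 := by
  -- a common bound
  have hfin : ∃ K : ℕ, ∀ a b c, ∀ n : ℤ, (n < -K ∨ (K : ℤ) < n) → p n (z a b c) = 0 := by
    choose k hk using fun x : V × V × V => hG.fin (z x.1 x.2.1 x.2.2)
    refine ⟨Finset.univ.sup k, fun a b c n hn => hk (a, b, c) n ?_⟩
    have : k (a, b, c) ≤ Finset.univ.sup k := Finset.le_sup (Finset.mem_univ _)
    omega
  obtain ⟨K, hK⟩ := hfin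
  have hcomp : ∀ n b c, p n (y b c) = ∑ a, (U a (p (n - 1) (z a b c)) - p n (z a b c)) := by
    intro n b c
    rw [h b c, pSum hG n (fun a => z a b c)]
  have hpz : ∀ n, IsAlt3 ad Set.univ (fun a b c => p n (z a b c)) := by
    intro n
    refine ⟨fun u v t => ?_, fun u v t => ?_, fun u v t h => ?_⟩
    · beta_reduce; rw [hz.1 u v t, map_neg]
    · beta_reduce; rw [hz.2.1 u v t, map_neg]
    · beta_reduce; rw [hz.2.2 u v t h, map_zero]
  -- negative degrees
  have hneg : ∀ m : ℕ, ∀ n : ℤ, n < 0 → n ≤ -K - 1 + m → ∀ a b c, p n (z a b c) = 0 := by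
    intro m
    induction m with
    | zero =>
      intro n hn hnm a b c
      exact hK a b c n (Or.inl (by push_cast at hnm; omega))
    | succ m ih =>
      intro n hn hnm
      refine hA.ac3 M (fun a b c => p n (z a b c)) (hpz n) fun b c => ?_
      have h1 := hcomp n b c
      rw [hy b c n (Or.inl hn)] at h1
      have e : ∀ a, U a (p (n - 1) (z a b c)) - p n (z a b c) = - p n (z a b c) := by
        intro a
        rw [ih (n - 1) (by omega) (by push_cast at hnm; omega) a b c, map_zero, zero_sub]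
      simp_rw [e] at h1
      rw [Finset.sum_neg_distrib] at h1
      exact neg_eq_zero.1 h1.symm
  have hpos : ∀ m : ℕ, ∀ n : ℤ, 0 ≤ n → (K : ℤ) + 1 - m ≤ n → ∀ a b c, p n (z a b c) = 0 := by
    intro m
    induction m with
    | zero =>
      intro n hn hnm a b c
      exact hK a b c n (Or.inr (by push_cast at hnm; omega))
    | succ m ih =>
      intro n hn hnm a b c
      have hzt : IsAlt3 ad Set.univ (fun a b c => U c (U b (U a (p n (z a b c))))) := by
        refine ⟨fun u v t => ?_, fun u v t => ?_, fun u v t h => ?_⟩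
        · by_cases huv : ad u v
          · simp only
            rw [← hG.comm u v huv, hz.1 u v t]
            simp only [map_neg]
          · have h1 : z u v t = 0 := hz.2.2 u v t fun h => huv h.2.2.2.1
            have h2 : z v u t = 0 := by rw [hz.1 v u t, h1, neg_zero]
            simp [h1, h2]
        · by_cases hvt : ad v t
          · simp only
            rw [← hG.comm v t hvt, hz.2.1 u v t]
            simp only [map_neg]
          · have h1 : z u v t = 0 := hz.2.2 u v t fun h => hvt h.2.2.2.2.1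
            have h2 : z u t v = 0 := by rw [hz.2.1 u t v, h1, neg_zero]
            simp [h1, h2]
        · simp [hz.2.2 u v t h]
      have h3 := hA.ac3 M (fun a b c => U c (U b (U a (p n (z a b c))))) hzt (fun b c => by
        have h1 := hcomp (n + 1) b c
        rw [hy b c (n + 1) (Or.inr (by omega)), add_sub_cancel_right] at h1
        have e : ∀ a, U a (p n (z a b c)) - p (n + 1) (z a b c) = U a (p n (z a b c)) := by
          intro a
          rw [ih (n + 1) (by omega) (by push_cast at hnm; omega) a b c, sub_zero]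
        simp_rw [e] at h1
        rw [← map_sum, ← map_sum, ← h1, map_zero, map_zero]) a b c
      have h4 : U' a (U' b (U' c (U c (U b (U a (p n (z a b c))))))) = p n (z a b c) := by
        rw [hG.inv2, hG.inv2, hG.inv2]
      rw [← h4]
      rw [h3, map_zero, map_zero, map_zero]
  intro a b c
  refine hG.ext _ fun n => ?_
  rcases lt_or_ge n 0 with hn | hn
  · exact hneg (n + K + 1).toNat n hn (by omega) a b c
  · exact hpos (K + 1) n hn (by push_cast; omega) a b c

end TR

/-- job E -/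
theorem tr : PropTR := by
  intro V M _ _ ad U U' p hs hi hA hG e1 e2
  refine ⟨fun y hy => ?_, fun x hx h0 => ?_, fun y hya hy h0 => ?_⟩
  · -- Part 1
    obtain ⟨k, hk⟩ : ∃ K : ℕ, ∀ v, Sup p (-K) (1 + K) (y v) := by
      choose k hk using fun v => hG.fin (y v)
      refine ⟨Finset.univ.sup k, fun v n hn => hk v n ?_⟩
      have : k v ≤ Finset.univ.sup k := Finset.le_sup (Finset.mem_univ _)
      omega
    obtain ⟨y1, h1, h2⟩ := TR.bottoms1 hi hA hG (b := 1 + k) (by omega) k y hk
      (fun n hn => hy n (Or.inl hn))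
    obtain ⟨y2, h3, h4⟩ := TR.tops1 hi hA hG (c := 1) (by omega) k y1 h1 (fun n hn => by
      rw [h2]; exact hy n (Or.inr (by omega)))
    exact ⟨y2, h3, h4.trans h2⟩
  · -- Part 2
    obtain ⟨y, hya, hyx⟩ := e1 x h0
    obtain ⟨k, hk⟩ : ∃ K : ℕ, ∀ u v, Sup p (-K) (0 + K) (y u v) := by
      choose k hk using fun v : V × V => hG.fin (y v.1 v.2)
      refine ⟨Finset.univ.sup k, fun u v n hn => hk (u, v) n ?_⟩
      have : k (u, v) ≤ Finset.univ.sup k := Finset.le_sup (Finset.mem_univ _)
      omega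
    obtain ⟨y1, h1a, h1, h2⟩ := TR.bottoms2 hi hA hG (b := 0 + k) (by omega) k y hya hk
      (fun t n hn => by rw [← hyx t]; exact hx t n (Or.inl hn))
    obtain ⟨y2, h3a, h3, h4⟩ := TR.tops2 hi hA hG (c := 0) le_rfl k y1 h1a h1 (fun t n hn => by
      rw [h2, ← hyx t]; exact hx t n (Or.inr (by omega)))
    exact ⟨y2, h3a, h3, fun b => by rw [h4 b, h2 b, hyx b]⟩
  · -- Part 3
    obtain ⟨z, hza, hzy⟩ := e2 y hya h0
    have := TR.three hA hG z hza y hy hzy
    intro a b
    rw [hzy a b]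
    simp [this]

end Pool.Agent.Q18.HC
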